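import Mathlib

/-!
# MP_1a91b9_nt (the binomial law): the constants are between `0` and `1`
-/

set_option autoImplicit false

namespace Pool.Agent.Lib.MP_1a91b9_ntZ

open Filter Topology

/-- between `0` and `1` -/
def CB (c : ℝ) : Prop := 0 < c ∧ c ≤ 1

theorem CB.pow {c : ℝ} (h : CB c) (n : ℕ) : CB (c ^ n) :=
  ⟨pow_pos h.1 n, pow_le_one₀ h.1.le h.2⟩

theorem cb_tprod {f a : ℕ → ℝ} (ha : Summable a) (h : ∀ i, Real.exp (-a i) ≤ f i)
    (h1 : ∀ i, f i ≤ 1) : CB (∏' i, f i) := by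
  by_cases hf : Multipliable f
  · have ht := hf.hasProd.tendsto_prod_nat
    have ha0 : ∀ i, 0 ≤ a i := by
      intro i
      have h2 := (h i).trans (h1 i)
      rw [← Real.exp_zero, Real.exp_le_exp] at h2
      linarith
    have hf0 : ∀ i, 0 ≤ f i := fun i => (Real.exp_pos _).le.trans (h i)
    constructor
    · refine lt_of_lt_of_le (Real.exp_pos (-∑' i, a i)) (ge_of_tendsto' ht fun n => ?_)
      calc Real.exp (-∑' i, a i) ≤ Real.exp (∑ i ∈ Finset.range n, -a i) := by
            rw [Real.exp_le_exp, Finset.sum_neg_distrib, neg_le_neg_iff]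
            exact ha.sum_le_tsum _ fun i _ => ha0 i
        _ = ∏ i ∈ Finset.range n, Real.exp (-a i) := Real.exp_sum _ _
        _ ≤ _ := Finset.prod_le_prod (fun i _ => (Real.exp_pos _).le) fun i _ => h i
    · exact le_of_tendsto' ht fun n => Finset.prod_le_one (fun i _ => hf0 i) fun i _ => h1 i
  · rw [tprod_eq_one_of_not_multipliable hf]
    exact ⟨zero_lt_one, le_rfl⟩

theorem cb_inv {a : ℕ → ℝ} (ha : Summable a) (h0 : ∀ i, 0 ≤ a i) :
    CB (∏' i, (1 + a i)⁻¹) := by
  refine cb_tprod ha (fun i => ?_) fun i => inv_le_one_of_one_le₀ (by linarith [h0 i])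
  rw [Real.exp_neg]
  have h1 := h0 i
  have h2 := Real.add_one_le_exp (a i)
  exact inv_anti₀ (by linarith) (by linarith)

theorem cb_sub {a : ℕ → ℝ} (ha : Summable a) (h0 : ∀ i, 0 ≤ a i) (h1 : ∀ i, a i ≤ 1 / 2) :
    CB (∏' i, (1 - a i)) := by
  refine cb_tprod (ha.mul_left 2) (fun i => ?_) fun i => by linarith [h0 i]
  rw [Real.exp_neg]
  have h2 := h0 i
  have h3 := h1 i
  have h4 := Real.add_one_le_exp (2 * a i)
  have h5 : (2 * a i + 1)⁻¹ ≤ 1 - a i := by
    rw [inv_le_comm₀ (by linarith) (by linarith), inv_le_iff_one_le_mul₀ (by linarith)]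
    nlinarith
  exact (inv_anti₀ (by linarith) h4).trans h5

theorem summable_two {k r : ℕ} (hk : 0 < k) : Summable fun i : ℕ => 1 / (2 : ℝ) ^ (k * i + r) := by
  have h1 : Summable fun i : ℕ => (1 / (2 : ℝ) ^ r) * (1 / 2 ^ k) ^ i := by
    refine (summable_geometric_of_lt_one (by positivity) ?_).mul_left _
    rw [div_lt_one (by positivity)]
    exact one_lt_pow₀ one_lt_two hk.ne'
  refine h1.congr fun i => ?_
  rw [pow_add, pow_mul, one_div_pow, one_div_mul_one_div, mul_comm]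

open Classical in
/-- the constant is between `0` and `1` -/
theorem cb_two {c : ℝ} {P Q R : Prop}
    (hc : c = if P then (if Q then
        √((∏' i : ℕ, (1 + 1 / (2 : ℝ) ^ (2 * i + 1))⁻¹) / 2) else
        ∏' i : ℕ, (1 + 1 / (2 : ℝ) ^ (2 * i + 1))⁻¹) else
      if R then ∏' i : ℕ, (1 - 1 / (2 : ℝ) ^ (i + 1)) else
      ∏' i : ℕ, (1 + 1 / (2 : ℝ) ^ (i + 1))⁻¹) : CB c := by
  have hA : CB (∏' i : ℕ, (1 + 1 / (2 : ℝ) ^ (2 * i + 1))⁻¹) :=
    cb_inv (summable_two two_pos) fun i => by positivity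
  have hs : Summable fun i : ℕ => 1 / (2 : ℝ) ^ (i + 1) := by
    have := summable_two (k := 1) (r := 1) one_pos
    simpa only [one_mul] using this
  rw [hc]
  split_ifs
  · constructor
    · exact Real.sqrt_pos.2 (by linarith [hA.1])
    · rw [Real.sqrt_le_one]
      linarith [hA.2]
  · exact hA
  · refine cb_sub hs (fun i => by positivity) fun i => ?_
    rw [div_le_div_iff₀ (by positivity) two_pos, one_mul, one_mul, pow_succ]
    have : (1 : ℝ) ≤ 2 ^ i := one_le_pow₀ one_le_two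
    linarith
  · exact cb_inv hs fun i => by positivity

theorem cb_three : CB (∏' i : ℕ, (1 + 1 / (3 : ℝ) ^ (i + 1))⁻¹) := by
  refine cb_inv ?_ fun i => by positivity
  have h1 : Summable fun i : ℕ => (1 / (3 : ℝ)) * (1 / 3) ^ i :=
    (summable_geometric_of_lt_one (by positivity) (by norm_num)).mul_left _
  refine h1.congr fun i => ?_
  rw [pow_succ, one_div_pow, one_div_mul_one_div, mul_comm]

end Pool.Agent.Lib.MP_1a91b9_ntZ
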