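import Pool.Agent.Lib.MP_1a91b9_ntZ.Bin

/-!
# MP_1a91b9_nt (the binomial law): one hundred percent

The probability of at least `t` successes in `n` independent trials tends to `1` for `n → ∞`; so for an
infinite set of multipliers the proportion of the `d` with at least `t` good multiples tends to `1`.
-/

set_option autoImplicit false

namespace Pool.Agent.Lib.MP_1a91b9_ntZ

open Finset Filter Topology

theorem bn_eq {n t : ℕ} (h : t ≤ n) (g : ℝ) :
    bn n t g = 1 - ∑ j ∈ range t, (n.choose j : ℝ) * g ^ j * (1 - g) ^ (n - j) := by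
  have h1 : ∑ j ∈ range (n + 1), (n.choose j : ℝ) * g ^ j * (1 - g) ^ (n - j) = 1 := by
    have h2 := add_pow g (1 - g) n
    rw [add_sub_cancel, one_pow] at h2
    refine Eq.trans (sum_congr rfl fun j _ => ?_) h2.symm
    ring
  have h3 : range (n + 1) = range t ∪ Finset.Icc t n := by
    ext j
    simp only [mem_range, mem_union, mem_Icc]
    omega
  have h4 : Disjoint (range t) (Finset.Icc t n) := by
    rw [disjoint_left]
    intro j hj hj'
    rw [mem_range] at hj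
    rw [mem_Icc] at hj'
    omega
  rw [h3, sum_union h4] at h1
  unfold bn
  linarith

theorem term_tendsto {g : ℝ} (h0 : 0 < g) (h1 : g ≤ 1) (j : ℕ) :
    Tendsto (fun n : ℕ => (n.choose j : ℝ) * g ^ j * (1 - g) ^ (n - j)) atTop (𝓝 0) := by
  rw [← tendsto_add_atTop_iff_nat j]
  have hr : |1 - g| < 1 := by
    rw [abs_lt]
    constructor <;> linarith
  have h2 : Tendsto (fun n : ℕ => 2 ^ j * ((n : ℝ) ^ j * (1 - g) ^ n)) atTop (𝓝 0) := by
    have h3 := (tendsto_pow_const_mul_const_pow_of_abs_lt_one j hr).const_mul ((2 : ℝ) ^ j)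
    rwa [mul_zero] at h3
  refine squeeze_zero' (Eventually.of_forall fun n => ?_) ?_ h2
  · have : 0 ≤ 1 - g := by linarith
    positivity
  · filter_upwards [eventually_ge_atTop j] with n hn
    rw [Nat.add_sub_cancel]
    have h4 : ((n + j).choose j : ℝ) ≤ (2 * n : ℝ) ^ j := by
      have h5 : (n + j).choose j ≤ (n + j) ^ j := Nat.choose_le_pow (n + j) j
      have h6 : (n + j) ^ j ≤ (2 * n) ^ j := Nat.pow_le_pow_left (by omega) j
      exact_mod_cast h5.trans h6
    have h7 : g ^ j ≤ 1 := pow_le_one₀ h0.le h1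
    have h8 : 0 ≤ (1 - g) ^ n := pow_nonneg (by linarith) n
    calc ((n + j).choose j : ℝ) * g ^ j * (1 - g) ^ n
        ≤ (2 * n : ℝ) ^ j * 1 * (1 - g) ^ n := by
          refine mul_le_mul_of_nonneg_right (mul_le_mul h4 h7 (by positivity) (by positivity)) h8
      _ = 2 ^ j * ((n : ℝ) ^ j * (1 - g) ^ n) := by
          rw [mul_pow]
          ring

/-- **At least `t` successes are almost certain.** -/
theorem bn_tendsto {g : ℝ} (h0 : 0 < g) (h1 : g ≤ 1) (t : ℕ) :
    Tendsto (fun n : ℕ => bn n t g) atTop (𝓝 1) := by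
  have h2 : Tendsto (fun n : ℕ => 1 - ∑ j ∈ range t, (n.choose j : ℝ) * g ^ j *
      (1 - g) ^ (n - j)) atTop (𝓝 (1 - ∑ _j ∈ range t, (0 : ℝ))) :=
    tendsto_const_nhds.sub (tendsto_finsetSum _ fun j _ => term_tendsto h0 h1 j)
  rw [sum_const_zero, sub_zero] at h2
  refine h2.congr' ?_
  filter_upwards [eventually_ge_atTop t] with n hn
  exact (bn_eq hn g).symm

/-- **The limit.** -/
theorem lim_one {α : Type} {A B : α → Prop} {C : ℝ → α → Prop} {P : α → Prop}
    {Pn : ℕ → α → Prop} (h : ∀ n d, Pn n d → P d) {κ : ℕ → ℝ} (hκ : Tendsto κ atTop (𝓝 1))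
    (hn : ∀ n, ∀ ε : ℝ, 0 < ε → ∀ᶠ X : ℝ in atTop, κ n - ε ≤
      (Nat.card {d : α // A d ∧ B d ∧ C X d ∧ Pn n d} : ℝ) /
        (Nat.card {d : α // A d ∧ B d ∧ C X d} : ℝ)) :
    Tendsto (fun X : ℝ => (Nat.card {d : α // A d ∧ B d ∧ C X d ∧ P d} : ℝ) /
      (Nat.card {d : α // A d ∧ B d ∧ C X d} : ℝ)) atTop (𝓝 1) := by
  rw [Metric.tendsto_atTop']
  intro ε hε
  obtain ⟨η, hη⟩ : ∃ η : ℝ, η = min ε 1 / 2 := ⟨_, rfl⟩
  have hη0 : 0 < η := by
    rw [hη]
    positivity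
  have hη1 : η ≤ 1 / 2 := by
    rw [hη]
    linarith [min_le_right ε 1]
  have hη2 : 2 * η ≤ ε := by
    rw [hη]
    linarith [min_le_left ε 1]
  obtain ⟨n, h1⟩ := (hκ.eventually (lt_mem_nhds (show 1 - η / 2 < 1 by linarith))).exists
  obtain ⟨X0, hX0⟩ := eventually_atTop.1 (hn n (η / 2) (by linarith))
  refine ⟨X0, fun X hX => ?_⟩
  have h2 := hX0 X hX.le
  have h3 : (1 / 2 : ℝ) ≤ (Nat.card {d : α // A d ∧ B d ∧ C X d ∧ Pn n d} : ℝ) /
      (Nat.card {d : α // A d ∧ B d ∧ C X d} : ℝ) := by linarith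
  have h4 : Nat.card {d : α // A d ∧ B d ∧ C X d} ≠ 0 := by
    intro h5
    rw [h5, Nat.cast_zero, div_zero] at h3
    norm_num at h3
  have hfin : Finite {d : α // A d ∧ B d ∧ C X d} := (Nat.card_ne_zero.1 h4).2
  have hpos : (0 : ℝ) < (Nat.card {d : α // A d ∧ B d ∧ C X d} : ℝ) :=
    Nat.cast_pos.2 (Nat.pos_of_ne_zero h4)
  have hfin' : Finite {d : α // A d ∧ B d ∧ C X d ∧ P d} :=
    Finite.of_injective (fun d => (⟨d.1, d.2.1, d.2.2.1, d.2.2.2.1⟩ :
      {d : α // A d ∧ B d ∧ C X d})) fun d d' hd => by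
        have := congrArg Subtype.val hd
        exact Subtype.ext this
  have h6 : (Nat.card {d : α // A d ∧ B d ∧ C X d ∧ Pn n d} : ℝ) ≤
      (Nat.card {d : α // A d ∧ B d ∧ C X d ∧ P d} : ℝ) := by
    rw [Nat.cast_le]
    exact Nat.card_le_card_of_injective (fun d => (⟨d.1, d.2.1, d.2.2.1, d.2.2.2.1,
      h n _ d.2.2.2.2⟩ : {d : α // A d ∧ B d ∧ C X d ∧ P d})) fun d d' hd => by
        have := congrArg Subtype.val hd
        exact Subtype.ext this
  have h7 : (Nat.card {d : α // A d ∧ B d ∧ C X d ∧ P d} : ℝ) ≤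
      (Nat.card {d : α // A d ∧ B d ∧ C X d} : ℝ) := by
    rw [Nat.cast_le]
    exact Nat.card_le_card_of_injective (fun d => (⟨d.1, d.2.1, d.2.2.1, d.2.2.2.1⟩ :
      {d : α // A d ∧ B d ∧ C X d})) fun d d' hd => by
        have := congrArg Subtype.val hd
        exact Subtype.ext this
  have h8 := div_le_div_of_nonneg_right h6 hpos.le
  have h9 := div_le_one_of_le₀ h7 hpos.le
  rw [Real.dist_eq, abs_lt]
  constructor <;> linarith

open Classical in
/-- **One hundred percent.** If the binomial law holds for all the finite subsets of the infinite set `Δ`,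
then for every `t` the proportion of the `d` for which at least `t` of the elements of `Δ` are good tends
to `1`. -/
theorem hundred {α β : Type} {A B : α → Prop} {C : ℝ → α → Prop} {Q : β → α → Prop} {g : ℝ}
    (h0 : 0 < g) (h1 : g ≤ 1) {Δ : Set β} (hΔ : Δ.Infinite) (t : ℕ)
    (h : ∀ T : Finset β, (T : Set β) ⊆ Δ → ∀ ε : ℝ, 0 < ε → ∀ᶠ X : ℝ in atTop,
      bn T.card t g - ε ≤
      (Nat.card {d : α // A d ∧ B d ∧ C X d ∧ t ≤ (T.filter fun δ => Q δ d).card} : ℝ) /
        (Nat.card {d : α // A d ∧ B d ∧ C X d} : ℝ)) :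
    Tendsto (fun X : ℝ => (Nat.card {d : α // A d ∧ B d ∧ C X d ∧
      ∃ T : Finset β, (T : Set β) ⊆ Δ ∧ T.card = t ∧ ∀ δ ∈ T, Q δ d} : ℝ) /
      (Nat.card {d : α // A d ∧ B d ∧ C X d} : ℝ)) atTop (𝓝 1) := by
  choose T hT hc using fun n => hΔ.exists_subset_card_eq n
  refine lim_one (Pn := fun n d => t ≤ ((T n).filter fun δ => Q δ d).card) (fun n d hd => ?_)
    (bn_tendsto h0 h1 t) fun n ε hε => ?_
  · obtain ⟨S, hS, hS'⟩ := Finset.exists_subset_card_eq hd
    refine ⟨S, fun δ hδ => hT n (mem_coe.2 (mem_filter.1 (hS hδ)).1), hS', fun δ hδ =>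
      (mem_filter.1 (hS hδ)).2⟩
  · have h2 := h (T n) (hT n) ε hε
    rw [hc n] at h2
    exact h2

end Pool.Agent.Lib.MP_1a91b9_ntZ
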