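import Pool.Agent.Lib.MP_1a91b9_ntZ.Bin
import Pool.Agent.Lib.MP_1a91b9_ntW.J.TwK

/-!
# MP_1a91b9_nt (the binomial law): the statements of the rank part over `F`

`SepF K F E δ`: the `δ i` are different from zero, and `e δ i δ j` is not a square in `F` for `i ≠ j` and
`e` in `E`. `BQG`: the binomial law for the twists of `y² = x³ + a x² + b x` over all the extensions
generated by `l`-th roots.
-/

set_option autoImplicit false

namespace Pool.Agent.Lib.MP_1a91b9_ntZ

open NumberField WeierstrassCurve
open Pool.Agent.Lib.MP_1a91b9_ntW.J (RkZ PropGE twd)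

/-- The `δ i` are independent modulo the squares of `F` and the elements of `E`. -/
def SepF (K F : Type) [Field K] [Field F] [Algebra K F] (E : Set K) {k : ℕ} (δ : Fin k → K) : Prop :=
  (∀ i, δ i ≠ 0) ∧ ∀ i j, i ≠ j → ∀ e ∈ E, ¬ ∃ x : F, x ^ 2 = algebraMap K F (e * (δ i * δ j))

/-- The binomial law over `F` for the curve `W`. -/
def BQF {K : Type} [Field K] [NumberField K] (F : Type) [Field F] [NumberField F] [Algebra K F]
    (m u : 𝓞 K) {k : ℕ} (δ : Fin k → K) (t : ℕ) (c : ℝ) (W : WeierstrassCurve K) : Prop :=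
  PropGE K m u (fun d => Atl t fun i => RkZ ((twd W (δ i * d)).map (algebraMap K F)))
    (bn k t (c ^ Module.finrank K F))

/-- The binomial law over the extensions generated by `l`-th roots, `H` is the condition on the classes. -/
def BQG (K : Type) [Field K] [NumberField K] (l : ℕ)
    (H : (F : Type) → [Field F] → 𝓞 K → 𝓞 K → Prop) (E : Set K) (a b : K) (c : ℝ) : Prop :=
  ∀ (F : Type) [Field F] [NumberField F] [Algebra K F],
    IntermediateField.adjoin K {x : F | ∃ c : K, x ^ l = algebraMap K F c} = ⊤ →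
    ∀ m u : 𝓞 K, H F m u → ∀ (k : ℕ) (δ : Fin k → K), SepF K F E δ → ∀ t : ℕ,
    PropGE K m u (fun d => Atl t fun i => RkZ (⟨0, algebraMap K F (δ i * d * a), 0,
      algebraMap K F ((δ i * d) ^ 2 * b), 0⟩ : WeierstrassCurve F))
      (bn k t (c ^ Module.finrank K F))

end Pool.Agent.Lib.MP_1a91b9_ntZ
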