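import Pool.Agent.Lib.MP_1a91b9_ntZ.D3Den
import Pool.Agent.Lib.MP_1a91b9_ntZ.Forms
import Pool.Agent.Lib.MP_1a91b9_ntN.G.FinG

/-!
# MP_1a91b9_nt (the binomial law), `Q(sqrt -3)`, over the multiquadratic extensions
-/

set_option autoImplicit false

namespace Pool.Agent.Lib.MP_1a91b9_ntZ.D3

open NumberField Finset WeierstrassCurve Pool.Agent.Lib.MP_1a91b9_ntT Pool.Agent.Lib.MP_1a91b9_ntH
  Pool.Agent.Lib.MP_1a91b9_ntH2
open Pool.Agent.Lib.MP_1a91b9_ntN (K3)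
open Pool.Agent.Lib.MP_1a91b9_ntP (GdE dich3 qG_OK offG)
open Pool.Agent.Lib.MP_1a91b9_ntN.G
open Pool.Agent.Lib.MP_1a91b9_ntW.J (RkZ PropGE Cls2 ClsN)
open Pool.Agent.Lib.MP_1a91b9_ntS.G (mod3 Q3_ne)
open Pool.Agent.Lib.MP_1a91b9_ntR (GR finite_GR)
open Pool.Agent.Lib.MP_1a91b9_ntZ

noncomputable section

/-- Different blocks are different modulo squares and the sign. -/
theorem cross {F : Type} [Field F] [NumberField F] [Algebra K3 F] {A : List (𝓞 K3)}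
    (hA : MQT K3 F A) {e : K3} (he : e ≠ 0) {k : ℕ} {δ : Fin k → K3}
    (hδ : SepF K3 F {1, -1} δ) {D ν : Fin k → 𝓞 K3} (hν : ∀ i, ν i ≠ 0)
    (hD : ∀ i, (D i : K3) = δ i * e * (ν i : K3) ^ 2) {i i' : Fin k} (hi : i ≠ i')
    {a b : 𝓞 K3} (ha : a ∈ A) (hb : b ∈ A) {s : K3} (hs : s ∈ ({1, -1} : Set K3)) {y : K3}
    (hy : y ^ 2 = s * (((D i * a : 𝓞 K3) : K3) * ((D i' * b : 𝓞 K3) : K3))) : False := by
  obtain ⟨x1, hx1⟩ := hA.ok.sq a ha
  obtain ⟨x2, hx2⟩ := hA.ok.sq b hb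
  have ha0 : algebraMap K3 F (a : K3) ≠ 0 := (_root_.map_ne_zero _).2 (by
    exact_mod_cast hA.ok.ne a ha)
  have hb0 : algebraMap K3 F (b : K3) ≠ 0 := (_root_.map_ne_zero _).2 (by
    exact_mod_cast hA.ok.ne b hb)
  have h1 : (ν i : K3) ≠ 0 := by exact_mod_cast hν i
  have h2 : (ν i' : K3) ≠ 0 := by exact_mod_cast hν i'
  have h3 : e * (ν i : K3) * (ν i' : K3) ≠ 0 := mul_ne_zero (mul_ne_zero he h1) h2
  have h4 : algebraMap K3 F (e * (ν i : K3) * (ν i' : K3)) ≠ 0 := (_root_.map_ne_zero _).2 h3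
  have e1 : ((D i * a : 𝓞 K3) : K3) = δ i * e * (ν i : K3) ^ 2 * a := by
    rw [← hD i]
    push_cast
    rfl
  have e2 : ((D i' * b : 𝓞 K3) : K3) = δ i' * e * (ν i' : K3) ^ 2 * b := by
    rw [← hD i']
    push_cast
    rfl
  have e3 : y ^ 2 = s * (δ i * δ i') * ((a : K3) * b) * (e * (ν i : K3) * (ν i' : K3)) ^ 2 := by
    rw [hy, e1, e2]
    ring
  refine hδ.2 i i' hi s hs ⟨algebraMap K3 F y / (x1 * x2 * algebraMap K3 F
    (e * (ν i : K3) * (ν i' : K3))), ?_⟩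
  rw [div_pow, mul_pow, mul_pow, hx1, hx2, ← map_pow, e3, map_mul, map_mul, map_mul (algebraMap K3 F)
    (a : K3), map_pow]
  field_simp

/-- The elements of the blocks. -/
theorem exists_D {e : K3} (he : e ≠ 0) {k : ℕ} {δ : Fin k → K3} (hδ : ∀ i, δ i ≠ 0) :
    ∃ (D ν : Fin k → 𝓞 K3), (∀ i, ν i ≠ 0) ∧ (∀ i, (D i : K3) = δ i * e * (ν i : K3) ^ 2) ∧
      ∀ i, D i ≠ 0 := by
  choose D ν hν hD using fun i => exists_sq_mul3 (δ i * e)
  refine ⟨D, ν, hν, hD, fun i h0 => ?_⟩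
  have h1 : (D i : K3) ≠ 0 := by
    rw [hD i]
    exact mul_ne_zero (mul_ne_zero (hδ i) he) (pow_ne_zero 2 (by exact_mod_cast hν i))
  exact h1 (by rw [h0]; rfl)

/-- The rank part for one block. -/
theorem rkB {F : Type} [Field F] [NumberField F] [Algebra K3 F] {A : List (𝓞 K3)}
    (hA : MQT K3 F A) {e : K3} {k : ℕ} {δ : Fin k → K3} {D ν : Fin k → 𝓞 K3}
    (hν : ∀ i, ν i ≠ 0) (hD : ∀ i, (D i : K3) = δ i * e * (ν i : K3) ^ 2) (hD0 : ∀ i, D i ≠ 0)
    {d : 𝓞 K3} (hd : d ≠ 0) {i : Fin k}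
    (h : ∀ n : Fin A.length, ∃ (f : Bool) (c : F4) (S : Finset Pq) (r : 𝓞 K3), r ≠ 0 ∧
      D i * A.get n * d = phE f c S * r ^ 2 ∧ GdE f c S) :
    RkZ (⟨0, algebraMap K3 F (δ i * d * (-3 * e)), 0, algebraMap K3 F ((δ i * d) ^ 2 * (3 * e ^ 2)),
      0⟩ : WeierstrassCurve F) := by
  have h1 := rk3 hA (hν i) (hD0 i) (hD i) hd fun a ha => by
    obtain ⟨x, hx, rfl⟩ := List.mem_map.1 ha
    obtain ⟨n, rfl⟩ := List.mem_iff_get.1 hx
    exact h n
  have e1 : (d : K3) * (-3 * (δ i * e)) = δ i * d * (-3 * e) := by ring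
  have e2 : (d : K3) ^ 2 * (3 * (δ i * e) ^ 2) = (δ i * d) ^ 2 * (3 * e ^ 2) := by ring
  rw [e1, e2] at h1
  exact h1

section

variable {I : Type} [Fintype I] [DecidableEq I] {μ : I → 𝓞 K3} {b : I → Bool} {jj : I → ℕ}
  {cc : I → F4}

/-- **The extensions which do not contain `i`.** -/
theorem prop3B1 (H : Fm3 μ b jj cc) (hJ : ∀ n, DSJB (cl3 n)) {e : K3}
    (he : e ≠ 0) (F : Type) [Field F] [NumberField F] [Algebra K3 F]
    (hF : IntermediateField.adjoin K3 {x : F | ∃ c : K3, x ^ 2 = algebraMap K3 F c} = ⊤)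
    (hi : ¬ ∃ x : F, x ^ 2 = -1) {m u : 𝓞 K3} (hmu : Cls2 K3 m u) {k : ℕ} {δ : Fin k → K3}
    (hδ : SepF K3 F {1, -1} δ) (t : ℕ) :
    PropGE K3 m u (fun d => Atl t fun i => RkZ (⟨0, algebraMap K3 F (δ i * d * (-3 * e)), 0,
      algebraMap K3 F ((δ i * d) ^ 2 * (3 * e ^ 2)), 0⟩ : WeierstrassCurve F))
      (bn k t (Da.cinf ^ Module.finrank K3 F)) := by
  intro ε hε
  obtain ⟨A, hA⟩ := MQT.exists_of hF
  obtain ⟨D, ν, hν, hD, hD0⟩ := exists_D he hδ.1
  obtain ⟨⟨n, hm⟩, hu'⟩ := hmu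
  rw [← hA.ok.len]
  have hpw : ∀ (n n' : Fin A.length), n ≠ n' →
      ¬ ∃ y : K3, y ^ 2 = ((A.get n : 𝓞 K3) : K3) * ((A.get n' : 𝓞 K3) : K3) ∨
        y ^ 2 = -(((A.get n : 𝓞 K3) : K3) * ((A.get n' : 𝓞 K3) : K3)) := by
    intro n n' hnn
    have h1 := List.pairwise_iff_get.1 (hA.pw_neg hi)
    rcases lt_or_gt_of_ne hnn with h2 | h2
    · exact h1 n n' h2
    · rw [mul_comm]
      exact h1 n' n h2
  refine den_G1B H hJ (List.length_pos_iff.2 hA.ne_nil) (a := fun i n => D i * A.get n)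
    (fun i n => mul_ne_zero (hD0 i) (hA.ok.ne _ (List.get_mem A n))) ?_ hm (not_four hu') t _
    (fun d hd h => h.mono fun i hi => rkB hA hν hD hD0 hd.ne_zero hi) ε hε
  rintro i n i' n' hii ⟨y, hy⟩
  by_cases h : i = i'
  · subst h
    have hnn : n ≠ n' := fun h0 => hii (by rw [h0])
    have hδK : (D i : K3) ≠ 0 := by exact_mod_cast hD0 i
    have e1 : ((D i * A.get n : 𝓞 K3) : K3) * ((D i * A.get n' : 𝓞 K3) : K3) =
        (D i : K3) ^ 2 * (((A.get n : 𝓞 K3) : K3) * ((A.get n' : 𝓞 K3) : K3)) := by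
      push_cast
      ring
    rw [e1] at hy
    rcases hy with hy | hy
    · refine hpw n n' hnn ⟨y / (D i : K3), Or.inl ?_⟩
      rw [div_pow, hy]
      field_simp
    · refine hpw n n' hnn ⟨y / (D i : K3), Or.inr ?_⟩
      rw [div_pow, hy]
      field_simp
  · rcases hy with hy | hy
    · exact cross hA he hδ hν hD h (List.get_mem A n) (List.get_mem A n') (s := 1) (by simp)
        (hy.trans (one_mul _).symm)
    · exact cross hA he hδ hν hD h (List.get_mem A n) (List.get_mem A n') (s := -1) (by simp)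
        (hy.trans (neg_one_mul _).symm)

/-- **All the extensions generated by square roots, all the classes.** -/
theorem bqg3_of (H : Fm3 μ b jj cc) (hJ : ∀ n, DSJB (cl3 n))
    (hP : ∀ n, DSPB (cl3 n)) {e : K3} (he : e ≠ 0) :
    BQG K3 2 (fun _ _ => Cls2 K3) {1, -1} (-3 * e) (3 * e ^ 2) cS3 := by
  intro F _ _ _ hF m u hmu k δ hδ t
  by_cases hi : ∃ x : F, x ^ 2 = -1
  · intro ε hε
    obtain ⟨A, hA⟩ := MQT.exists_of hF
    obtain ⟨D, ν, hν, hD, hD0⟩ := exists_D he hδ.1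
    obtain ⟨⟨n, hm⟩, hu'⟩ := hmu
    rw [← hA.ok.len]
    refine den_G2B H hP (List.length_pos_iff.2 hA.ne_nil) (a := fun i n => D i * A.get n)
      (fun i n => mul_ne_zero (hD0 i) (hA.ok.ne _ (List.get_mem A n))) ?_ (fun i n => ?_) hm
      (not_four hu') t _ (fun d hd h => h.mono fun i hi => rkB hA hν hD hD0 hd.ne_zero hi) ε hε
    · rintro i n i' n' hii ⟨y, hy⟩
      by_cases h : i = i'
      · subst h
        have hnn : n ≠ n' := fun h0 => hii (by rw [h0])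
        have hδK : (D i : K3) ≠ 0 := by exact_mod_cast hD0 i
        have e1 : ((D i * A.get n : 𝓞 K3) : K3) * ((D i * A.get n' : 𝓞 K3) : K3) =
            (D i : K3) ^ 2 * (((A.get n : 𝓞 K3) : K3) * ((A.get n' : 𝓞 K3) : K3)) := by
          push_cast
          ring
        have h2 : (y / (D i : K3)) ^ 2 = ((A.get n : 𝓞 K3) : K3) * ((A.get n' : 𝓞 K3) : K3) := by
          rw [div_pow, hy, e1]
          field_simp
        have h1 := List.pairwise_iff_get.1 hA.ok.pw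
        rcases lt_or_gt_of_ne hnn with h3 | h3
        · exact h1 n n' h3 ⟨_, h2⟩
        · exact h1 n' n h3 ⟨_, h2.trans (mul_comm _ _)⟩
      · exact cross hA he hδ hν hD h (List.get_mem A n) (List.get_mem A n') (s := 1) (by simp)
          (hy.trans (one_mul _).symm)
    · obtain ⟨y, hy, z, hz, h1⟩ := hA.neg_cl hi (A.get n) (List.get_mem A n)
      obtain ⟨n', rfl⟩ := List.mem_iff_get.1 hy
      refine ⟨n', z, hz, ?_⟩
      have e1 : ((D i * A.get n : 𝓞 K3) : K3) = (D i : K3) * ((A.get n : 𝓞 K3) : K3) := by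
        push_cast
        rfl
      have e2 : ((D i * A.get n' : 𝓞 K3) : K3) = (D i : K3) * ((A.get n' : 𝓞 K3) : K3) := by
        push_cast
        rfl
      rw [e1, e2]
      linear_combination (D i : K3) * h1
  · intro ε hε
    filter_upwards [prop3B1 H hJ he F hF hi hmu hδ t ε hε] with X hX
    refine le_trans ?_ hX
    have h1 : cS3 ^ Module.finrank K3 F ≤ Da.cinf ^ Module.finrank K3 F :=
      pow_le_pow_left₀ (Real.sqrt_nonneg _) cS3_le _
    have h2 : bn k t (cS3 ^ Module.finrank K3 F) ≤ bn k t (Da.cinf ^ Module.finrank K3 F) := by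
      have h3 := bts_mono (univ : Finset (Fin k)) t (x := fun _ => cS3 ^ Module.finrank K3 F)
        (y := fun _ => Da.cinf ^ Module.finrank K3 F)
        (fun _ _ => pow_nonneg (Real.sqrt_nonneg _) _) (fun _ _ => h1)
        (fun _ _ => pow_le_one₀ cinf_pos.le (cinf_le.trans (by norm_num)))
      rw [bts_const, bts_const, card_univ, Fintype.card_fin] at h3
      exact h3
    linarith

end

/-! ### The classes modulo the powers of `2` -/

theorem dsj3B (n : ℕ) : DSJB (cl3 n) := by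
  have h1 : Finite (GR (mod3 n)) := finite_GR (mod3 n) (Q3_ne n)
  have h2 : Fintype (GR (mod3 n)) := Fintype.ofFinite _
  exact dsjB (fun B => MP_1a91b9_ntP.vanP (qG_OK B)) fun B ψ => dich3 n B ψ

theorem dsp3B (n : ℕ) : DSPB (cl3 n) := by
  have h1 : Finite (GR (mod3 n)) := finite_GR (mod3 n) (Q3_ne n)
  have h2 : Fintype (GR (mod3 n)) := Fintype.ofFinite _
  exact dspB (fun B => MP_1a91b9_ntP.vanP (qG_OK B)) fun B ψ => dich3 n B ψ

/-- **The binomial law over all the extensions of `Q(sqrt -3)` generated by square roots, all the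
classes.** -/
theorem bqg3a {e : K3} (he : e ≠ 0) :
    BQG K3 2 (fun _ _ => Cls2 K3) {1, -1} (-3 * e) (3 * e ^ 2)
      (√((∏' i : ℕ, (1 + 1 / (2 : ℝ) ^ (2 * i + 1))⁻¹) / 2)) := by
  rw [← cinf_prod]
  exact bqg3_of fm3 dsj3B dsp3B he

/-- **The binomial law over the extensions which do not contain `i`.** -/
theorem bqg3b {e : K3} (he : e ≠ 0) :
    BQG K3 2 (fun F _ => ClsN K3 F) {1, -1} (-3 * e) (3 * e ^ 2)
      (∏' i : ℕ, (1 + 1 / (2 : ℝ) ^ (2 * i + 1))⁻¹) := by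
  intro F _ _ _ hF m u hmu k δ hδ t
  rw [← cinf_prod]
  exact prop3B1 fm3 dsj3B he F hF hmu.2 hmu.1 hδ t

end

end Pool.Agent.Lib.MP_1a91b9_ntZ.D3
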