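import Pool.Agent.Lib.MP_1a91b9_ntZ.J4Cls

/-!
# MP_1a91b9_nt (the binomial law), `ℚ(i)`: the squarefree `d` for which at least `t` of the blocks are good
-/

set_option autoImplicit false
set_option linter.unusedSectionVars false

namespace Pool.Agent.Lib.MP_1a91b9_ntZ.J4

open NumberField Finset Pool.Agent.Lib.MP_1a91b9_ntQ Pool.Agent.Lib.MP_1a91b9_ntM
  Pool.Agent.Lib.MP_1a91b9_ntM.E Pool.Agent.Lib.MP_1a91b9_ntM.E.RX Pool.Agent.Lib.MP_1a91b9_ntZ
open Den4 (ph)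

noncomputable section

/-- **The density of the squarefree `d` for which at least `t` of the blocks are good.** -/
theorem den_allXB {A : Type} [Fintype A] [DecidableEq A] {I : Type} [Fintype I] [DecidableEq I]
    (bl : A → I) (a : A → 𝓞 K4) (f : A → Bool)
    (h0 : ∀ i, a i ≠ 0) (hf : ∀ i, f i = true → ¬ ∃ y : K4, y ^ 2 = (a i : K4))
    (hpw : ∀ i i', i ≠ i' → (¬ ∃ y : K4, y ^ 4 * a i = a i') ∧
      ¬ ∃ y : K4, y ^ 4 = (a i : K4) * a i')
    (t : ℕ) {v : ℝ} (hv0 : 0 ≤ v)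
    (hv : ∀ b, v ≤ ∏ a ∈ univ.filter (fun a => bl a = b),
      (if f a = true then Da.cinf2 / 2 else Da.cinf2))
    {n : ℕ} {M u : 𝓞 K4} (hM : M ∣ 2 ^ n) (hu : ¬ ((2 : 𝓞 K4) ∣ M ∧ (2 : 𝓞 K4) ∣ u))
    (Pr : I → 𝓞 K4 → Prop)
    (hPr : ∀ d : 𝓞 K4, Squarefree d → ∀ b, (∀ i, bl i = b → ∃ (z : DD8) (t : 𝓞 K4), t ≠ 0 ∧
      Dj z.S z.T z.B ∧ a i * d ^ 2 = z.el * t ^ 4 ∧ GdX z ∅ ∧ (f i = true → GdX z.inv ∅)) →
      Pr b d)
    (ε : ℝ) (hε : 0 < ε) :
    ∀ᶠ X : ℝ in Filter.atTop, bn (Fintype.card I) t v - ε ≤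
      (Nat.card {x : 𝓞 K4 // Squarefree x ∧ M ∣ x - u ∧ |Algebra.norm ℤ x| ≤ X ∧
        Atl t fun b => Pr b x} : ℝ) /
        (Nat.card {x : 𝓞 K4 // Squarefree x ∧ M ∣ x - u ∧ |Algebra.norm ℤ x| ≤ X} : ℝ) := by
  have h1 : ∀ i, ∃ (x : DD8) (s : 𝓞 K4), Dj x.S x.T x.B ∧ s ≠ 0 ∧ a i = x.el * s ^ 4 :=
    fun i => exists_DD8 (h0 i)
  choose x s hx hs hxs using h1
  obtain ⟨P, hP⟩ : ∃ P : Finset Pg, P = univ.biUnion fun i => (x i).S ∪ (x i).T ∪ (x i).B :=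
    ⟨_, rfl⟩
  have hxP : ∀ i, (x i).S ∪ (x i).T ∪ (x i).B ⊆ P := fun i => by
    rw [hP]
    exact subset_biUnion_of_mem (fun i => (x i).S ∪ (x i).T ∪ (x i).B) (mem_univ i)
  have hSP : ∀ i, (x i).S ⊆ P := fun i =>
    (subset_union_left.trans subset_union_left).trans (hxP i)
  have hTP : ∀ i, (x i).T ⊆ P := fun i =>
    (subset_union_right.trans subset_union_left).trans (hxP i)
  have hBP : ∀ i, (x i).B ⊆ P := fun i => subset_union_right.trans (hxP i)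
  obtain ⟨u', hu', hMu⟩ := Q5.exists_rep hu
  have hc0 : (0 : ℝ) < ε / 2 := by linarith
  obtain ⟨c, hc⟩ : ∃ c : ℝ, c = bn (Fintype.card I) t v := ⟨_, rfl⟩
  rw [← hc]
  obtain ⟨Z, hZ⟩ : ∃ Z : ZMod 4 → Fin 2 → Finset Pg → A → DD8, Z = fun k j Y i =>
      (x i).mul k j Y := ⟨_, rfl⟩
  have hZd : ∀ k j Y i, Dj (Z k j Y i).S (Z k j Y i).T (Z k j Y i).B := fun k j Y i => by
    rw [hZ]
    exact dj_E (hx i) _
  have hZe : ∀ k j Y i, ∃ t : 𝓞 K4, t ≠ 0 ∧
      (x i).el * ph k j (DDq Y) ^ 2 = (Z k j Y i).el * t ^ 4 := fun k j Y i => by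
    rw [hZ]
    exact el_mul (hx i) k j Y
  have hph : ∀ (k : ZMod 4) (j : Fin 2) (Y : Finset Pg), ph k j (DDq Y) ≠ 0 := fun k j Y =>
    (Den4.ph_squarefree k j Y).ne_zero
  have key := density4_cls (2 * n) (hM.trans (Q5.two_pow_dvd n)) hu' (c - ε / 2)
    (c - ε) (by linarith)
    (fun k j Y => Atl t fun b => ∀ i, bl i = b →
      GdX (Z k j Y i) ∅ ∧ (f i = true → GdX (Z k j Y i).inv ∅))
    (fun k j g _ => DS_of_DSB P g fun B' hB' g' =>
      (dsjXB bl (fun i => Z k j B' i) f P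
        (fun i => hZd k j B' i)
        (fun i => by
          rw [hZ]
          exact ⟨sE_sub (hSP i) (hTP i), sE_sub (hTP i) (hSP i), bE_sub (hBP i) hB'⟩)
        (fun i hi h => by
          rw [hZ] at h
          exact hf i hi (Sq_of (hxs i) ((Sq_mul k j B').1 h)))
        (fun i i' hii => by
          obtain ⟨t, ht, e1⟩ := hZe k j B' i
          obtain ⟨t', ht', e1'⟩ := hZe k j B' i'
          refine ⟨fun h => ?_, fun h => ?_⟩
          · have h2 : Z k j B' i = Z k j B' i' := h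
            rw [h2] at e1
            exact (hpw i i' hii).1 (four_of_eq (hph k j B') (hs i) (hxs i) (hxs i') ht e1 e1')
          · have h2 : Z k j B' i = (Z k j B' i').inv := h
            rw [h2] at e1
            obtain ⟨v, _, e2⟩ := RX.el_inv (Z k j B' i')
            exact (hpw i i' hii).2 (four_of_inv (hph k j B') (hxs i) (hxs i') e1 e1' e2))
        t hv0 hv (κ₀ := c - ε / 2) (by rw [← hc]; linarith) (2 * n) g').mono
          fun Y hY _ h2 => h2.mono fun b h2 i hi => by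
          have h3 := h2 i hi
          have e1 : Z k j (B' ∪ Y) i = ⟨(Z k j B' i).k, (Z k j B' i).j, (Z k j B' i).S,
              (Z k j B' i).T, (Z k j B' i).B ∪ Y⟩ := by
            rw [hZ, union_comm B' Y]
            simp only [DD8.mul, DD8.mk.injEq, true_and]
            exact ⟨sE_out (hSP i) (hTP i) hY, sE_out (hTP i) (hSP i) hY,
              bE_out (hSP i) (hTP i) (hBP i) hY⟩
          rw [e1]
          exact ⟨(GdX_add _ _).2 h3.1, fun hi => (GdX_add_inv _ _).2 (h3.2 hi)⟩)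
    (fun d => Atl t fun b => Pr b d) (fun k j Y _ h2 => h2.mono fun b h2 =>
      hPr _ (Den4.ph_squarefree k j Y) b fun i hi => by
      obtain ⟨t, ht, e1⟩ := hZe k j Y i
      refine ⟨Z k j Y i, t * s i, mul_ne_zero ht (hs i), hZd k j Y i, ?_, (h2 i hi).1,
        (h2 i hi).2⟩
      rw [hxs i]
      linear_combination (s i) ^ 4 * e1)
  simp only [Q5.dvd_sub_iff hMu] at key
  exact key

end

end Pool.Agent.Lib.MP_1a91b9_ntZ.J4
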