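import Pool.Agent.Lib.MP_1a91b9_ntW.J.Main4X
import Pool.Agent.Lib.MP_1a91b9_ntZ.J4DenX
import Pool.Agent.Lib.MP_1a91b9_ntZ.Forms

/-!
# MP_1a91b9_nt (the binomial law): the curves `y² = x³ + b x` over the extensions of `ℚ(i)` generated by
fourth roots

`mqgXB`: if `δ i δ j` and `b δ i δ j` are not squares in `F` for `i ≠ j`, then for a proportion at least
`bn k t (c ^ [F : K]) - ε` of the squarefree `d` in a class at least `t` of the `k` curves
`y² = x³ + (δ i d)² b x` have nonvanishing `L`-series and finitely many points over `F`.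
-/

set_option autoImplicit false
set_option linter.unusedSectionVars false

namespace Pool.Agent.Lib.MP_1a91b9_ntZ.J4

open NumberField Finset WeierstrassCurve
open Pool.Agent.Lib.MP_1a91b9_ntM.E Pool.Agent.Lib.MP_1a91b9_ntY Pool.Agent.Lib.MP_1a91b9_ntZ
open Pool.Agent.Lib.MP_1a91b9_ntQ (K4 WD4)
open Pool.Agent.Lib.MP_1a91b9_ntL (crv)
open Pool.Agent.Lib.MP_1a91b9_ntW.J (RkZ PropGE Cls2 cR c4_fourth cls4 exists_fourth_mul4)

noncomputable section

theorem sq_of_fourth {F : Type} [Field F] {i x y : F} (hi : i ^ 2 = -1) (h : x ^ 2 = y ^ 4) :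
    ∃ z, z ^ 2 = x := by
  have h1 : (x - y ^ 2) * (x + y ^ 2) = 0 := by linear_combination h
  rcases mul_eq_zero.1 h1 with h2 | h2
  · exact ⟨y, by linear_combination -h2⟩
  · exact ⟨i * y, by linear_combination y ^ 2 * hi - h2⟩

/-- The elements of different blocks are different modulo fourth powers, also up to inversion. -/
theorem sep4 {F : Type} [Field F] [NumberField F] [Algebra K4 F] {b δ δ' : K4}
    {e e' D D' ν ν' : 𝓞 K4} (hb : b ≠ 0) (hν : ν ≠ 0) (hν' : ν' ≠ 0)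
    (hD : (D : K4) = -(b * δ ^ 2) * (ν : K4) ^ 4) (hD' : (D' : K4) = -(b * δ' ^ 2) * (ν' : K4) ^ 4)
    (he : ∃ y : F, y ^ 4 = algebraMap K4 F e) (he' : ∃ y : F, y ^ 4 = algebraMap K4 F e')
    (he0 : e ≠ 0) (he0' : e' ≠ 0)
    (h1 : ¬ ∃ x : F, x ^ 2 = algebraMap K4 F (1 * (δ * δ')))
    (h2 : ¬ ∃ x : F, x ^ 2 = algebraMap K4 F (b * (δ * δ'))) :
    (¬ ∃ y : K4, y ^ 4 * ((D * e : 𝓞 K4) : K4) = ((D' * e' : 𝓞 K4) : K4)) ∧
      ¬ ∃ y : K4, y ^ 4 = ((D * e : 𝓞 K4) : K4) * ((D' * e' : 𝓞 K4) : K4) := by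
  obtain ⟨η, hη⟩ := he
  obtain ⟨η', hη'⟩ := he'
  obtain ⟨i, hi⟩ := exists_i4
  have hiF : (algebraMap K4 F i) ^ 2 = -1 := by rw [← map_pow, hi, map_neg, map_one]
  have hη0 : η ≠ 0 := by
    rintro rfl
    rw [zero_pow four_ne_zero] at hη
    exact oc_ne he0 ((map_eq_zero _).1 hη.symm)
  have hη0' : η' ≠ 0 := by
    rintro rfl
    rw [zero_pow four_ne_zero] at hη'
    exact oc_ne he0' ((map_eq_zero _).1 hη'.symm)
  have hνF : algebraMap K4 F ν ≠ 0 := (map_ne_zero _).2 (oc_ne hν)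
  have hνF' : algebraMap K4 F ν' ≠ 0 := (map_ne_zero _).2 (oc_ne hν')
  refine ⟨?_, ?_⟩
  · rintro ⟨y, hy⟩
    rw [oc_mul, oc_mul, hD, hD'] at hy
    have e1 : δ ^ 2 * (y * ν) ^ 4 * e = δ' ^ 2 * (ν' : K4) ^ 4 * e' := by
      refine mul_left_cancel₀ (neg_ne_zero.2 hb) ?_
      linear_combination hy
    have e2 := congrArg (algebraMap K4 F) e1
    simp only [map_mul, map_pow] at e2
    rw [← hη, ← hη'] at e2
    apply h1
    rw [one_mul]
    refine sq_of_fourth (y := algebraMap K4 F δ * (algebraMap K4 F y * algebraMap K4 F ν * η) /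
      (algebraMap K4 F ν' * η')) hiF ?_
    rw [div_pow, eq_div_iff (pow_ne_zero 4 (mul_ne_zero hνF' hη0')), map_mul]
    linear_combination -(algebraMap K4 F δ) ^ 2 * e2
  · rintro ⟨y, hy⟩
    rw [oc_mul, oc_mul, hD, hD'] at hy
    have e2 := congrArg (algebraMap K4 F) hy
    simp only [map_mul, map_pow, map_neg] at e2
    rw [← hη, ← hη'] at e2
    apply h2
    refine sq_of_fourth (y := algebraMap K4 F y / (algebraMap K4 F ν * algebraMap K4 F ν' * η * η'))
      hiF ?_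
    rw [div_pow, eq_div_iff (pow_ne_zero 4 (mul_ne_zero (mul_ne_zero (mul_ne_zero hνF hνF') hη0)
      hη0')), map_mul, map_mul]
    linear_combination -e2

theorem prod_blk {k : ℕ} {N : Fin k → ℕ} (g : (Σ i : Fin k, Fin (N i)) → ℝ) (b : Fin k) :
    ∏ a ∈ univ.filter (fun a : Σ i : Fin k, Fin (N i) => a.1 = b), g a = ∏ j, g ⟨b, j⟩ := by
  classical
  refine Eq.trans ?_ (Finset.prod_map univ ⟨fun j => (⟨b, j⟩ : Σ i : Fin k, Fin (N i)),
    fun j j' h => by simpa using h⟩ g)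
  refine prod_congr ?_ fun _ _ => rfl
  ext ⟨i, j⟩
  simp only [mem_filter, mem_univ, true_and, mem_map, Function.Embedding.coeFn_mk]
  constructor
  · rintro rfl
    exact ⟨j, rfl⟩
  · rintro ⟨j', h⟩
    exact (congrArg Sigma.fst h).symm

/-- **The binomial law for the curves `y² = x³ + b x` over `ℚ(i)`.** -/
theorem mqgXB {b : K4} (hb : b ≠ 0) : BQG K4 4 (fun _ _ => Cls2 K4) {1, b} 0 b cR := by
  classical
  intro F _ _ _ hF m u hmu k δ hδ t ε hε
  obtain ⟨n, hn⟩ := hmu.1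
  obtain ⟨A, hA⟩ := EX4.exists_of hF
  have hA0 : A ≠ [] := by
    rintro rfl
    have h1 := hA.len
    rw [List.length_nil] at h1
    exact absurd h1.symm (Module.finrank_pos (R := K4) (M := F)).ne'
  have hD : ∀ i : Fin k, ∃ (D ν : 𝓞 K4), ν ≠ 0 ∧ (D : K4) = -(b * δ i ^ 2) * (ν : K4) ^ 4 :=
    fun i => exists_fourth_mul4
  choose D ν hν hD using hD
  have hD0 : ∀ i, D i ≠ 0 := by
    intro i h0
    have hν' : (ν i : K4) ≠ 0 := by exact_mod_cast hν i
    have h1 := hD i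
    rw [h0] at h1
    have h2 : -(b * δ i ^ 2) * (ν i : K4) ^ 4 = 0 := by
      rw [← h1]
      exact map_zero (algebraMap (𝓞 K4) K4)
    exact (mul_ne_zero (neg_ne_zero.2 (mul_ne_zero hb (pow_ne_zero 2 (hδ.1 i))))
      (pow_ne_zero 4 hν')) h2
  choose N a f hN ha0 hae hf hpw hcov hc using fun i => exists_rep hA0 hA.ne hA.pw (hD0 i)
  have hcR : cR = MP_1a91b9_ntQ.Da.cinf2 := MP_1a91b9_ntQ.cinf2_form
  have key := den_allXB (A := Σ i : Fin k, Fin (N i)) (I := Fin k) Sigma.fst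
    (fun p => a p.1 p.2) (fun p => f p.1 p.2) (fun p => ha0 p.1 p.2) (fun p => hf p.1 p.2)
    (fun p p' hpp => by
      obtain ⟨i, j⟩ := p
      obtain ⟨i', j'⟩ := p'
      by_cases hii : i = i'
      · subst hii
        exact hpw i j j' fun h => hpp (by rw [h])
      · obtain ⟨e, he, h1⟩ := hae i j
        obtain ⟨e', he', h1'⟩ := hae i' j'
        show (¬ ∃ y : K4, y ^ 4 * (a i j : K4) = (a i' j' : K4)) ∧
          ¬ ∃ y : K4, y ^ 4 = (a i j : K4) * (a i' j' : K4)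
        rw [h1, h1']
        exact sep4 hb (hν i) (hν i') (hD i) (hD i') (hA.pow e he) (hA.pow e' he') (hA.ne e he)
          (hA.ne e' he') (hδ.2 i i' hii 1 (Set.mem_insert _ _))
          (hδ.2 i i' hii b (Set.mem_insert_of_mem _ (Set.mem_singleton b))))
    t (v := cR ^ Module.finrank K4 F) (by
      rw [hcR]
      exact pow_nonneg MP_1a91b9_ntQ.cinf2_pos5.le _) (fun i => by
      rw [prod_blk, hcR, ← hA.len]
      exact hc i _ MP_1a91b9_ntQ.cinf2_pos5.le cinf2_le_half) hn (cls4 hmu)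
    (fun i d => RkZ (⟨0, algebraMap K4 F (δ i * d * 0), 0,
      algebraMap K4 F ((δ i * d) ^ 2 * b), 0⟩ : WeierstrassCurve F)) (fun d hd i h => ?_) ε hε
  · rw [Fintype.card_fin] at key
    exact key
  · have h1 := chainX hA _ (oc_ne (mul_ne_zero (hD0 i) (pow_ne_zero 2 hd.ne_zero))) fun e he => by
      obtain ⟨j, hj⟩ := hcov i e he
      rw [WD4_mk]
      exact good_rep (hD0 i) (hA.ne e he) hd.ne_zero (h ⟨i, j⟩ rfl) hj
    have hν' : (ν i : K4) ≠ 0 := by exact_mod_cast hν i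
    have e1 : (⟨0, 0, 0, -algebraMap K4 F ((D i * d ^ 2 : 𝓞 K4) : K4), 0⟩ : WeierstrassCurve F) =
        crv 0 (algebraMap K4 F ((δ i * d) ^ 2 * b) * (algebraMap K4 F (ν i : K4)) ^ 4) := by
      refine WeierstrassCurve.ext rfl rfl rfl ?_ rfl
      show -algebraMap K4 F ((D i * d ^ 2 : 𝓞 K4) : K4) =
        algebraMap K4 F ((δ i * d) ^ 2 * b) * (algebraMap K4 F (ν i : K4)) ^ 4
      rw [oc_mul, oc_pow, hD i, ← map_pow (algebraMap K4 F), ← map_mul (algebraMap K4 F),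
        ← map_neg (algebraMap K4 F)]
      congr 1
      ring
    have e3 : (⟨0, algebraMap K4 F (δ i * d * 0), 0, algebraMap K4 F ((δ i * d) ^ 2 * b), 0⟩ :
        WeierstrassCurve F) = crv 0 (algebraMap K4 F ((δ i * d) ^ 2 * b)) := by
      refine WeierstrassCurve.ext rfl ?_ rfl rfl rfl
      show algebraMap K4 F (δ i * d * 0) = 0
      rw [mul_zero, map_zero]
    rw [e3, ← c4_fourth (algebraMap K4 F ((δ i * d) ^ 2 * b)) (t := algebraMap K4 F (ν i : K4))
      (by rw [Ne, map_eq_zero]; exact hν'), ← e1]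
    exact h1

end

end Pool.Agent.Lib.MP_1a91b9_ntZ.J4
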