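import Pool.Agent.Lib.MP_1a91b9_ntZ.Dsj8B
import Pool.Agent.Lib.MP_1a91b9_ntZ.Forms
import Pool.Agent.Lib.MP_1a91b9_ntW.J.Main8

/-!
# MP_1a91b9_nt (the binomial law), `ℚ(√-2)`: the rank part of the conjecture of Birch and Swinnerton-Dyer for
# at least `t` of the curves `y² = x³ + 4 δ d x² + 2 (δ d)² x`
-/

set_option autoImplicit false

namespace Pool.Agent.Lib.MP_1a91b9_ntZ

open NumberField IsDedekindDomain Finset WeierstrassCurve
open Pool.Agent.Lib.MP_1a91b9_ntW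
open Pool.Agent.Lib.MP_1a91b9_ntW.J (RkZ PropGE twd c8 c8_sq fm8 ellK8 Tdq_c8 WW_all exists_sq_mul Cls2
  cls8)
open Pool.Agent.Lib.MP_1a91b9_nuX.LG (LConcl)
open Pool.Agent.Lib.MP_1a91b9_ntN.G (MQT)
open Pool.Agent.Lib.MP_1a91b9_ntY (Tdq chainQ)
open Pool.Agent.Lib.MP_1a91b9_ntQ.Da (cinf2)

noncomputable section

/-- **The density of the squarefree `d` for which at least `t` of the blocks of twists are good.** -/
theorem den8_bin {k N : ℕ} (hN : 0 < N) {a : Fin k → Fin N → 𝓞 K8} (hne : ∀ b n, a b n ≠ 0)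
    (hin : ∀ b n n', n ≠ n' → ¬ ∃ y : K8, y ^ 2 = (a b n : K8) * a b n')
    (hcr : ∀ b b', b ≠ b' → ∀ n n', ¬ ∃ y : K8, y ^ 2 = (a b n : K8) * a b' n' ∨
      y ^ 2 = -((a b n : K8) * a b' n'))
    {n : ℕ} {M u : 𝓞 K8} (hM : M ∣ 2 ^ n) (hu : ¬ ((2 : 𝓞 K8) ∣ M ∧ (2 : 𝓞 K8) ∣ u))
    (P : Fin k → 𝓞 K8 → Prop)
    (hP : ∀ b (d : 𝓞 K8), Squarefree d → (∀ n, ∃ (κ j : ZMod 2) (S : Finset Pg) (s : 𝓞 K8),
      s ≠ 0 ∧ a b n * d = dW κ j S * s ^ 2 ∧ GW κ j S ≠ 0) → P b d) (t : ℕ) :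
    PropGE K8 M u (fun d => Atl t fun b => P b d)
      (bn k t ((∏' i : ℕ, (1 + 1 / (2 : ℝ) ^ (i + 1))⁻¹) ^ N)) := by
  intro ε hε
  rw [Pool.Agent.Lib.MP_1a91b9_ntQ.cinf2_form]
  have hm' : M ∣ (2 : 𝓞 K8) ^ (n + 3) := hM.trans (pow_dvd_pow _ (by omega))
  refine den_bin bad8 (mod8 n) (two_pow_ne n) (dsbin8 n) hN hne ?_ ?_ hm'
    (fun x => cls_two hM hu _ (bad8.prime x)) P ?_ t (by linarith)
  · rintro b n n' h ⟨y, hy⟩
    exact hin b n n' h ⟨(y : K8), by exact_mod_cast congrArg (fun z : 𝓞 K8 => (z : K8)) hy⟩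
  · rintro b b' hbb n n' ⟨y, hy⟩
    refine hcr b b' hbb n n' ⟨(y : K8), hy.imp (fun h => ?_) fun h => ?_⟩
    · exact_mod_cast congrArg (fun z : 𝓞 K8 => (z : K8)) h
    · exact_mod_cast congrArg (fun z : 𝓞 K8 => (z : K8)) h
  · intro b d hd h
    refine hP b d hd fun n => ?_
    obtain ⟨i, S, s, h1, h2, h3⟩ := h n
    have e := mu8 i.1 (i.2 () + 1) S
    rw [← ix8] at e
    exact ⟨i.1, i.2 () + 1, S, s, h1, h2.trans (congrArg (fun z => z * s ^ 2) e), h3⟩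

/-- **The rank part over every multiquadratic extension of `ℚ(√-2)`, the binomial law.** -/
theorem main_bin8 (F : Type) [Field F] [NumberField F] [Algebra K8 F]
    (hF : IntermediateField.adjoin K8 {x : F | ∃ c : K8, x ^ 2 = algebraMap K8 F c} = ⊤)
    {k : ℕ} {d₀ : Fin k → K8} (hd₀ : ∀ b, d₀ b ≠ 0)
    (hsep : ∀ b b', b ≠ b' → ¬ ∃ x : F, x ^ 2 = algebraMap K8 F (d₀ b * d₀ b') ∨
      x ^ 2 = -algebraMap K8 F (d₀ b * d₀ b'))
    {n : ℕ} {m u : 𝓞 K8} (hm : m ∣ 2 ^ n) (hu : ¬ ((2 : 𝓞 K8) ∣ m ∧ (2 : 𝓞 K8) ∣ u)) (t : ℕ) :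
    PropGE K8 m u (fun d => Atl t fun b => RkZ (c8 (algebraMap K8 F (d₀ b * d))))
      (bn k t ((∏' i : ℕ, (1 + 1 / (2 : ℝ) ^ (i + 1))⁻¹) ^ Module.finrank K8 F)) := by
  obtain ⟨A, hA⟩ := MQT.exists_of hF
  have hok := hA.ok
  have h1 : ∀ b, ∃ (δ ν : 𝓞 K8), ν ≠ 0 ∧ (δ : K8) = d₀ b * (ν : K8) ^ 2 := fun b => exists_sq_mul
  choose δ ν hν hδν using h1
  have hν' : ∀ b, (ν b : K8) ≠ 0 := fun b => by exact_mod_cast hν b
  have hδ' : ∀ b, (δ b : K8) ≠ 0 := fun b => by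
    rw [hδν]
    exact mul_ne_zero (hd₀ b) (pow_ne_zero 2 (hν' b))
  have hδ : ∀ b, δ b ≠ 0 := fun b => by exact_mod_cast hδ' b
  have hmem : ∀ i : Fin A.length, A.get i ∈ A := fun i => List.get_mem A i
  have hmul : ∀ x y : 𝓞 K8, ((x * y : 𝓞 K8) : K8) = (x : K8) * y := fun x y => by
    push_cast
    rfl
  rw [← hok.len]
  refine den8_bin (a := fun b i => δ b * A.get i) ?_ ?_ ?_ ?_ hm hu
    (fun b d => RkZ (c8 (algebraMap K8 F (d₀ b * d)))) (fun b d hd h => ?_) t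
  · rw [hok.len]
    exact Module.finrank_pos
  · intro b i
    exact mul_ne_zero (hδ b) (hok.ne _ (hmem i))
  · rintro b i i' hii ⟨y, hy⟩
    have hpw := List.pairwise_iff_get.1 hok.pw
    have h2 : (y / (δ b : K8)) ^ 2 = ((A.get i : 𝓞 K8) : K8) * (A.get i' : 𝓞 K8) := by
      have hb := hδ' b
      rw [hmul, hmul] at hy
      rw [div_pow, hy]
      field_simp
    rcases lt_or_gt_of_ne hii with h3 | h3
    · exact hpw i i' h3 ⟨_, h2⟩
    · exact hpw i' i h3 ⟨_, by rw [h2, mul_comm]⟩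
  · rintro b b' hbb i i' ⟨y, hy⟩
    obtain ⟨x, hx⟩ := hok.sq _ (hmem i)
    obtain ⟨x', hx'⟩ := hok.sq _ (hmem i')
    have hne : ∀ i : Fin A.length, algebraMap K8 F ((A.get i : 𝓞 K8) : K8) ≠ 0 := fun i => by
      rw [Ne, map_eq_zero]
      exact_mod_cast hok.ne _ (hmem i)
    have hx0 : x ≠ 0 := by
      rintro rfl
      exact hne i (by rw [← hx]; ring)
    have hx0' : x' ≠ 0 := by
      rintro rfl
      exact hne i' (by rw [← hx']; ring)
    have hn : algebraMap K8 F (ν b : K8) ≠ 0 := by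
      rw [Ne, map_eq_zero]
      exact hν' b
    have hn' : algebraMap K8 F (ν b' : K8) ≠ 0 := by
      rw [Ne, map_eq_zero]
      exact hν' b'
    have e : (δ b * A.get i : 𝓞 K8) = (δ b : K8) * ((A.get i : 𝓞 K8) : K8) := hmul _ _
    have e' : (δ b' * A.get i' : 𝓞 K8) = (δ b' : K8) * ((A.get i' : 𝓞 K8) : K8) := hmul _ _
    have key : algebraMap K8 F (((δ b * A.get i : 𝓞 K8) : K8) * ((δ b' * A.get i' : 𝓞 K8) : K8)) =
        algebraMap K8 F (d₀ b * d₀ b') *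
          (algebraMap K8 F (ν b) * algebraMap K8 F (ν b') * x * x') ^ 2 := by
      rw [e, e', hδν, hδν]
      simp only [map_mul, map_pow]
      rw [← hx, ← hx']
      ring
    refine hsep b b' hbb ⟨algebraMap K8 F y /
      (algebraMap K8 F (ν b) * algebraMap K8 F (ν b') * x * x'), hy.imp (fun h => ?_) fun h => ?_⟩
    · have h2 := congrArg (algebraMap K8 F) h
      rw [key, map_pow] at h2
      rw [div_pow, h2]
      field_simp
    · have h2 := congrArg (algebraMap K8 F) h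
      rw [map_neg, key, map_pow] at h2
      rw [div_pow, h2]
      field_simp
  · have h1 : LConcl (Tdq F (4 : K8) 2 0 (δ b * d)) ∧
        Finite (Tdq F (4 : K8) 2 0 (δ b * d)).toAffine.Point := by
      refine chainQ ellK8 ?_ hA (δ b * d) (mul_ne_zero (hδ b) hd.ne_zero) fun z hz => ?_
      · have h1 := fm8 (F := K8) (δ := 1) one_ne_zero
        rw [c8, mul_one, one_pow, mul_one] at h1
        exact h1
      · obtain ⟨i, rfl⟩ := List.mem_iff_get.1 hz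
        have h3 := WW_all (h i)
        have e : A.get i * (δ b * d) = δ b * A.get i * d := by ring
        have e2 := Tdq_c8 K8 (A.get i * (δ b * d))
        have e3 : Tdq K8 (4 : K8) 2 0 (A.get i * (δ b * d)) = WW (δ b * A.get i * d) := by
          rw [e2, ← e]
          rfl
        rw [← e3] at h3
        exact h3
    rw [Tdq_c8] at h1
    have hd0 : (d : K8) ≠ 0 := by exact_mod_cast hd.ne_zero
    have e : algebraMap K8 F ((δ b * d : 𝓞 K8) : K8) =
        algebraMap K8 F (d₀ b * d) * (algebraMap K8 F (ν b : K8)) ^ 2 := by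
      rw [hmul, hδν, ← map_pow (algebraMap K8 F), ← map_mul (algebraMap K8 F)]
      congr 1
      ring
    rw [e] at h1
    refine (c8_sq ?_ ?_).1 h1
    · rw [Ne, map_eq_zero]
      exact mul_ne_zero (hd₀ b) hd0
    · rw [Ne, map_eq_zero]
      exact hν' b

/-- The form for the curves `y² = x³ + a x² + b x` with `a² = 8 b`. -/
theorem bqg8 {a b : K8} (hab : a ^ 2 = 8 * b) (hb : b ≠ 0) :
    BQG K8 2 (fun _ _ => Cls2 K8) {1, -1} a b (∏' i : ℕ, (1 + 1 / (2 : ℝ) ^ (i + 1))⁻¹) := by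
  intro F _ _ _ hF m u hmu k δ hδ t
  obtain ⟨n, hn⟩ := hmu.1
  have ha : a ≠ 0 := by
    rintro rfl
    rw [zero_pow two_ne_zero, eq_comm, mul_eq_zero] at hab
    exact hab.elim (by norm_num) hb
  have ha4 : a / 4 ≠ 0 := div_ne_zero ha (by norm_num)
  have haF : algebraMap K8 F (a / 4) ≠ 0 := by
    rw [Ne, map_eq_zero]
    exact ha4
  have h1 := main_bin8 F hF (d₀ := fun i => δ i * (a / 4)) (fun i => mul_ne_zero (hδ.1 i) ha4)
    (fun i i' hii => by
      have key : algebraMap K8 F (δ i * (a / 4) * (δ i' * (a / 4))) =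
          algebraMap K8 F (δ i * δ i') * (algebraMap K8 F (a / 4)) ^ 2 := by
        rw [← map_pow, ← map_mul]
        congr 1
        ring
      rintro ⟨x, hx⟩
      rcases hx with hx | hx
      · refine hδ.2 i i' hii 1 (by simp) ⟨x / algebraMap K8 F (a / 4), ?_⟩
        rw [div_pow, hx, key, one_mul]
        field_simp
      · refine hδ.2 i i' hii (-1) (by simp) ⟨x / algebraMap K8 F (a / 4), ?_⟩
        rw [div_pow, hx, key, neg_one_mul, map_neg]
        field_simp) hn (cls8 hmu) t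
  have e : ∀ (i : Fin k) (d : 𝓞 K8), c8 (algebraMap K8 F (δ i * (a / 4) * d)) =
      ⟨0, algebraMap K8 F (δ i * d * a), 0, algebraMap K8 F ((δ i * d) ^ 2 * b), 0⟩ := by
    intro i d
    have e1 : δ i * d * a = 4 * (δ i * (a / 4) * d) := by
      field_simp
    have hb8 : b = a ^ 2 / 8 := by
      rw [hab, mul_div_cancel_left₀ _ (by norm_num : (8 : K8) ≠ 0)]
    have e2 : (δ i * d) ^ 2 * b = 2 * (δ i * (a / 4) * d) ^ 2 := by
      rw [hb8]
      ring
    rw [e1, e2, map_mul _ 4, map_mul _ 2, map_pow, map_ofNat, map_ofNat]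
    rfl
  have e' : (fun d : 𝓞 K8 => Atl t fun i : Fin k => RkZ (c8 (algebraMap K8 F (δ i * (a / 4) * d)))) =
      fun d : 𝓞 K8 => Atl t fun i : Fin k => RkZ (⟨0, algebraMap K8 F (δ i * d * a), 0,
        algebraMap K8 F ((δ i * d) ^ 2 * b), 0⟩ : WeierstrassCurve F) := by
    funext d
    simp only [e]
  rw [e'] at h1
  exact h1

end

end Pool.Agent.Lib.MP_1a91b9_ntZ
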