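import Pool.Agent.Lib.MP_1a91b9_ntB.S.KStdB
import Pool.Agent.Lib.MP_1a91b9_ntZ.Main8B
import Pool.Agent.Lib.MP_1a91b9_ntZ.J4Main
import Pool.Agent.Lib.MP_1a91b9_ntZ.J7.Main
import Pool.Agent.Lib.MP_1a91b9_ntZ.D3Q

/-!
# MP_1a91b9_nt (the binomial law): the rank part over `F` for `p = 2`, all the fields together
-/

set_option autoImplicit false

namespace Pool.Agent.Lib.MP_1a91b9_ntZ

open NumberField WeierstrassCurve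

open Classical in
/-- **The binomial law for the rank part over `F`.** -/
theorem binK {K : Type} [Field K] [NumberField K]
    (hK : Module.finrank ℚ K = 2) (a b : K) (hE : b * (a ^ 2 - 4 * b) ≠ 0) (j D : ℤ)
    (hjD : (j, D) ∈ Pool.Agent.Lib.MP_1a91b9_ntY.cmList)
    (hj : 256 * (a ^ 2 - 3 * b) ^ 3 = j * (b ^ 2 * (a ^ 2 - 4 * b))) (hD : ∃ s : K, s ^ 2 = D)
    (l : ℕ) (hl : l = 2 ∨ l = 4 ∧ ∃ i : K, i ^ 2 = -1)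
    (F : Type) [Field F] [NumberField F] [Algebra K F]
    (hF : IntermediateField.adjoin K {x : F | ∃ c : K, x ^ l = algebraMap K F c} = ⊤)
    (Δ : Finset (𝓞 K)) (h0 : ∀ δ ∈ Δ, δ ≠ 0)
    (hΔ : ∀ δ ∈ Δ, ∀ δ' ∈ Δ, δ ≠ δ' → ∀ e ∈ ({1, -1, b, -b} : Set K),
      ¬ ∃ x : F, x ^ 2 = algebraMap K F (e * ((δ : K) * (δ' : K)))) (t : ℕ)
    (n : ℕ) (m u : 𝓞 K) (hm : m ∣ 2 ^ n) (hu : ∀ p, Prime p → ¬ (p ^ 2 ∣ m ∧ p ^ 2 ∣ u))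
    (c : ℝ)
    (hc : c = if Prime (2 : 𝓞 K) then (if ∃ x : F, x ^ 2 = -1 then
        √((∏' i : ℕ, (1 + 1 / (2 : ℝ) ^ (2 * i + 1))⁻¹) / 2) else
        ∏' i : ℕ, (1 + 1 / (2 : ℝ) ^ (2 * i + 1))⁻¹) else
      if Squarefree (2 : 𝓞 K) then ∏' i : ℕ, (1 - 1 / (2 : ℝ) ^ (i + 1)) else
      ∏' i : ℕ, (1 + 1 / (2 : ℝ) ^ (i + 1))⁻¹) (ε : ℝ) (hε : 0 < ε) :
    ∀ᶠ X : ℝ in Filter.atTop, bn Δ.card t (c ^ Module.finrank K F) - ε ≤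
      (Nat.card {d : 𝓞 K // Squarefree d ∧ m ∣ d - u ∧ |Algebra.norm ℤ d| ≤ X ∧
        t ≤ (Δ.filter fun δ : 𝓞 K => ∀ W : WeierstrassCurve F,
          W = ⟨0, algebraMap K F ((δ : K) * (d : K) * a), 0,
            algebraMap K F (((δ : K) * (d : K)) ^ 2 * b), 0⟩ →
          (∃ g : ℂ → ℂ, Differentiable ℂ g ∧ (∀ s : ℂ, 3 / 2 < s.re → g s = W.LSeries s) ∧
            g 1 ≠ 0) ∧ Finite W.toAffine.Point).card} : ℝ) /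
        (Nat.card {d : 𝓞 K // Squarefree d ∧ m ∣ d - u ∧ |Algebra.norm ℤ d| ≤ X} : ℝ) :=
  Pool.Agent.Lib.MP_1a91b9_ntB.binK_std (fun hb => J4.mqgXB hb)
    (fun {e} he => bqg8 (by ring) (mul_ne_zero two_ne_zero (pow_ne_zero 2 he)))
    (fun hd => J7.bqg7 hd) (fun he => D3.bqg3b he) (fun he => D3.bqg3a he)
    hK a b hE j D hjD hj hD l hl F hF Δ h0 hΔ t n m u hm hu c hc ε hε

end Pool.Agent.Lib.MP_1a91b9_ntZ
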