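import Pool.Agent.Lib.MP_1a91b9_ntZ.Bin
import Mathlib.Data.Set.Card

/-!
# MP_1a91b9_nt (the binomial law): sets of multipliers

From the law for the finite sets of multipliers to the law for an arbitrary set with at least `n` elements.
-/

set_option autoImplicit false

namespace Pool.Agent.Lib.MP_1a91b9_ntZ

open Finset Filter Topology

open Classical in
/-- **The law for a set.** -/
theorem set_law {α β : Type} {A B : α → Prop} {C : ℝ → α → Prop} {Q : β → α → Prop} {g : ℝ}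
    {T : Set β} {n t : ℕ} (hn : (n : ℕ∞) ≤ T.encard)
    (h : ∀ S : Finset β, (S : Set β) ⊆ T → ∀ ε : ℝ, 0 < ε → ∀ᶠ X : ℝ in atTop,
      bn S.card t g - ε ≤
      (Nat.card {d : α // A d ∧ B d ∧ C X d ∧ t ≤ (S.filter fun δ => Q δ d).card} : ℝ) /
        (Nat.card {d : α // A d ∧ B d ∧ C X d} : ℝ)) {ε : ℝ} (hε : 0 < ε) :
    ∀ᶠ X : ℝ in atTop, bn n t g - ε ≤
      (Nat.card {d : α // A d ∧ B d ∧ C X d ∧ (t : ℕ∞) ≤ {x ∈ T | Q x d}.encard} : ℝ) /
        (Nat.card {d : α // A d ∧ B d ∧ C X d} : ℝ) := by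
  obtain ⟨S', hS', hc⟩ := Set.exists_subset_encard_eq hn
  have hfin : S'.Finite := Set.finite_of_encard_eq_coe hc
  obtain ⟨S, rfl⟩ : ∃ S : Finset β, (S : Set β) = S' := ⟨hfin.toFinset, hfin.coe_toFinset⟩
  have hcard : S.card = n := by
    rw [Set.encard_coe_eq_coe_finsetCard] at hc
    exact_mod_cast hc
  filter_upwards [h S hS' ε hε] with X hX
  rw [hcard] at hX
  refine hX.trans ?_
  rcases Nat.eq_zero_or_pos (Nat.card {d : α // A d ∧ B d ∧ C X d}) with h0 | h0
  · rw [h0, Nat.cast_zero, div_zero, div_zero]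
  · have hf : Finite {d : α // A d ∧ B d ∧ C X d} := (Nat.card_pos_iff.1 h0).2
    have hf' : Finite {d : α // A d ∧ B d ∧ C X d ∧ (t : ℕ∞) ≤ {x ∈ T | Q x d}.encard} :=
      Finite.of_injective (fun d => (⟨d.1, d.2.1, d.2.2.1, d.2.2.2.1⟩ :
        {d : α // A d ∧ B d ∧ C X d})) fun d d' hd => by
          have := congrArg Subtype.val hd
          exact Subtype.ext this
    refine div_le_div_of_nonneg_right ?_ (Nat.cast_nonneg _)
    rw [Nat.cast_le]
    refine Nat.card_le_card_of_injective (fun d => (⟨d.1, d.2.1, d.2.2.1, d.2.2.2.1, ?_⟩ :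
      {d : α // A d ∧ B d ∧ C X d ∧ (t : ℕ∞) ≤ {x ∈ T | Q x d}.encard})) fun d d' hd => by
        have := congrArg Subtype.val hd
        exact Subtype.ext this
    have h1 : (((S.filter fun δ => Q δ d.1) : Finset β) : Set β) ⊆ {x ∈ T | Q x d.1} := by
      intro x hx
      have h2 := mem_filter.1 (mem_coe.1 hx)
      exact ⟨hS' (mem_coe.2 h2.1), h2.2⟩
    refine le_trans ?_ (Set.encard_le_encard h1)
    rw [Set.encard_coe_eq_coe_finsetCard]
    exact_mod_cast d.2.2.2.2

end Pool.Agent.Lib.MP_1a91b9_ntZ
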