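import Mathlib

/-!
# MP_1a91b9_nt (the binomial law), generic part: at least `t` of independent events

`Mn`: mean values over a sequence of finite sets. `bts s t x`: the probability that at least `t` of
independent coins `i ∈ s` with the biases `x i` show `1`. `Mn.lower`: if the products of the functions `F i`
have the mean values `∏ v i`, and `F i` is between `0` and the indicator of `P i`, then at least `t` of the
`P i` hold with lower density at least `bn n t g`, the probability of at least `t` successes in `n`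
independent trials, if `g ≤ v i`.
-/

set_option autoImplicit false

namespace Pool.Agent.Lib.MP_1a91b9_ntZ

open Finset

noncomputable section

/-! ### At least `t` -/

open Classical in
/-- At least `t` of the properties `P i` hold. -/
def Atl {I : Type} [Fintype I] (t : ℕ) (P : I → Prop) : Prop := t ≤ (univ.filter P).card

theorem Atl.mono {I : Type} [Fintype I] {t : ℕ} {P Q : I → Prop} (h : ∀ i, P i → Q i)
    (hP : Atl t P) : Atl t Q := by
  classical
  unfold Atl at hP ⊢
  exact hP.trans (card_le_card fun i hi => mem_filter.2 ⟨mem_univ _, h i (mem_filter.1 hi).2⟩)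

theorem Atl.congr {I : Type} [Fintype I] {t : ℕ} {P Q : I → Prop} (h : ∀ i, P i ↔ Q i) :
    Atl t P ↔ Atl t Q := ⟨Atl.mono fun i => (h i).1, Atl.mono fun i => (h i).2⟩

/-! ### Mean values -/

section Mean

variable {β : Type}

/-- The mean value of `f` is `v`, up to `δ #(B X) + ε X`. -/
def Mn (B : ℕ → Finset β) (f : β → ℝ) (v : ℝ) : Prop :=
  ∀ δ : ℝ, 0 < δ → ∀ ε : ℝ, 0 < ε → ∃ X₀ : ℕ, ∀ X : ℕ, X₀ ≤ X →
    |∑ b ∈ B X, f b - v * (B X).card| ≤ δ * (B X).card + ε * X

theorem Mn.add {B : ℕ → Finset β} {f h : β → ℝ} {v w : ℝ} (hf : Mn B f v) (hh : Mn B h w) :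
    Mn B (fun x => f x + h x) (v + w) := by
  intro δ hδ ε hε
  obtain ⟨X1, h1⟩ := hf (δ / 2) (by positivity) (ε / 2) (by positivity)
  obtain ⟨X2, h2⟩ := hh (δ / 2) (by positivity) (ε / 2) (by positivity)
  refine ⟨max X1 X2, fun X hX => ?_⟩
  have h3 := h1 X (le_trans (le_max_left _ _) hX)
  have h4 := h2 X (le_trans (le_max_right _ _) hX)
  rw [sum_add_distrib]
  calc |∑ b ∈ B X, f b + ∑ b ∈ B X, h b - (v + w) * (B X).card|
      = |(∑ b ∈ B X, f b - v * (B X).card) + (∑ b ∈ B X, h b - w * (B X).card)| := by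
        congr 1
        ring
    _ ≤ _ := abs_add_le _ _
    _ ≤ (δ / 2 * (B X).card + ε / 2 * X) + (δ / 2 * (B X).card + ε / 2 * X) := add_le_add h3 h4
    _ = δ * (B X).card + ε * X := by ring

theorem Mn.neg {B : ℕ → Finset β} {f : β → ℝ} {v : ℝ} (hf : Mn B f v) :
    Mn B (fun x => -f x) (-v) := by
  intro δ hδ ε hε
  obtain ⟨X1, h1⟩ := hf δ hδ ε hε
  refine ⟨X1, fun X hX => ?_⟩
  have h3 := h1 X hX
  rw [sum_neg_distrib, neg_mul, ← neg_sub', abs_neg]
  exact h3

theorem Mn.congr {B : ℕ → Finset β} {f h : β → ℝ} {v w : ℝ} (hf : Mn B f v)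
    (h1 : ∀ X, ∀ x ∈ B X, h x = f x) (h2 : w = v) : Mn B h w := by
  intro δ hδ ε hε
  obtain ⟨X0, h0⟩ := hf δ hδ ε hε
  refine ⟨X0, fun X hX => ?_⟩
  rw [sum_congr rfl (h1 X), h2]
  exact h0 X hX

theorem Mn.one (B : ℕ → Finset β) : Mn B (fun _ => 1) 1 := by
  intro δ hδ ε hε
  refine ⟨0, fun X _ => ?_⟩
  rw [sum_const, nsmul_eq_mul, mul_one, one_mul, sub_self, abs_zero]
  positivity

end Mean

/-! ### Independent coins -/

section Coins

variable {I : Type} [DecidableEq I]

/-- The probability that at least `t` of independent coins `i ∈ s` with the biases `x i` show `1`. -/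
def bts (s : Finset I) (t : ℕ) (x : I → ℝ) : ℝ :=
  ∑ J ∈ s.powerset, if t ≤ J.card then (∏ i ∈ J, x i) * ∏ i ∈ s \ J, (1 - x i) else 0

theorem bts_empty_zero (x : I → ℝ) : bts ∅ 0 x = 1 := by
  simp [bts]

theorem bts_empty_succ (t : ℕ) (x : I → ℝ) : bts ∅ (t + 1) x = 0 := by
  simp [bts]

theorem bts_insert_succ {s : Finset I} {i : I} (hi : i ∉ s) (t : ℕ) (x : I → ℝ) :
    bts (insert i s) (t + 1) x = x i * bts s t x + (1 - x i) * bts s (t + 1) x := by
  unfold bts
  rw [sum_powerset_insert hi, mul_sum, mul_sum, add_comm]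
  congr 1
  · refine sum_congr rfl fun J hJ => ?_
    have hJs := mem_powerset.1 hJ
    have hiJ : i ∉ J := fun h => hi (hJs h)
    rw [card_insert_of_notMem hiJ, prod_insert hiJ]
    have e : insert i s \ insert i J = s \ J := by
      ext a
      simp only [mem_sdiff, mem_insert]
      constructor
      · rintro ⟨h1, h2⟩
        push Not at h2
        exact ⟨h1.resolve_left h2.1, h2.2⟩
      · rintro ⟨h1, h2⟩
        refine ⟨Or.inr h1, ?_⟩
        rintro (rfl | h3)
        · exact hi h1
        · exact h2 h3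
    rw [e]
    by_cases h : t ≤ J.card
    · rw [if_pos h, if_pos (Nat.succ_le_succ h)]
      ring
    · rw [if_neg h, if_neg fun h' => h (Nat.le_of_succ_le_succ h'), mul_zero]
  · refine sum_congr rfl fun J hJ => ?_
    have hJs := mem_powerset.1 hJ
    have hiJ : i ∉ J := fun h => hi (hJs h)
    have e : insert i s \ J = insert i (s \ J) := insert_sdiff_of_notMem s hiJ
    have hi' : i ∉ s \ J := fun h => hi (mem_sdiff.1 h).1
    rw [e, prod_insert hi']
    by_cases h : t + 1 ≤ J.card
    · rw [if_pos h, if_pos h]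
      ring
    · rw [if_neg h, if_neg h, mul_zero]

theorem bts_zero (s : Finset I) (x : I → ℝ) : bts s 0 x = 1 := by
  unfold bts
  have h := prod_add x (fun i => 1 - x i) s
  have h1 : ∏ i ∈ s, (x i + (1 - x i)) = 1 := prod_eq_one fun i _ => by ring
  rw [h1] at h
  refine Eq.trans ?_ h.symm
  exact sum_congr rfl fun J _ => if_pos (Nat.zero_le _)

theorem bts_anti {s : Finset I} {x : I → ℝ} (h0 : ∀ i ∈ s, 0 ≤ x i) (h1 : ∀ i ∈ s, x i ≤ 1)
    (t : ℕ) : bts s (t + 1) x ≤ bts s t x := by
  unfold bts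
  refine sum_le_sum fun J hJ => ?_
  have hJs := mem_powerset.1 hJ
  have hnn : 0 ≤ (∏ i ∈ J, x i) * ∏ i ∈ s \ J, (1 - x i) :=
    mul_nonneg (prod_nonneg fun i hi => h0 i (hJs hi))
      (prod_nonneg fun i hi => by linarith [h1 i (mem_sdiff.1 hi).1])
  by_cases h : t + 1 ≤ J.card
  · rw [if_pos h, if_pos ((Nat.le_succ t).trans h)]
  · rw [if_neg h]
    split_ifs
    · exact hnn
    · exact le_rfl

/-- `bts` is monotone in the biases. -/
theorem bts_mono (s : Finset I) : ∀ (t : ℕ) {x y : I → ℝ}, (∀ i ∈ s, 0 ≤ x i) →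
    (∀ i ∈ s, x i ≤ y i) → (∀ i ∈ s, y i ≤ 1) → bts s t x ≤ bts s t y := by
  induction s using Finset.induction_on with
  | empty =>
    intro t x y _ _ _
    simp [bts]
  | insert a s ha ih =>
    intro t x y h0 h1 h2
    rcases t with _ | t
    · rw [bts_zero, bts_zero]
    · rw [bts_insert_succ ha, bts_insert_succ ha]
      have hs0 : ∀ i ∈ s, 0 ≤ x i := fun i hi => h0 i (mem_insert_of_mem hi)
      have hs1 : ∀ i ∈ s, x i ≤ y i := fun i hi => h1 i (mem_insert_of_mem hi)
      have hs2 : ∀ i ∈ s, y i ≤ 1 := fun i hi => h2 i (mem_insert_of_mem hi)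
      have i1 := ih t hs0 hs1 hs2
      have i2 := ih (t + 1) hs0 hs1 hs2
      have an := bts_anti hs0 (fun i hi => (hs1 i hi).trans (hs2 i hi)) t
      have a0 := h0 a (mem_insert_self _ _)
      have a1 := h1 a (mem_insert_self _ _)
      have a2 := h2 a (mem_insert_self _ _)
      have e1 : x a * bts s t x + (1 - x a) * bts s (t + 1) x ≤
          y a * bts s t x + (1 - y a) * bts s (t + 1) x := by
        nlinarith
      have e2 : y a * bts s t x ≤ y a * bts s t y :=
        mul_le_mul_of_nonneg_left i1 (a0.trans a1)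
      have e3 : (1 - y a) * bts s (t + 1) x ≤ (1 - y a) * bts s (t + 1) y :=
        mul_le_mul_of_nonneg_left i2 (by linarith)
      linarith

open Classical in
/-- The value for events. -/
theorem bts_ind (P : I → Prop) (s : Finset I) : ∀ t : ℕ,
    bts s t (fun i => if P i then (1 : ℝ) else 0) =
      if t ≤ (s.filter P).card then 1 else 0 := by
  induction s using Finset.induction_on with
  | empty =>
    intro t
    rcases t with _ | t
    · rw [bts_zero, if_pos (Nat.zero_le _)]
    · rw [bts_empty_succ, filter_empty, card_empty, if_neg (Nat.not_succ_le_zero t)]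
  | insert a s ha ih =>
    intro t
    rcases t with _ | t
    · rw [bts_zero, if_pos (Nat.zero_le _)]
    · rw [bts_insert_succ ha, ih, ih, filter_insert]
      by_cases h : P a
      · have ha' : a ∉ s.filter P := fun h' => ha (mem_filter.1 h').1
        rw [if_pos h, if_pos h, card_insert_of_notMem ha']
        by_cases h3 : t ≤ (s.filter P).card
        · rw [if_pos h3, if_pos (Nat.succ_le_succ h3)]
          ring
        · rw [if_neg h3, if_neg fun h' => h3 (Nat.le_of_succ_le_succ h')]
          ring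
      · rw [if_neg h, if_neg h]
        by_cases h3 : t + 1 ≤ (s.filter P).card
        · rw [if_pos h3]
          ring
        · rw [if_neg h3]
          ring

/-- The probability of at least `t` successes in `n` independent trials with the probability `g`. -/
def bn (n t : ℕ) (g : ℝ) : ℝ := ∑ j ∈ Finset.Icc t n, (n.choose j : ℝ) * g ^ j * (1 - g) ^ (n - j)

theorem bts_const (s : Finset I) (t : ℕ) (g : ℝ) : bts s t (fun _ => g) = bn s.card t g := by
  unfold bts bn
  have h1 : ∀ J ∈ s.powerset, (if t ≤ J.card then (∏ _i ∈ J, g) * ∏ _i ∈ s \ J, (1 - g) else 0) =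
      (fun m : ℕ => if t ≤ m then g ^ m * (1 - g) ^ (s.card - m) else 0) J.card := by
    intro J hJ
    have hJs := mem_powerset.1 hJ
    rw [prod_const, prod_const, card_sdiff_of_subset hJs]
  rw [sum_congr rfl h1, sum_powerset_apply_card
    (fun m : ℕ => if t ≤ m then g ^ m * (1 - g) ^ (s.card - m) else 0)]
  have h2 : Finset.Icc t s.card = (range (s.card + 1)).filter fun j => t ≤ j := by
    ext j
    simp only [mem_Icc, mem_filter, mem_range]
    omega
  rw [h2, sum_filter]
  refine sum_congr rfl fun j _ => ?_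
  rw [nsmul_eq_mul]
  split_ifs
  · ring
  · ring

/-- The mean values of `bts`. -/
theorem Mn.mean_bts {β : Type} {B : ℕ → Finset β} {F : I → β → ℝ} {v : I → ℝ} (s : Finset I) :
    ∀ (K : Finset I), Disjoint K s →
      (∀ J : Finset I, J ⊆ K ∪ s → Mn B (fun b => ∏ i ∈ J, F i b) (∏ i ∈ J, v i)) → ∀ t : ℕ,
      Mn B (fun b => (∏ i ∈ K, F i b) * bts s t fun i => F i b) ((∏ i ∈ K, v i) * bts s t v) := by
  induction s using Finset.induction_on with
  | empty =>
    intro K _ hM t
    rcases t with _ | t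
    · refine (hM K subset_union_left).congr (fun X b _ => ?_) ?_
      · rw [bts_zero, mul_one]
      · rw [bts_zero, mul_one]
    · have h0 := (hM K subset_union_left).add (hM K subset_union_left).neg
      refine h0.congr (fun X b _ => ?_) ?_
      · rw [bts_empty_succ]
        ring
      · rw [bts_empty_succ]
        ring
  | insert a s ha ih =>
    intro K hK hM t
    have haK : a ∉ K := fun h => disjoint_left.1 hK h (mem_insert_self _ _)
    have hKs : Disjoint K s := disjoint_of_subset_right (subset_insert _ _) hK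
    have hKs' : Disjoint (insert a K) s := by
      rw [disjoint_insert_left]
      exact ⟨ha, hKs⟩
    rcases t with _ | t
    · refine (hM K subset_union_left).congr (fun X b _ => ?_) ?_
      · rw [bts_zero, mul_one]
      · rw [bts_zero, mul_one]
    · have m1 := ih (insert a K) hKs' (fun J hJ => hM J (hJ.trans (by
        intro i hi
        simp only [mem_union, mem_insert] at hi ⊢
        tauto))) t
      have m2 := ih K hKs (fun J hJ => hM J (hJ.trans (union_subset_union_right
        (subset_insert _ _)))) (t + 1)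
      have m3 := ih (insert a K) hKs' (fun J hJ => hM J (hJ.trans (by
        intro i hi
        simp only [mem_union, mem_insert] at hi ⊢
        tauto))) (t + 1)
      refine ((m1.add m2).add m3.neg).congr (fun X b _ => ?_) ?_
      · rw [bts_insert_succ ha, prod_insert haK]
        ring
      · rw [bts_insert_succ ha, prod_insert haK]
        ring

open Classical in
/-- **At least `t` of the events.** -/
theorem Mn.lower_card {β : Type} {B : ℕ → Finset β} [Fintype I] {F : I → β → ℝ} {v : I → ℝ}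
    {P : I → β → Prop} (h0 : ∀ i b, 0 ≤ F i b) (h1 : ∀ i b, F i b ≤ 1)
    (hP : ∀ i b, ¬ P i b → F i b = 0)
    (hM : ∀ J : Finset I, J.Nonempty → Mn B (fun b => ∏ i ∈ J, F i b) (∏ i ∈ J, v i))
    {g : ℝ} (hg : 0 ≤ g) (hgv : ∀ i, g ≤ v i) (hv : ∀ i, v i ≤ 1) (t : ℕ) {κ₀ : ℝ}
    (hκ : κ₀ < bn (Fintype.card I) t g) (ε : ℝ) (hε : 0 < ε) :
    ∃ X₀ : ℕ, ∀ X : ℕ, X₀ ≤ X → κ₀ * ((B X).card : ℝ) - ε * X ≤
      (((B X).filter fun b => t ≤ (univ.filter fun i => P i b).card).card : ℝ) := by
  have hM' : ∀ J : Finset I, J ⊆ ∅ ∪ univ → Mn B (fun b => ∏ i ∈ J, F i b) (∏ i ∈ J, v i) := by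
    intro J _
    rcases J.eq_empty_or_nonempty with rfl | hJ
    · exact (Mn.one B).congr (fun X b _ => prod_empty) prod_empty
    · exact hM J hJ
  have hm := Mn.mean_bts (univ : Finset I) ∅ (disjoint_empty_left _) hM' t
  have hle : bn (Fintype.card I) t g ≤ bts univ t v := by
    rw [← card_univ, ← bts_const univ t g]
    exact bts_mono univ t (fun _ _ => hg) (fun i _ => hgv i) fun i _ => hv i
  obtain ⟨X0, hX0⟩ := hm (bts univ t v - κ₀) (by linarith) ε hε
  refine ⟨X0, fun X hX => ?_⟩
  have h3 := (abs_le.1 (hX0 X hX)).1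
  rw [prod_empty, one_mul] at h3
  have h4 : ∑ b ∈ B X, ((∏ i ∈ (∅ : Finset I), F i b) * bts univ t fun i => F i b) ≤
      (((B X).filter fun b => t ≤ (univ.filter fun i => P i b).card).card : ℝ) := by
    rw [card_eq_sum_ones, sum_filter]
    push_cast
    refine sum_le_sum fun b _ => ?_
    rw [prod_empty, one_mul, ← bts_ind (fun i => P i b) univ t]
    refine bts_mono univ t (fun i _ => h0 i b) (fun i _ => ?_) fun i _ => ?_
    · by_cases h : P i b
      · rw [if_pos h]
        exact h1 i b
      · rw [if_neg h, hP i b h]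
    · split_ifs
      · exact le_rfl
      · exact zero_le_one
  have h5 : ∑ b ∈ B X, ((∏ i ∈ (∅ : Finset I), F i b) * bts univ t fun i => F i b) ≥
      κ₀ * ((B X).card : ℝ) - ε * X := by
    have e : -((bts univ t v - κ₀) * ((B X).card : ℝ) + ε * X) + bts univ t v * (B X).card =
        κ₀ * ((B X).card : ℝ) - ε * X := by ring
    linarith
  linarith

open Classical in
/-- **At least `t` of the events**, with `Atl`. -/
theorem Mn.lower {β : Type} {B : ℕ → Finset β} [Fintype I] {F : I → β → ℝ} {v : I → ℝ}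
    {P : I → β → Prop} (h0 : ∀ i b, 0 ≤ F i b) (h1 : ∀ i b, F i b ≤ 1)
    (hP : ∀ i b, ¬ P i b → F i b = 0)
    (hM : ∀ J : Finset I, J.Nonempty → Mn B (fun b => ∏ i ∈ J, F i b) (∏ i ∈ J, v i))
    {g : ℝ} (hg : 0 ≤ g) (hgv : ∀ i, g ≤ v i) (hv : ∀ i, v i ≤ 1) (t : ℕ) {κ₀ : ℝ}
    (hκ : κ₀ < bn (Fintype.card I) t g) (ε : ℝ) (hε : 0 < ε) :
    ∃ X₀ : ℕ, ∀ X : ℕ, X₀ ≤ X → κ₀ * ((B X).card : ℝ) - ε * X ≤
      (((B X).filter fun b => Atl t fun i => P i b).card : ℝ) := by
  obtain ⟨X0, h⟩ := Mn.lower_card h0 h1 hP hM hg hgv hv t hκ ε hε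
  refine ⟨X0, fun X hX => (h X hX).trans (le_of_eq (congrArg Nat.cast (congrArg Finset.card
    (Finset.ext fun b => ?_))))⟩
  rw [mem_filter, mem_filter]
  exact Iff.rfl

end Coins

end

end Pool.Agent.Lib.MP_1a91b9_ntZ
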