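import Pool.Agent.Lib.MP_1a91b9_ntN.H.DensJ
import Pool.Agent.Lib.MP_1a91b9_ntZ.Bin
import Pool.Agent.Lib.MP_1a91b9_ntK.Q.LimK

/-!
# MP_1a91b9_nt (the binomial law), cubic twists: the density of the sets of primes for which all the kernels of
at least `t` blocks are minimal, in the classes of a group
-/

set_option autoImplicit false
set_option linter.unusedSectionVars false

namespace Pool.Agent.Lib.MP_1a91b9_ntZ

open Finset Filter Topology Pool.Agent.Lib.MP_1a91b9_ntH Pool.Agent.Lib.MP_1a91b9_ntK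
  Pool.Agent.Lib.MP_1a91b9_ntK.Da Pool.Agent.Lib.MP_1a91b9_ntN Pool.Agent.Lib.MP_1a91b9_ntN.H

noncomputable section

theorem cinf3_pos : 0 < cinf3 := by
  have hc := cinf3_gt
  rw [cinf3_form] at hc
  linarith

section Dens

variable {β : Type} {A : Type} [Fintype A] [DecidableEq A]

/-- The upper bound for the density. -/
theorem dens_prod_upper3 {B : ℕ → Finset β} {x : A → β → ℕ}
    (hp : ∀ a b, ∃ r, x a b = 3 ^ r)
    (hm : ∀ k : A → ℕ, MV B (fun b => ∏ a, (x a b : ℝ) ^ k a) (∏ a, (Nk3 (k a) : ℝ)))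
    {κ₀ : ℝ} (hκ : cinf3 ^ Fintype.card A < κ₀) (ε : ℝ) (hε : 0 < ε) :
    ∃ X₀ : ℕ, ∀ X : ℕ, X₀ ≤ X →
      (((B X).filter fun b => ∀ a, x a b = 1).card : ℝ) ≤ κ₀ * (B X).card + ε * X := by
  classical
  set n := Fintype.card A with hn
  have h2 : Tendsto (fun N : ℕ => 2 * N) atTop atTop :=
    tendsto_atTop_mono (fun N => by show N ≤ 2 * N; omega) tendsto_id
  have h4 := (tendsto_sK3.comp h2).pow n
  obtain ⟨N, hN⟩ := (h4.eventually (gt_mem_nhds hκ)).exists
  have heven : Even (2 * N) := ⟨N, by ring⟩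
  have hB : MV B (fun b => ∏ a, pK3 (2 * N) (x a b)) (sK3 (2 * N) ^ n) := by
    refine (MV_prod hm fun _ => 2 * N).congr (fun b => rfl) ?_
    rw [prod_const, card_univ]
  obtain ⟨X0, h0⟩ := hB ε hε
  refine ⟨X0, fun X hX => ?_⟩
  have h1 := (abs_le.1 (h0 X hX)).2
  have h3 : (((B X).filter fun b => ∀ a, x a b = 1).card : ℝ) ≤
      ∑ b ∈ B X, ∏ a, pK3 (2 * N) (x a b) := by
    rw [card_eq_sum_ones, sum_filter]
    push_cast
    refine sum_le_sum fun b _ => ?_
    have h5 : ∀ a, (if x a b = 1 then (1 : ℝ) else 0) ≤ pK3 (2 * N) (x a b) := by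
      intro a
      split_ifs with h
      · rw [h, Nat.cast_one, pK3_one]
      · obtain ⟨r, hr⟩ := hp a b
        have hr0 : r ≠ 0 := by
          intro h0
          rw [h0, pow_zero] at hr
          exact h hr
        rw [hr]
        push_cast
        exact (pK3_pow (2 * N) r hr0).2 heven
    have h6 : (if ∀ a, x a b = 1 then (1 : ℝ) else 0) = ∏ a, if x a b = 1 then (1 : ℝ) else 0 := by
      split_ifs with h
      · exact (prod_eq_one fun a _ => if_pos (h a)).symm
      · push Not at h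
        obtain ⟨a, ha⟩ := h
        exact (prod_eq_zero (mem_univ a) (if_neg ha)).symm
    rw [h6]
    exact prod_le_prod (fun a _ => by split_ifs <;> norm_num) fun a _ => h5 a
  have h7 := mul_le_mul_of_nonneg_right (le_of_lt hN) (Nat.cast_nonneg (α := ℝ) (B X).card)
  simp only [Function.comp_apply] at h7
  linarith

/-- **The joint density.** -/
theorem ind_prod3 [Nonempty A] {B : ℕ → Finset β} {x : A → β → ℕ}
    (hp : ∀ a b, ∃ r, x a b = 3 ^ r)
    (hm : ∀ k : A → ℕ, MV B (fun b => ∏ a, (x a b : ℝ) ^ k a) (∏ a, (Nk3 (k a) : ℝ))) :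
    Mn B (fun b => ∏ a, if x a b = 1 then (1 : ℝ) else 0) (cinf3 ^ Fintype.card A) := by
  classical
  intro δ hδ ε hε
  obtain ⟨X1, h1⟩ := dens_prod hp hm
    (show cinf3 ^ Fintype.card A - δ < cinf3 ^ Fintype.card A by linarith) ε hε
  obtain ⟨X2, h2⟩ := dens_prod_upper3 hp hm
    (show cinf3 ^ Fintype.card A < cinf3 ^ Fintype.card A + δ by linarith) ε hε
  refine ⟨max X1 X2, fun X hX => ?_⟩
  have h3 := h1 X ((le_max_left _ _).trans hX)
  have h4 := h2 X ((le_max_right _ _).trans hX)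
  have h5 : ∑ b ∈ B X, (∏ a, if x a b = 1 then (1 : ℝ) else 0) =
      (((B X).filter fun b => ∀ a, x a b = 1).card : ℝ) := by
    rw [card_eq_sum_ones, sum_filter]
    push_cast
    refine sum_congr rfl fun b _ => ?_
    split_ifs with h
    · exact prod_eq_one fun a _ => if_pos (h a)
    · push Not at h
      obtain ⟨a, ha⟩ := h
      exact prod_eq_zero (mem_univ a) (if_neg ha)
  rw [h5, abs_le]
  constructor <;> linarith

/-- The joint density for a part of the systems. -/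
theorem ind_sub3 {B : ℕ → Finset β} {x : A → β → ℕ}
    (hp : ∀ a b, ∃ r, x a b = 3 ^ r)
    (hm : ∀ k : A → ℕ, MV B (fun b => ∏ a, (x a b : ℝ) ^ k a) (∏ a, (Nk3 (k a) : ℝ)))
    (s : Finset A) (hs : s.Nonempty) :
    Mn B (fun b => ∏ a ∈ s, if x a b = 1 then (1 : ℝ) else 0) (cinf3 ^ s.card) := by
  classical
  have : Nonempty s := hs.to_subtype
  have h := ind_prod3 (A := s) (B := B) (x := fun a => x a.1) (fun a b => hp a.1 b) (fun k => by
    have h1 := hm fun a => if h : a ∈ s then k ⟨a, h⟩ else 0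
    refine h1.congr (fun b => ?_) ?_
    · rw [← prod_coe_sort s (fun a => (x a b : ℝ) ^ (if h : a ∈ s then k ⟨a, h⟩ else 0)) |>.trans
        (prod_subset (subset_univ s) fun a _ ha => by rw [dif_neg ha, pow_zero])]
      refine prod_congr rfl fun a _ => ?_
      rw [dif_pos a.2]
    · rw [← prod_coe_sort s (fun a => (Nk3 (if h : a ∈ s then k ⟨a, h⟩ else 0) : ℝ)) |>.trans
        (prod_subset (subset_univ s) fun a _ ha => by
          rw [dif_neg ha]
          simp [Nk3])]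
      refine prod_congr rfl fun a _ => ?_
      rw [dif_pos a.2])
  refine h.congr (fun X b _ => ?_) (by rw [Fintype.card_coe])
  exact (prod_coe_sort s fun a => if x a b = 1 then (1 : ℝ) else 0).symm

open Classical in
/-- **At least `t` of the blocks.** -/
theorem bin_prod3 {I : Type} [Fintype I] [DecidableEq I] {n : ℕ} (hn : 0 < n)
    {B : ℕ → Finset β} {x : I × Fin n → β → ℕ} (hp : ∀ a b, ∃ r, x a b = 3 ^ r)
    (hm : ∀ k : I × Fin n → ℕ, MV B (fun b => ∏ a, (x a b : ℝ) ^ k a) (∏ a, (Nk3 (k a) : ℝ)))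
    (t : ℕ) {κ₀ : ℝ} (hκ : κ₀ < bn (Fintype.card I) t (cinf3 ^ n)) (ε : ℝ) (hε : 0 < ε) :
    ∃ X₀ : ℕ, ∀ X : ℕ, X₀ ≤ X → κ₀ * ((B X).card : ℝ) - ε * X ≤
      (((B X).filter fun b => Atl t fun i => ∀ l, x (i, l) b = 1).card : ℝ) := by
  have hc0 := cinf3_pos
  have hc1 := cinf3_lt_one
  refine Mn.lower (F := fun i b => ∏ l : Fin n, if x (i, l) b = 1 then (1 : ℝ) else 0)
    (v := fun _ => cinf3 ^ n) (P := fun i b => ∀ l, x (i, l) b = 1)
    (fun i b => prod_nonneg fun l _ => by split_ifs <;> norm_num)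
    (fun i b => prod_le_one (fun l _ => by split_ifs <;> norm_num)
      fun l _ => by split_ifs <;> norm_num)
    (fun i b h => ?_) (fun J hJ => ?_) (pow_nonneg hc0.le n) (fun _ => le_rfl)
    (fun _ => pow_le_one₀ hc0.le hc1.le) t hκ ε hε
  · push Not at h
    obtain ⟨l, hl⟩ := h
    exact prod_eq_zero (mem_univ l) (if_neg hl)
  · have : Nonempty (Fin n) := ⟨⟨0, hn⟩⟩
    have h := ind_sub3 hp hm (J ×ˢ (univ : Finset (Fin n))) (hJ.product univ_nonempty)
    refine h.congr (fun X b _ => ?_) ?_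
    · rw [prod_product]
    · rw [prod_const, card_product, card_univ, Fintype.card_fin, ← pow_mul, mul_comm n]

end Dens

open Classical in
/-- **All the kernels of at least `t` blocks are minimal**, in every class. -/
theorem dens_PGb {I : Type} [Fintype I] [DecidableEq I] {N : ℕ} (hN : 0 < N)
    {ι : Type} [DecidableEq ι] {κ : Type} [Fintype κ] [DecidableEq κ]
    {E : I × Fin N → Type} [∀ a, Fintype (E a)] [∀ a, DecidableEq (E a)]
    {G : Type} [AddCommGroup G] [Fintype G] {D : Dt ι κ} {Z : ℕ → Finset (Finset ι)}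
    (hD : EngD D Z) (hM : MeanD D Z) {cl : ι → G} (hdi : DichJ D Z cl)
    {c : I × Fin N → κ → ZMod 3} (hc : Function.Injective c)
    {P : ∀ a, κ → E a → ZMod 3} {R : ∀ a, Matrix (E a) (E a) (ZMod 3)}
    (hR : ∀ a e f, R a e f = R a f e)
    (hP : ∀ a, ∀ x : E a → ZMod 3, (∀ j, ∑ e, P a j e * x e = 0) → x = 0) (γ : κ → ZMod 3)
    (g : G) (t : ℕ) {κ₀ : ℝ} (hκ : κ₀ < bn (Fintype.card I) t (cinf3 ^ N)) (ε : ℝ) (hε : 0 < ε) :
    ∃ X₀ : ℕ, ∀ X : ℕ, X₀ ≤ X →
      κ₀ * ((Cl cl g (SG D Z γ X)).card : ℝ) - ε * X ≤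
        ((Cl cl g (SG D Z γ X)).filter fun S => S ≠ ∅ ∧ Atl t fun i => ∀ l,
          D.kB (c (i, l)) (P (i, l)) (R (i, l)) S = tP c P R γ (i, l)).card := by
  obtain ⟨X0, h0⟩ := bin_prod3 hN (B := fun X => Cl cl g (SG D Z γ X))
    (x := fun a S => xP D c P R γ a S)
    (fun a S => xP_pow D c P R _ a S) (mom_xPG hD hM hdi hc hR hP γ g) t hκ (ε / 2) (by positivity)
  obtain ⟨X1, hX1⟩ := exists_nat_gt (2 / ε)
  refine ⟨X0 + X1, fun X hX => ?_⟩
  have h1 := h0 X ((Nat.le_add_right _ _).trans hX)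
  have h2 : (1 : ℝ) ≤ ε / 2 * X := by
    have h4 : (X1 : ℝ) ≤ X := by exact_mod_cast (Nat.le_add_left _ _).trans hX
    have h5 := hX1.le.trans h4
    rw [div_le_iff₀ hε] at h5
    linarith
  have h4 : (Cl cl g (SG D Z γ X)).filter
      (fun S => Atl t fun i => ∀ l, xP D c P R γ (i, l) S = 1) ⊆
      insert ∅ ((Cl cl g (SG D Z γ X)).filter fun S => S ≠ ∅ ∧ Atl t fun i => ∀ l,
        D.kB (c (i, l)) (P (i, l)) (R (i, l)) S = tP c P R γ (i, l)) := by
    intro S hS'
    rw [mem_filter] at hS'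
    rw [mem_insert, mem_filter]
    by_cases h : S = ∅
    · exact Or.inl h
    · refine Or.inr ⟨hS'.1, h, hS'.2.mono fun i hi l => ?_⟩
      rw [xP_mul (mem_Cl.1 hS'.1).1 h (i, l), hi l, mul_one]
  have h5 := (card_le_card h4).trans (card_insert_le _ _)
  have h6 : (((Cl cl g (SG D Z γ X)).filter
      (fun S => Atl t fun i => ∀ l, xP D c P R γ (i, l) S = 1)).card : ℝ) ≤
      ((Cl cl g (SG D Z γ X)).filter fun S => S ≠ ∅ ∧ Atl t fun i => ∀ l,
        D.kB (c (i, l)) (P (i, l)) (R (i, l)) S = tP c P R γ (i, l)).card + 1 := by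
    exact_mod_cast h5
  linarith

end

end Pool.Agent.Lib.MP_1a91b9_ntZ
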