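import Pool.Agent.Lib.MP_1a91b9_ntN.H.GdJ
import Pool.Agent.Lib.MP_1a91b9_ntZ.C3Dens

/-!
# MP_1a91b9_nt (the binomial law), cubic twists: the sets of primes which are good for at least `t` blocks of
labels
-/

set_option autoImplicit false
set_option linter.unusedSectionVars false

namespace Pool.Agent.Lib.MP_1a91b9_ntZ

open NumberField Finset Pool.Agent.Lib.MP_1a91b9_ntT Pool.Agent.Lib.MP_1a91b9_ntK
  Pool.Agent.Lib.MP_1a91b9_ntK.Da Pool.Agent.Lib.MP_1a91b9_ntK2 Pool.Agent.Lib.MP_1a91b9_ntK2.D9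
  Pool.Agent.Lib.MP_1a91b9_ntN Pool.Agent.Lib.MP_1a91b9_ntN.H
open Pool.Agent.Lib.MP_1a91b9_ntH (PS nm Sx mem_Sx)
open Pool.Agent.Lib.MP_1a91b9_ntS3.G (G9 c9 dich3_9)

noncomputable section

variable {I : Type} [Fintype I] [DecidableEq I]

/-- **The sets of primes which are good for at least `t` blocks of labels, in a fine class.** -/
theorem gd_fineGb (n : ℕ) {N : ℕ} (hN : 0 < N) (k j : I × Fin N → Fin 3)
    (P T : I × Fin N → Finset P3) {B : Finset P3}
    (hP : ∀ a, P a ⊆ B) (hT : ∀ a, T a ⊆ B) (hPT : ∀ a, Disjoint (P a) (T a))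
    (hinj : Function.Injective fun a => (k a, j a, P a, T a)) (γ : Bool ⊕ B → ZMod 3) (g : G9 n)
    (t : ℕ) {κ₀ : ℝ} (hκ : κ₀ < bn (Fintype.card I) t (cinf3 ^ N)) (ε : ℝ) (hε : 0 < ε) :
    ∃ X₀ : ℕ, ∀ X : ℕ, X₀ ≤ X →
      κ₀ * ((Cl (c9 n) g (SG (dtB d3b B) (SxT B) γ X)).card : ℝ) - ε * X ≤
        ((sgG n g B γ (fun S => Atl t fun i => ∀ l,
          Gd9 (k (i, l)) (j (i, l)) (S ∪ P (i, l)) (T (i, l))) X).card : ℝ) := by
  classical
  let _ : Fintype (G9 n) := Fintype.ofFinite _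
  -- the classes of the labels
  set αa : I × Fin N → ZMod 3 := fun a => γ (Sum.inl false) +
    ∑ p ∈ P a ∪ T a, eT (T a) p * d3b.a p with hαa
  set βa : I × Fin N → ZMod 3 := fun a => γ (Sum.inl true) +
    ∑ p ∈ P a ∪ T a, eT (T a) p * d3b.b p with hβa
  set pr : I × Fin N → Prop := fun a => j a = 1 ∨ (j a = 0 ∧ k a = 0 ∧ αa a = 0) with hpr
  set κa : I × Fin N → ZMod 3 := fun a => if j a = 1 then (k a : ZMod 3) else βa a with hκa
  have hB : ∀ a, P a ∪ T a ⊆ B := fun a => union_subset (hP a) (hT a)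
  obtain ⟨X₀, h0⟩ := dens_PGb hN (E := fun a => ↥(P a ∪ T a) ⊕ {_u : Unit // pr a})
    (eng_dtB d3b_OK card_P3 B) (mean_dtB d3b_OK B)
    (dichJ_dtB d3b_OK card_P3 B (dich3_9 n))
    (c := fun a => cJ (eT (T a)) (k a : ZMod 3) (j a : ZMod 3) B (P a ∪ T a))
    (fun a b hab => by
      obtain ⟨h1, h2, h3, h4⟩ := cJ_inj (hP a) (hT a) (hP b) (hT b) (hPT a) (hPT b) hab
      exact hinj (by
        show (k a, j a, P a, T a) = (k b, j b, P b, T b)
        rw [show k a = k b from h1, show j a = j b from h2, h3, h4]))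
    (P := fun a => PJ (eT (T a)) B (P a ∪ T a) {_u : Unit // pr a})
    (R := fun a => RJ d3b (eT (T a)) (k a : ZMod 3) (j a : ZMod 3) (κa a) B (P a ∪ T a)
      {_u : Unit // pr a} γ)
    (fun a => RJ_symm d3b_OK.ok.sym γ)
    (fun a => PJ_inj (eT_mul _) (hB a) fun u u' => Subsingleton.elim _ _) γ g t hκ ε hε
  refine ⟨X₀, fun X hX => (h0 X hX).trans ?_⟩
  rw [Nat.cast_le]
  refine card_le_card fun S hS => ?_
  rw [mem_filter] at hS
  rw [mem_sgG]
  obtain ⟨hS0, hS2, hS3⟩ := hS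
  have hS1 := (mem_Cl.1 hS0).1
  obtain ⟨hS4, hS5⟩ := mem_SG.1 hS1
  have key : ∀ a : I × Fin N,
      (dtB d3b B).kB (cJ (eT (T a)) (k a : ZMod 3) (j a : ZMod 3) B (P a ∪ T a))
        (PJ (eT (T a)) B (P a ∪ T a) {_u : Unit // pr a})
        (RJ d3b (eT (T a)) (k a : ZMod 3) (j a : ZMod 3) (κa a) B (P a ∪ T a)
          {_u : Unit // pr a} γ) S =
        tP (E := fun a => ↥(P a ∪ T a) ⊕ {_u : Unit // pr a})
          (fun a => cJ (eT (T a)) (k a : ZMod 3) (j a : ZMod 3) B (P a ∪ T a))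
          (fun a => PJ (eT (T a)) B (P a ∪ T a) {_u : Unit // pr a})
          (fun a => RJ d3b (eT (T a)) (k a : ZMod 3) (j a : ZMod 3) (κa a) B (P a ∪ T a)
            {_u : Unit // pr a} γ) γ a → Gd9 (k a) (j a) (S ∪ P a) (T a) := by
    intro a hk
    have hSB : Disjoint S B := (mem_SxT.1 hS4).2
    have hSb : Disjoint S (P a ∪ T a) := disjoint_of_subset_right (hB a) hSB
    have hST : Disjoint S (T a) := disjoint_of_subset_right (hT a) hSB
    have hd : Disjoint (S ∪ P a) (T a) := disjoint_union_left.2 ⟨hST, hPT a⟩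
    have hU : S ∪ P a ∪ T a = S ∪ (P a ∪ T a) := union_assoc _ _ _
    have he1 : ∀ q ∈ S, eT (T a) q = 1 := fun q hq => if_neg (disjoint_left.1 hST hq)
    have hγ : ∀ p ∈ P a ∪ T a, xB B γ p = ∑ q ∈ S, d3b.s q p := by
      intro p hp
      rw [xB, dif_pos (hB a hp), ← hS5]
      rfl
    have hα : ∑ q ∈ S ∪ P a ∪ T a, eT (T a) q * d3b.a q = αa a := by
      rw [hU, sum_union hSb, hαa]
      congr 1
      rw [← hS5]
      exact sum_congr rfl fun q hq => by
        rw [he1 q hq, one_mul]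
        rfl
    have hβ : ∑ q ∈ S ∪ P a ∪ T a, eT (T a) q * d3b.b q = βa a := by
      rw [hU, sum_union hSb, hβa]
      congr 1
      rw [← hS5]
      exact sum_congr rfl fun q hq => by
        rw [he1 q hq, one_mul]
        rfl
    have hα' : cl3 (DD3 (S ∪ P a) * DD3 (T a) ^ 2) = αa a := by
      rw [← cls_a hd, ← hα]
      rfl
    have hβ' : cn3 (DD3 (S ∪ P a) * DD3 (T a) ^ 2) = βa a := by
      rw [← cls_b hd, ← hβ]
      rfl
    have hne : (S ∪ P a ∪ T a).Nonempty := by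
      rw [hU]
      exact (nonempty_iff_ne_empty.2 hS2).mono subset_union_left
    rw [Gd9, hα', hβ']
    rcases fin3_cases (j a) with hj | hj | hj
    · by_cases hka : k a = 0
      · by_cases hα0 : αa a = 0
        · -- the hard class
          have hp : pr a := Or.inr ⟨hj, hka, hα0⟩
          let _ : Unique {_u : Unit // pr a} := ⟨⟨⟨(), hp⟩⟩, fun u => Subsingleton.elim _ _⟩
          have h1 : d3b.kB (eT (T a)) (k a : ZMod 3) (j a : ZMod 3) (κa a) (S ∪ (P a ∪ T a)) = 3 := by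
            have e0 := kB_bordered (τ := (k a : ZMod 3)) (σ := (j a : ZMod 3)) (κ₀ := κa a) d3b_OK.ok.sym
              (eT_mul _) he1 (hB a) hSb {_u : Unit // pr a} hγ
            refine e0.symm.trans (hk.trans ?_)
            rw [tP, if_pos]
            simp only [hka, hj]
            exact triv_zero (hB a) fun _ => hα0
          have hκ' : κa a = βa a := by
            rw [hκa]
            exact if_neg (by rw [hj]; exact f3_01)
          refine Or.inr (Or.inl ⟨hj, hka, hα0, hne, ?_⟩)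
          rw [hκ', hka, hj] at h1
          show d3b.kB (eT (T a)) 0 0 (βa a) (S ∪ P a ∪ T a) = 3
          rw [hU]
          exact h1
        · -- the Laplacian
          have hp : ¬ pr a := by
            rintro (h | ⟨_, _, h⟩)
            · rw [hj] at h
              exact absurd h f3_01
            · exact hα0 h
          have hE : IsEmpty {_u : Unit // pr a} := ⟨fun u => hp u.2⟩
          have h1 : (d3b.tw (k a : ZMod 3) (j a : ZMod 3)).kc (eT (T a)) 1 (S ∪ (P a ∪ T a)) = 3 := by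
            refine (kB_unbordered (κ₀ := κa a) d3b_OK.ok.sym (eT_mul _) he1 (hB a) hSb
              {_u : Unit // pr a} hγ).symm.trans (hk.trans ?_)
            rw [tP, if_pos]
            simp only [hka, hj]
            exact triv_zero (hB a) fun u => (hE.false u).elim
          refine Or.inl ⟨hj, Or.inr ⟨hka, ?_, ?_⟩⟩
          · have h2 : ∑ q ∈ S ∪ P a ∪ T a, eT (T a) q * d3.a q = αa a := hα
            rw [h2]
            exact hα0
          · rw [hka, hj] at h1
            have h2 := d3_kc 0 (eT (T a)) (S ∪ (P a ∪ T a))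
            rw [hU, ← h2]
            exact h1
      · -- `k ≠ 0`, `j = 0`
        have hp : ¬ pr a := by
          rintro (h | ⟨_, h, _⟩)
          · rw [hj] at h
            exact absurd h f3_01
          · exact hka h
        have hE : IsEmpty {_u : Unit // pr a} := ⟨fun u => hp u.2⟩
        have h1 : (d3b.tw (k a : ZMod 3) (j a : ZMod 3)).kc (eT (T a)) 1 (S ∪ (P a ∪ T a)) = 1 := by
          refine (kB_unbordered (κ₀ := κa a) d3b_OK.ok.sym (eT_mul _) he1 (hB a) hSb
            {_u : Unit // pr a} hγ).symm.trans (hk.trans ?_)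
          exact if_neg (not_triv_t hka hE _ γ)
        refine Or.inl ⟨hj, Or.inl ⟨hka, ?_⟩⟩
        rw [hj] at h1
        have h2 := det_of_ker _ h1
        have h3 := N_tw (k a : ZMod 3) (eT (T a)) (S ∪ (P a ∪ T a))
        rw [hU, ← h3]
        exact h2
    · -- `j = 1`
      have hp : pr a := Or.inl hj
      let _ : Unique {_u : Unit // pr a} := ⟨⟨⟨(), hp⟩⟩, fun u => Subsingleton.elim _ _⟩
      have h1 : d3b.kB (eT (T a)) (k a : ZMod 3) (j a : ZMod 3) (κa a) (S ∪ (P a ∪ T a)) = 1 := by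
        have e0 := kB_bordered (τ := (k a : ZMod 3)) (σ := (j a : ZMod 3)) (κ₀ := κa a) d3b_OK.ok.sym
          (eT_mul _) he1 (hB a) hSb {_u : Unit // pr a} hγ
        refine e0.symm.trans (hk.trans ?_)
        exact if_neg (not_triv_s (by rw [hj]; exact z3_one) _ γ)
      have hκ' : κa a = k a := by
        rw [hκa]
        exact if_pos hj
      refine Or.inr (Or.inr (Or.inl ⟨hj, ?_⟩))
      rw [hκ', hj] at h1
      have h2 := det_of_ker _ h1
      show (d3b.NB (eT (T a)) (k a : ZMod 3) 1 (k a : ZMod 3) (S ∪ P a ∪ T a)).det ≠ 0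
      rw [hU]
      exact h2
    · -- `j = 2`
      have hp : ¬ pr a := by
        rintro (h | ⟨h, _, _⟩)
        · rw [hj] at h
          exact absurd h f3_21
        · rw [hj] at h
          exact absurd h f3_20
      have hE : IsEmpty {_u : Unit // pr a} := ⟨fun u => hp u.2⟩
      have h1 : (d3b.tw (k a : ZMod 3) (j a : ZMod 3)).kc (eT (T a)) 1 (S ∪ (P a ∪ T a)) = 1 := by
        refine (kB_unbordered (κ₀ := κa a) d3b_OK.ok.sym (eT_mul _) he1 (hB a) hSb
          {_u : Unit // pr a} hγ).symm.trans (hk.trans ?_)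
        exact if_neg (not_triv_s (by rw [hj]; exact z3_two) _ γ)
      refine Or.inr (Or.inr (Or.inr ⟨hj, ?_⟩))
      rw [hj] at h1
      have h2 := det_of_ker _ h1
      show ((d3b.tw (k a : ZMod 3) 2).N (eT (T a)) 1 (S ∪ P a ∪ T a)).det ≠ 0
      rw [hU]
      exact h2
  exact ⟨hS0, hS3.mono fun i hi l => key (i, l) (hi l)⟩

/-! ### The sum over the fine classes -/

open Classical in
/-- The joint density of the sets of primes which are good for at least `t` blocks of labels. -/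
def DSJGb (n : ℕ) : Prop := ∀ (I : Type) [Fintype I] [DecidableEq I] (N : ℕ), 0 < N →
  ∀ (k j : I × Fin N → Fin 3) (P T : I × Fin N → Finset P3)
  (B : Finset P3), (∀ i, P i ⊆ B) → (∀ i, T i ⊆ B) → (∀ i, Disjoint (P i) (T i)) →
  Function.Injective (fun i => (k i, j i, P i, T i)) → ∀ (g : G9 n) (t : ℕ) (κ₀ : ℝ),
  κ₀ < bn (Fintype.card I) t (Da.cinf3 ^ N) → ∀ ε : ℝ, 0 < ε → ∃ X₀ : ℕ, ∀ X : ℕ, X₀ ≤ X →
    κ₀ * (((Sx P3 X).filter fun S => Disjoint S B ∧ ∑ q ∈ S, c9 n q = g).card : ℝ) - ε * X ≤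
    (((Sx P3 X).filter fun S => Disjoint S B ∧ ∑ q ∈ S, c9 n q = g ∧ Atl t fun i => ∀ l,
      Gd9 (k (i, l)) (j (i, l)) (S ∪ P (i, l)) (T (i, l))).card : ℝ)

/-- **At least `t` blocks, in the classes modulo a power of three.** -/
theorem dsjGb (n : ℕ) : DSJGb n := by
  classical
  intro I _ _ N hN k j P T B hP hT hPT hinj g t κ₀ hκ ε hε
  have hM : (0 : ℝ) < Fintype.card (Bool ⊕ B → ZMod 3) := by exact_mod_cast Fintype.card_pos
  choose X0 h0 using fun γ : Bool ⊕ B → ZMod 3 =>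
    gd_fineGb n hN k j P T hP hT hPT hinj γ g t hκ
      (ε / Fintype.card (Bool ⊕ B → ZMod 3)) (by positivity)
  refine ⟨∑ γ, X0 γ, fun X hX => ?_⟩
  have hXt : ∀ γ, X0 γ ≤ X := fun γ =>
    (single_le_sum (fun _ _ => Nat.zero_le _) (mem_univ γ)).trans hX
  have e1 : ((Sx P3 X).filter fun S => Disjoint S B ∧ ∑ q ∈ S, c9 n q = g) =
      clG n g B (fun _ => True) X := by
    ext S
    rw [mem_filter, mem_clG, mem_SxT]
    tauto
  have e2 : ((Sx P3 X).filter fun S => Disjoint S B ∧ ∑ q ∈ S, c9 n q = g ∧ Atl t fun i => ∀ l,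
      Gd9 (k (i, l)) (j (i, l)) (S ∪ P (i, l)) (T (i, l))) =
      clG n g B (fun S => Atl t fun i => ∀ l,
        Gd9 (k (i, l)) (j (i, l)) (S ∪ P (i, l)) (T (i, l))) X := by
    ext S
    rw [mem_filter, mem_clG, mem_SxT]
    tauto
  have e3 : ((clG n g B (fun _ => True) X).card : ℝ) =
      ∑ γ : Bool ⊕ B → ZMod 3, ((Cl (c9 n) g (SG (dtB d3b B) (SxT B) γ X)).card : ℝ) := by
    rw [card_fineG, Nat.cast_sum]
    refine sum_congr rfl fun γ _ => ?_
    congr 2
    ext S
    rw [mem_sgG]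
    exact ⟨fun h => h.1, fun h => ⟨h, trivial⟩⟩
  rw [e1, e2, e3, card_fineG, Nat.cast_sum, mul_sum]
  have h1 : ∑ γ : Bool ⊕ B → ZMod 3, (κ₀ * ((Cl (c9 n) g (SG (dtB d3b B) (SxT B) γ X)).card : ℝ) -
      ε / Fintype.card (Bool ⊕ B → ZMod 3) * X) ≤
      ∑ γ : Bool ⊕ B → ZMod 3,
        ((sgG n g B γ (fun S => Atl t fun i => ∀ l,
          Gd9 (k (i, l)) (j (i, l)) (S ∪ P (i, l)) (T (i, l))) X).card : ℝ) :=
    sum_le_sum fun γ _ => h0 γ X (hXt γ)
  rw [sum_sub_distrib, sum_const, nsmul_eq_mul, card_univ] at h1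
  have h2 : (Fintype.card (Bool ⊕ B → ZMod 3) : ℝ) *
      (ε / Fintype.card (Bool ⊕ B → ZMod 3) * X) = ε * X := by field_simp
  linarith

end

end Pool.Agent.Lib.MP_1a91b9_ntZ
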