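import Pool.Agent.Lib.MP_1a91b9_ntN.H.Den
import Pool.Agent.Lib.MP_1a91b9_ntZ.C3Gd

/-!
# MP_1a91b9_nt (the binomial law), cubic twists: the density of the cube-free `D` for which all the twists of at
least `t` blocks are good
-/

set_option autoImplicit false

namespace Pool.Agent.Lib.MP_1a91b9_ntN.H

open NumberField Finset Pool.Agent.Lib.MP_1a91b9_ntT Pool.Agent.Lib.MP_1a91b9_ntK
  Pool.Agent.Lib.MP_1a91b9_ntK2 Pool.Agent.Lib.MP_1a91b9_ntK2.D9
  Pool.Agent.Lib.MP_1a91b9_ntZ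
open Pool.Agent.Lib.MP_1a91b9_ntH (wO s3 Nz Sx prime_s3)
open Pool.Agent.Lib.MP_1a91b9_ntS3.G (G9 c9 Q9 toI IdG density_allG hR_cls exists_cfG_class cl3_sP
  cn3_sP)

noncomputable section

theorem dsc_ofb {n : ℕ} {I : Type} [Fintype I] [DecidableEq I] {N : ℕ} (hN : 0 < N)
    (k j : I × Fin N → Fin 3) (P T : I × Fin N → Finset P3)
    (B : Finset P3) (hP : ∀ i, P i ⊆ B) (hT : ∀ i, T i ⊆ B) (hd : ∀ i, Disjoint (P i) (T i))
    (hinj : Function.Injective (fun i => (k i, j i, P i, T i))) (g : G9 n) (t : ℕ) {κ₀ : ℝ}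
    (hκ : κ₀ < bn (Fintype.card I) t (Da.cinf3 ^ N)) : DSC B g κ₀ fun S => Atl t fun i => ∀ l,
      Gd9 (k (i, l)) (j (i, l)) (S ∪ P (i, l)) (T (i, l)) := by
  classical
  intro ε hε
  obtain ⟨X₀, h0⟩ := dsjGb n I N hN k j P T B hP hT hd hinj g t κ₀ hκ ε hε
  refine ⟨X₀, fun X hX => (h0 X hX).trans (le_of_eq ?_)⟩
  congr 2

/-- the element is a good element times a cube -/
def GdE (x : 𝓞 K) : Prop := ∃ (b : Bool) (k j : Fin 3) (S T : Finset P3) (s : 𝓞 K),
  Disjoint S T ∧ s ≠ 0 ∧ x = pf b k j (DD3 S * DD3 T ^ 2) * s ^ 3 ∧ Gd9 k j S T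

/-- **The density of the cube-free `D` for which all the twists by the elements of at least `t` blocks are
good.** -/
theorem den_allGb {n : ℕ} {I : Type} [Fintype I] [DecidableEq I] {N : ℕ} (hN : 0 < N)
    (a : I × Fin N → 𝓞 K) (hne : ∀ l, a l ≠ 0)
    (hdis : ∀ l l', l ≠ l' → ¬ ∃ y : K, y ^ 3 * (a l' : K) = a l)
    {m u : 𝓞 K} (hm : m ∣ Q9 n) (hu : ¬ (s3 ^ 3 ∣ m ∧ s3 ^ 3 ∣ u)) (t : ℕ)
    (Pr : 𝓞 K → Prop)
    (hPr : ∀ D : 𝓞 K, CF D → (Atl t fun i => ∀ l : Fin N, GdE (a (i, l) * D)) → Pr D)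
    (ε : ℝ) (hε : 0 < ε) :
    ∀ᶠ X : ℝ in Filter.atTop,
      bn (Fintype.card I) t ((∏' i : ℕ, (1 + 1 / (3 : ℝ) ^ (i + 1))⁻¹) ^ N) - ε ≤
      (Nat.card {x : 𝓞 K // (∀ p, Prime p → ¬ p ^ 3 ∣ x) ∧ m ∣ x - u ∧ |Algebra.norm ℤ x| ≤ X ∧
          Pr x} : ℝ) /
        (Nat.card {x : 𝓞 K // (∀ p, Prime p → ¬ p ^ 3 ∣ x) ∧ m ∣ x - u ∧
          |Algebra.norm ℤ x| ≤ X} : ℝ) := by
  classical
  rw [cinf3_form]
  obtain ⟨v, hv⟩ : ∃ v, v = bn (Fintype.card I) t (Da.cinf3 ^ N) := ⟨_, rfl⟩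
  rw [← hv]
  rcases le_or_gt (v - ε) 0 with hv0 | hv0
  · exact Filter.Eventually.of_forall fun X => hv0.trans (by positivity)
  have h1 : ∀ i, ∃ (b : Bool) (k j : Fin 3) (P V : Finset P3) (s : 𝓞 K), Disjoint P V ∧ s ≠ 0 ∧
      a i = pf b k j (DD3 P * DD3 V ^ 2) * s ^ 3 :=
    fun i => exists_sf (a i) (hne i)
  choose bb kk jk P V s hPV hs hT using h1
  obtain ⟨B₀, hB₀⟩ : ∃ B : Finset P3, B = univ.biUnion fun i => P i ∪ V i := ⟨_, rfl⟩
  have hPB : ∀ i, P i ⊆ B₀ := fun i => by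
    rw [hB₀]
    exact subset_union_left.trans (subset_biUnion_of_mem (fun i => P i ∪ V i) (mem_univ i))
  have hVB : ∀ i, V i ⊆ B₀ := fun i => by
    rw [hB₀]
    exact subset_union_right.trans (subset_biUnion_of_mem (fun i => P i ∪ V i) (mem_univ i))
  have hinj : ∀ i i', kk i = kk i' → jk i = jk i' → P i = P i' → V i = V i' → i = i' := by
    intro i i' e1 e2 e3 e4
    by_contra hii
    apply hdis i i' hii
    obtain ⟨t, ht, h2⟩ := pf_sgn (bb i) (bb i') (kk i) (jk i) (DD3 (P i) * DD3 (V i) ^ 2)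
    have hs0 : ((s i' : 𝓞 K) : K) ≠ 0 := by exact_mod_cast hs i'
    refine ⟨((t * s i : 𝓞 K) : K) / ((s i' : 𝓞 K) : K), ?_⟩
    have h3 : (t * s i) ^ 3 * a i' = a i * (s i') ^ 3 := by
      rw [hT i, hT i', ← e1, ← e2, ← e3, ← e4, h2]
      ring
    have h4 : ((t * s i : 𝓞 K) : K) ^ 3 * ((a i' : 𝓞 K) : K) =
        ((a i : 𝓞 K) : K) * ((s i' : 𝓞 K) : K) ^ 3 := by exact_mod_cast h3
    rw [div_pow, div_mul_eq_mul_div, h4, mul_div_assoc, div_self (pow_ne_zero 3 hs0), mul_one]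
  obtain ⟨κ, hκ1, hκ2⟩ : ∃ κ : ℝ, v - ε < κ ∧ κ < v := exists_between (by linarith)
  have key := density_allG n (fun x => m ∣ x - u) (fun i y y' _ _ h9 => hR_cls hm i y y' h9)
    (exists_cfG_class hm hu) κ (v - ε) (hv0.le.trans hκ1.le) hκ1
    (fun i S T => Atl t fun i' => ∀ l : Fin N,
      GdE (a (i', l) * ph (toI i) (DD3 S * DD3 T ^ 2)))
    (fun i T η hη => ?_) Pr (fun i S T hST hs1 hG => ?_)
  · filter_upwards [key] with X hX
    simp only [CF_iff] at hX
    exact hX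
  · refine fam_of_DSC (fun g => ?_) η hη
    have hTB : T ⊆ B₀ ∪ T := subset_union_right
    refine DS_of_DSC hTB g fun B' hB' g' => ?_
    have hB'T : Disjoint B' T := disjoint_of_subset_left hB' sdiff_disjoint
    rw [hv] at hκ2
    refine (dsc_ofb hN (fun l => i.2.1 + kk l) (fun l => i.2.2.1 + jk l)
      (fun l => (B₀ ∪ T).filter fun q => ez B' T q + ez (P l) (V l) q = 1)
      (fun l => (B₀ ∪ T).filter fun q => ez B' T q + ez (P l) (V l) q = 2) (B₀ ∪ T)
      (fun l => filter_subset _ _) (fun l => filter_subset _ _) (fun l => ?_) (fun l l' h => ?_)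
      g' t hκ2).mono ?_
    · rw [disjoint_filter]
      intro q _ h1 h2
      rw [h1] at h2
      exact absurd h2 (by decide)
    · simp only [Prod.mk.injEq] at h
      obtain ⟨e1, e2, e3, e4⟩ := h
      have e5 : ∀ q ∈ B₀ ∪ T, ez (P l) (V l) q = ez (P l') (V l') q := by
        intro q hq
        have h1 : ez B' T q + ez (P l) (V l) q = ez B' T q + ez (P l') (V l') q := by
          refine z3_ext ?_ ?_
          · have h2 := Finset.ext_iff.1 e3 q
            simp only [mem_filter, hq, true_and] at h2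
            exact h2
          · have h2 := Finset.ext_iff.1 e4 q
            simp only [mem_filter, hq, true_and] at h2
            exact h2
        exact add_left_cancel h1
      refine hinj l l' (add_left_cancel e1) (add_left_cancel e2) ?_ ?_
      · ext q
        constructor
        · intro h1
          have h2 := e5 q (mem_union_left _ (hPB l h1))
          rw [ez_eq_one.2 h1] at h2
          exact ez_eq_one.1 h2.symm
        · intro h1
          have h2 := e5 q (mem_union_left _ (hPB l' h1))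
          rw [ez_eq_one.2 h1] at h2
          exact ez_eq_one.1 h2
      · ext q
        constructor
        · intro h1
          have h2 := e5 q (mem_union_left _ (hVB l h1))
          rw [(ez_eq_two (hPV l)).2 h1] at h2
          exact (ez_eq_two (hPV l')).1 h2.symm
        · intro h1
          have h2 := e5 q (mem_union_left _ (hVB l' h1))
          rw [(ez_eq_two (hPV l')).2 h1] at h2
          exact (ez_eq_two (hPV l)).1 h2
    · intro S hS _ hG
      refine hG.mono fun i' hi' l' => ?_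
      obtain ⟨l, hl⟩ : ∃ l : I × Fin N, l = (i', l') := ⟨_, rfl⟩
      have hG' := hi' l'
      rw [← hl] at hG' ⊢
      obtain ⟨t₀, ht₀, h2⟩ := pair_mul hTB hB' ((hPB l).trans subset_union_left)
        ((hVB l).trans subset_union_left) (hPV l) hS
      obtain ⟨t, ht, h3⟩ := pf_mul i.1 (bb l) i.2.1 (kk l) i.2.2.1 (jk l) ht₀ h2
      refine ⟨i.1, i.2.1 + kk l, i.2.2.1 + jk l, _, _, t * s l, ?_, mul_ne_zero ht (hs l), ?_, hG'⟩
      · rw [disjoint_union_left]
        refine ⟨disjoint_of_subset_right (filter_subset _ _) hS, ?_⟩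
        rw [disjoint_filter]
        intro q _ h4 h5
        rw [h4] at h5
        exact absurd h5 (by decide)
      · rw [show ph (toI i) (DD3 (B' ∪ S) * DD3 T ^ 2) =
          pf i.1 i.2.1 i.2.2.1 (DD3 (B' ∪ S) * DD3 T ^ 2) from rfl, hT l]
        linear_combination (s l) ^ 3 * h3
  · have hα : cl3 (DD3 S * DD3 T ^ 2) = (toI i).2.2.2.1 := by
      rw [cl3_sP (n := n), hs1]
      rfl
    have hβ : cn3 (DD3 S * DD3 T ^ 2) = (toI i).2.2.2.2 := by
      rw [cn3_sP (n := n), hs1]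
      rfl
    exact hPr _ (ph_cf ⟨prm3.pp_cf hST, in3_pair S T, hα, hβ⟩) hG

end

end Pool.Agent.Lib.MP_1a91b9_ntN.H
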