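import Pool.Agent.Lib.MP_1a91b9_ntZ.C3Den
import Pool.Agent.Lib.MP_1a91b9_ntJ.CubA

/-!
# MP_1a91b9_nt (the binomial law), cubic twists: the rank part over the extensions of `ℚ(√-3)` generated by cube
roots, for at least `t` of the curves `y² + α δ d y = x³`, `δ` in `Δ`
-/

set_option autoImplicit false

namespace Pool.Agent.Lib.MP_1a91b9_ntZ

open NumberField IsDedekindDomain Finset WeierstrassCurve Pool.Agent.Lib.MP_1a91b9_ntN.H
open Pool.Agent.Lib.MP_1a91b9_ntN (MCT chain3 Wt_good lfree_iff norm_ringEquiv adjoin_top)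
open Pool.Agent.Lib.MP_1a91b9_ntH (s3 prime_s3)

/-- the rank part for one curve -/
def Rk {F : Type} [Field F] [NumberField F] (W : WeierstrassCurve F) : Prop :=
  (∃ g : ℂ → ℂ, Differentiable ℂ g ∧ (∀ s : ℂ, 3 / 2 < s.re → g s = W.LSeries s) ∧
    g 1 ≠ 0) ∧ Finite W.toAffine.Point

open Classical in
/-- at least `t` elements of `Δ` have the property `P` -/
def AtF {A : Type} (Δ : Finset A) (t : ℕ) (P : A → Prop) : Prop := t ≤ (Δ.filter P).card

theorem AtF.mono {A : Type} {Δ : Finset A} {t : ℕ} {P Q : A → Prop}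
    (h : ∀ δ ∈ Δ, P δ → Q δ) (hP : AtF Δ t P) : AtF Δ t Q := by
  classical
  refine hP.trans (card_le_card fun δ hδ => ?_)
  rw [mem_filter] at hδ ⊢
  exact ⟨hδ.1, h δ hδ.1 hδ.2⟩

theorem AtF.congr {A : Type} {Δ : Finset A} {t : ℕ} {P Q : A → Prop}
    (h : ∀ δ ∈ Δ, (P δ ↔ Q δ)) : AtF Δ t P ↔ AtF Δ t Q :=
  ⟨AtF.mono fun δ hδ => (h δ hδ).1, AtF.mono fun δ hδ => (h δ hδ).2⟩

theorem AtF_of_Atl {A : Type} {Δ : Finset A} {t : ℕ} {P : Δ → Prop} {Q : A → Prop}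
    (h : ∀ i : Δ, P i → Q i.1) (hP : Atl t P) : AtF Δ t Q := by
  classical
  refine hP.trans (card_le_card_of_injOn (fun i => i.1) (fun i hi => ?_)
    fun i _ j _ h => Subtype.ext h)
  rw [mem_coe, mem_filter] at hi ⊢
  exact ⟨i.2, h i hi.2⟩

theorem AtF_map {A B : Type} (f : A ≃ B) (Δ : Finset A) (t : ℕ) (P : B → Prop) :
    AtF (Δ.map f.toEmbedding) t P ↔ AtF Δ t fun a => P (f a) := by
  classical
  unfold AtF
  rw [filter_map, card_map]
  exact Iff.rfl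

/-- the elements of `Δ` are different modulo cubes in `F` -/
def Sep3 {K : Type} [Field K] [NumberField K] (F : Type) [Field F] [Algebra K F]
    (Δ : Finset (𝓞 K)) : Prop :=
  ∀ δ ∈ Δ, ∀ δ' ∈ Δ, δ ≠ δ' → ∀ x : F, x ≠ 0 →
    x ^ 3 * algebraMap K F (δ' : K) ≠ algebraMap K F (δ : K)

/-- the statement over `K` for the cubic twists of `y² + α y = x³`, for the classes `M` -/
def KB (K : Type) [Field K] [NumberField K] (α : 𝓞 K) (M : 𝓞 K → 𝓞 K → Prop) : Prop :=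
  ∀ (F : Type) [Field F] [NumberField F] [Algebra K F],
    IntermediateField.adjoin K {x : F | ∃ c : K, x ^ 3 = algebraMap K F c} = ⊤ →
    ∀ m u : 𝓞 K, M m u → ∀ Δ : Finset (𝓞 K), 0 ∉ Δ → Sep3 F Δ → ∀ t : ℕ,
    ∀ ε : ℝ, 0 < ε → ∀ᶠ X : ℝ in Filter.atTop,
      bn Δ.card t ((∏' i : ℕ, (1 + 1 / (3 : ℝ) ^ (i + 1))⁻¹) ^ Module.finrank K F) - ε ≤
      (Nat.card {d : 𝓞 K // (∀ p, Prime p → ¬ p ^ 3 ∣ d) ∧ m ∣ d - u ∧ |Algebra.norm ℤ d| ≤ X ∧
        AtF Δ t fun δ => Rk (⟨0, 0, algebraMap K F (α : K) *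
          algebraMap K F ((δ * d : 𝓞 K) : K), 0, 0⟩ : WeierstrassCurve F)} : ℝ) /
        (Nat.card {d : 𝓞 K // (∀ p, Prime p → ¬ p ^ 3 ∣ d) ∧ m ∣ d - u ∧
          |Algebra.norm ℤ d| ≤ X} : ℝ)

open Pool.Agent.Lib.MP_1a91b9_ntT (K) in
/-- **The rank part.** -/
theorem kb_main {α : 𝓞 K} (hα : α ≠ 0) :
    KB K α (fun m u => (∃ n : ℕ, m ∣ 3 ^ n) ∧ ∀ p, Prime p → ¬ (p ^ 3 ∣ m ∧ p ^ 3 ∣ u)) := by
  classical
  intro F _ _ _ hF m u hmu Δ h0 hsep t ε hε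
  obtain ⟨⟨n, hm⟩, hu⟩ := hmu
  have hu := hu _ prime_s3
  obtain ⟨A, hA⟩ := MCT.exists_of hF
  have hok := hA.ok
  have hα' : ((α : 𝓞 K) : K) ≠ 0 := by exact_mod_cast hα
  have hN : 0 < A.length := by
    rw [hok.len]
    exact Module.finrank_pos
  have hΔ0 : ∀ δ : Δ, (δ.1 : 𝓞 K) ≠ 0 := fun δ h => h0 (h ▸ δ.2)
  have hget : ∀ l : Fin A.length, A.get l ∈ A := fun l => List.get_mem A l
  have hget0 : ∀ l : Fin A.length, A.get l ≠ 0 := fun l => hok.ne _ (hget l)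
  have hpw := List.pairwise_iff_get.1 hok.pw
  have hdis : ∀ l l' : Fin A.length, l ≠ l' →
      ¬ ∃ y : K, y ^ 3 * ((A.get l' : 𝓞 K) : K) = ((A.get l : 𝓞 K) : K) := by
    intro l l' hl
    rcases lt_or_gt_of_ne hl with h | h
    · exact hpw l l' h
    · rintro ⟨y, hy⟩
      refine hpw l' l h ⟨y⁻¹, ?_⟩
      have hy0 : y ≠ 0 := by
        rintro rfl
        rw [zero_pow three_ne_zero, zero_mul] at hy
        exact hget0 l (by exact_mod_cast hy.symm)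
      rw [← hy, ← mul_assoc, ← mul_pow, inv_mul_cancel₀ hy0, one_pow, one_mul]
  have key := den_allGb (n := n) (I := Δ) (N := A.length) hN
    (fun x => α * (x.1.1 : 𝓞 K) * A.get x.2)
    (fun x => mul_ne_zero (mul_ne_zero hα (hΔ0 x.1)) (hget0 x.2)) ?_
    (hm.trans (pow3_dvd_Q9 n)) hu t (fun d => AtF Δ t fun δ => Rk (⟨0, 0, algebraMap K F (α : K) *
          algebraMap K F ((δ * d : 𝓞 K) : K), 0, 0⟩ : WeierstrassCurve F)) ?_ ε hε
  · rw [Fintype.card_coe, hok.len] at key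
    exact key
  · rintro ⟨δ, l⟩ ⟨δ', l'⟩ hne ⟨y, hy⟩
    simp only at hy
    push_cast at hy
    have hy1 : y ^ 3 * ((((δ'.1 : 𝓞 K) : K)) * ((A.get l' : 𝓞 K) : K)) =
        (((δ.1 : 𝓞 K) : K)) * ((A.get l : 𝓞 K) : K) := by
      refine mul_left_cancel₀ hα' ?_
      linear_combination hy
    have hδ : (((δ.1 : 𝓞 K) : K)) ≠ 0 := by exact_mod_cast hΔ0 δ
    have hδ' : (((δ'.1 : 𝓞 K) : K)) ≠ 0 := by exact_mod_cast hΔ0 δ'
    have hb : ((A.get l : 𝓞 K) : K) ≠ 0 := by exact_mod_cast hget0 l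
    have hb' : ((A.get l' : 𝓞 K) : K) ≠ 0 := by exact_mod_cast hget0 l'
    have hy0 : y ≠ 0 := by
      rintro rfl
      rw [zero_pow three_ne_zero, zero_mul] at hy1
      exact mul_ne_zero hδ hb hy1.symm
    by_cases hd : δ = δ'
    · subst hd
      have hl : l ≠ l' := fun h => hne (by rw [h])
      refine hdis l l' hl ⟨y, mul_left_cancel₀ hδ ?_⟩
      linear_combination hy1
    · obtain ⟨β, hβ⟩ := hok.cu _ (hget l)
      obtain ⟨β', hβ'⟩ := hok.cu _ (hget l')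
      have hβ0 : β ≠ 0 := by
        rintro rfl
        rw [zero_pow three_ne_zero, eq_comm, map_eq_zero] at hβ
        exact hb hβ
      have hβ0' : β' ≠ 0 := by
        rintro rfl
        rw [zero_pow three_ne_zero, eq_comm, map_eq_zero] at hβ'
        exact hb' hβ'
      have hyF : algebraMap K F y ≠ 0 := by rwa [map_ne_zero]
      refine hsep δ.1 δ.2 δ'.1 δ'.2 (fun h => hd (Subtype.ext h))
        (algebraMap K F y * β' * β⁻¹) (mul_ne_zero (mul_ne_zero hyF hβ0') (inv_ne_zero hβ0)) ?_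
      have h1 := congrArg (algebraMap K F) hy1
      rw [map_mul, map_mul, map_mul, map_pow, ← hβ, ← hβ'] at h1
      have hβ3 : β ^ 3 ≠ 0 := pow_ne_zero 3 hβ0
      apply mul_right_cancel₀ hβ3
      rw [← h1, mul_pow, mul_pow, inv_pow]
      field_simp
  · intro d hd h
    have hd0 : d ≠ 0 := by
      rintro rfl
      exact (Pool.Agent.Lib.MP_1a91b9_ntK.CF_iff _).1 hd s3 prime_s3 (dvd_zero _)
    refine AtF_of_Atl (fun δ hδ => ?_) h
    have h1 := chain3 Pool.Agent.Lib.MP_1a91b9_ntN.chainHyp3 hA (α * (δ.1 * d))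
      (mul_ne_zero hα (mul_ne_zero (hΔ0 δ) hd0)) fun b hb => by
        obtain ⟨l, rfl⟩ := List.mem_iff_get.1 hb
        have h2 := Wt_good (hδ l)
        rw [show A.get l * (α * (δ.1 * d)) = α * δ.1 * A.get l * d by ring]
        exact h2
    have e : Pool.Agent.Lib.MP_1a91b9_ntN.Wt F (α * (δ.1 * d)) =
        ⟨0, 0, algebraMap K F (α : K) * algebraMap K F ((δ.1 * d : 𝓞 K) : K), 0, 0⟩ := by
      rw [← map_mul]
      rfl
    rw [← e]
    exact h1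

end Pool.Agent.Lib.MP_1a91b9_ntZ
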