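import Pool.Agent.Lib.MP_1a91b9_ntZ.C3Tr
import Pool.Agent.Lib.MP_1a91b9_ntZ.Hund
import Pool.Agent.Lib.MP_1a91b9_ntJ.CubB
import Pool.Agent.Lib.MP_1a91b9_ntJ.KSFin

/-!
# MP_1a91b9_nt (the binomial law): the towers above `F` for each of the twists, and the form for a finite or
infinite set `T` of factors
-/

set_option autoImplicit false

namespace Pool.Agent.Lib.MP_1a91b9_ntZ

open NumberField IsDedekindDomain WeierstrassCurve Module Filter Topology
open Pool.Agent.Lib.MP_1a91b9_nuI (Lne)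
open Pool.Agent.Lib.MP_1a91b9_ntL (crv)
open Pool.Agent.Lib.MP_1a91b9_ntW.J (twd twd_crv)
open Pool.Agent.Lib.MP_1a91b9_ntY (CMK Pt2 cmList)
open Pool.Agent.Lib.MP_1a91b9_ntJ

/-! ### The step for one curve -/

/-- **The step for `p = 2`.** -/
theorem star_two {K : Type} [Field K] [NumberField K] (hK : Module.finrank ℚ K = 2)
    {a b : K} (hE : b * (a ^ 2 - 4 * b) ≠ 0) {j D : ℤ} (hjD : (j, D) ∈ cmList)
    (hj : 256 * (a ^ 2 - 3 * b) ^ 3 = j * (b ^ 2 * (a ^ 2 - 4 * b))) (hD : ∃ s : K, s ^ 2 = D)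
    {l : ℕ} (hl : l = 2 ∨ l = 4 ∧ ∃ i : K, i ^ 2 = -1)
    {F : Type} [Field F] [NumberField F] [Algebra K F]
    (hF : IntermediateField.adjoin K {x : F | ∃ c : K, x ^ l = algebraMap K F c} = ⊤)
    {d : 𝓞 K} (hd : d ≠ 0)
    (h : Rk (⟨0, algebraMap K F ((d : K) * a), 0, algebraMap K F ((d : K) ^ 2 * b), 0⟩ :
      WeierstrassCurve F)) :
    TowP K (⟨0, algebraMap K F ((d : K) * a), 0, algebraMap K F ((d : K) ^ 2 * b), 0⟩ :
      WeierstrassCurve F) := by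
  have hW := cmk_crv hE hjD hj hD
  have htc := cmk_tc hW
  have e : (twd (crv a b) (d : K)).map (algebraMap K F) =
      ⟨0, algebraMap K F (d * a), 0, algebraMap K F ((d : K) ^ 2 * b), 0⟩ := by
    rw [twd_crv]
    exact WeierstrassCurve.ext (map_zero _) rfl (map_zero _) rfl (map_zero _)
  have h5 := h.1
  rw [← e] at h5 ⊢
  exact ks_star hl hF hK hW (pt2_crv a b) hd h5

/-- **The step for `p = 3`.** -/
theorem star_three {K F : Type} [Field K] [NumberField K] [Field F] [NumberField F] [Algebra K F]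
    (e : CyclotomicField 6 ℚ ≃+* K)
    (hF : IntermediateField.adjoin K {x : F | ∃ c : K, x ^ 3 = algebraMap K F c} = ⊤)
    {s : K} (hs : s ^ 2 = -3) {a : K} {α t₀ : 𝓞 K} (hα : α ≠ 0) (ht₀ : t₀ ≠ 0)
    (hαt : (α : K) = a * (t₀ : K) ^ 3) {d : 𝓞 K} (hd : d ≠ 0)
    (h : Rk (⟨0, 0, algebraMap K F (α : K) * algebraMap K F (d : K), 0, 0⟩ :
      WeierstrassCurve F)) :
    TowP K (⟨0, 0, algebraMap K F (a * (d : K)), 0, 0⟩ : WeierstrassCurve F) := by
  have ht' : algebraMap K F (t₀ : K) ≠ 0 := by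
    rw [map_ne_zero]
    exact_mod_cast ht₀
  have h5 := h.1
  have e5 : algebraMap K F (α : K) * algebraMap K F (d : K) =
      algebraMap K F ((α * d : 𝓞 K) : K) := by
    rw [← map_mul]
    rfl
  rw [e5] at h5
  have h6 := cub_star e hF hs (mul_ne_zero hα hd) h5
  obtain ⟨C, hC⟩ := vc_cube (a := algebraMap K F a) (d := algebraMap K F (d : K))
    (α := algebraMap K F (α : K)) ht' (by rw [hαt, map_mul, map_pow])
  rw [e5, ← map_mul] at hC
  exact towP_vc hC h6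

/-! ### The form for a set -/

/-- from the finite sets to all the sets -/
theorem set_form {α β : Type} {A B : α → Prop} {C : ℝ → α → Prop} {Q : β → α → Prop} {g : ℝ}
    (h0 : 0 < g) (h1 : g ≤ 1) (T : Set β) (t : ℕ) (hfin : ∀ X, {d | C X d}.Finite)
    (h : ∀ T' : Finset β, (∀ δ ∈ T', δ ∈ T) → ∀ ε : ℝ, 0 < ε → ∀ᶠ X : ℝ in atTop,
      bn T'.card t g - ε ≤
      (Nat.card {d : α // A d ∧ B d ∧ C X d ∧ AtF T' t fun δ => Q δ d} : ℝ) /
        (Nat.card {d : α // A d ∧ B d ∧ C X d} : ℝ))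
    {v : ℝ} (hv : (T.Infinite → v = 1) ∧ (T.Finite → v = bn T.ncard t g))
    (ε : ℝ) (hε : 0 < ε) :
    ∀ᶠ X : ℝ in atTop, v - ε ≤
      (Nat.card {d : α // A d ∧ B d ∧ C X d ∧ (t : ℕ∞) ≤ {δ ∈ T | Q δ d}.encard} : ℝ) /
        (Nat.card {d : α // A d ∧ B d ∧ C X d} : ℝ) := by
  classical
  have key : ∀ T' : Finset β, (∀ δ ∈ T', δ ∈ T) → ∀ X : ℝ,
      (Nat.card {d : α // A d ∧ B d ∧ C X d ∧ AtF T' t fun δ => Q δ d} : ℝ) ≤
      (Nat.card {d : α // A d ∧ B d ∧ C X d ∧ (t : ℕ∞) ≤ {δ ∈ T | Q δ d}.encard} : ℝ) := by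
    intro T' hT' X
    rw [Nat.cast_le]
    refine card_le_of ((hfin X).subset fun d hd => hd.2.2.1) ?_
    rintro d ⟨g1, g2, g3, g4⟩
    refine ⟨g1, g2, g3, ?_⟩
    calc (t : ℕ∞) ≤ ((T'.filter fun δ => Q δ d).card : ℕ∞) := by exact_mod_cast g4
      _ = ((T'.filter fun δ => Q δ d : Finset β) : Set β).encard :=
        (Set.encard_coe_eq_coe_finsetCard _).symm
      _ ≤ _ := Set.encard_le_encard fun δ hδ => by
        rw [Finset.mem_coe, Finset.mem_filter] at hδ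
        exact ⟨hT' δ hδ.1, hδ.2⟩
  rcases T.finite_or_infinite with hT | hT
  · have h2 := h hT.toFinset (fun δ hδ => hT.mem_toFinset.1 hδ) ε hε
    rw [← Set.ncard_eq_toFinset_card T hT, ← hv.2 hT] at h2
    filter_upwards [h2] with X hX
    exact hX.trans (div_le_div_of_nonneg_right (key _ (fun δ hδ => hT.mem_toFinset.1 hδ) X)
      (Nat.cast_nonneg _))
  · rw [hv.1 hT]
    obtain ⟨n, hn⟩ := ((bn_tendsto h0 h1 t).eventually
      (lt_mem_nhds (show 1 - ε / 2 < 1 by linarith))).exists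
    obtain ⟨T', hT', hc⟩ := hT.exists_subset_card_eq n
    have hT'' : ∀ δ ∈ T', δ ∈ T := fun δ hδ => hT' (Finset.mem_coe.2 hδ)
    have h2 := h T' hT'' (ε / 2) (by linarith)
    rw [hc] at h2
    filter_upwards [h2] with X hX
    refine le_trans ?_ (div_le_div_of_nonneg_right (key _ hT'' X) (Nat.cast_nonneg _))
    linarith

end Pool.Agent.Lib.MP_1a91b9_ntZ
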