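import Pool.Agent.Lib.MP_1a91b9_ntZ.TwS
import Pool.Agent.Lib.MP_1a91b9_ntZ.KFinB
import Pool.Agent.Lib.MP_1a91b9_ntZ.CBd
import Pool.Agent.Lib.MP_1a91b9_ntJ.AllP

/-!
# MP_1a91b9_nt (the binomial law): at least `t` of the twists `E^(δ d)`, `δ ∈ T`, with the towers, for every prime
number `p`
-/

set_option autoImplicit false

namespace Pool.Agent.Lib.MP_1a91b9_ntZ

open NumberField IsDedekindDomain WeierstrassCurve Module
open Pool.Agent.Lib.MP_1a91b9_ntY (cmList)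
open Pool.Agent.Lib.MP_1a91b9_ntJ

/-- **The case `p = 3`.** -/
theorem cub_bin (K : Type) [Field K] [NumberField K] (hK : finrank ℚ K = 2)
    (h3 : ∃ s : K, s ^ 2 = -3) {a : K} (ha : a ≠ 0) (F : Type) [Field F] [NumberField F]
    [Algebra K F]
    (hF : IntermediateField.adjoin K {x : F | ∃ c : K, x ^ 3 = algebraMap K F c} = ⊤)
    (n : ℕ) (m u : 𝓞 K) (hm : m ∣ 3 ^ n) (hu : ∀ p, Prime p → ¬ (p ^ 3 ∣ m ∧ p ^ 3 ∣ u))
    (T' : Finset (𝓞 K)) (h0 : 0 ∉ T') (hsep : Sep3 F T') (t : ℕ) (ε : ℝ) (hε : 0 < ε) :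
    ∀ᶠ X : ℝ in Filter.atTop,
      bn T'.card t ((∏' i : ℕ, (1 + 1 / (3 : ℝ) ^ (i + 1))⁻¹) ^ Module.finrank K F) - ε ≤
      (Nat.card {d : 𝓞 K // (∀ x, x ^ 3 ∣ d → IsUnit x) ∧ m ∣ d - u ∧ |Algebra.norm ℤ d| ≤ X ∧
        AtF T' t fun δ => TowP K (⟨0, 0, algebraMap K F (a * ((δ : K) * (d : K))), 0, 0⟩ :
          WeierstrassCurve F)} : ℝ) /
        (Nat.card {d : 𝓞 K // (∀ x, x ^ 3 ∣ d → IsUnit x) ∧ m ∣ d - u ∧
          |Algebra.norm ℤ d| ≤ X} : ℝ) := by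
  obtain ⟨s, hs⟩ := h3
  have htc : IsTotallyComplex K := tc_of_sq (D := -3) (by norm_num) (s := s) (by
    rw [hs]
    push_cast
    rfl)
  obtain ⟨e⟩ := exists_e6 hK hs
  obtain ⟨e'⟩ := Pool.Agent.Lib.MP_1a91b9_ntN.exists_iso36
  obtain ⟨f, -⟩ : ∃ f : Pool.Agent.Lib.MP_1a91b9_ntT.K ≃+* K, True :=
    ⟨(e' : Pool.Agent.Lib.MP_1a91b9_ntT.K ≃+* _).trans e, trivial⟩
  obtain ⟨E, hE⟩ : ∃ E : 𝓞 (Pool.Agent.Lib.MP_1a91b9_ntT.K) ≃+* 𝓞 K,
    E = RingOfIntegers.mapRingEquiv f := ⟨_, rfl⟩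
  have hpir : IsPrincipalIdealRing (𝓞 K) := Pool.Agent.Lib.MP_1a91b9_ntI.pir_of f
    Pool.Agent.Lib.MP_1a91b9_ntH.pidO
  have hp₀ : Prime (E Pool.Agent.Lib.MP_1a91b9_ntH.s3) := (MulEquiv.prime_iff E.toMulEquiv).2
    Pool.Agent.Lib.MP_1a91b9_ntH.prime_s3
  obtain ⟨α, t₀, hα, ht₀, hαt⟩ := exists_cube_mul ha
  obtain ⟨α', rfl⟩ := E.surjective α
  have hα' : α' ≠ 0 := by
    rintro rfl
    exact hα (map_zero E)
  have H := KB.equiv f (M' := fun a b => a = m ∧ b = u) (fun m' u' h => by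
    have h1 := cls_tr f (a := 3 ^ n) (by rw [Nat.cast_pow, Nat.cast_ofNat]; exact hm) hu h.1 h.2
    rw [Nat.cast_pow, Nat.cast_ofNat] at h1
    exact ⟨⟨n, h1.1⟩, h1.2⟩) (kb_main hα')
  rw [← hE] at H
  have h := H F hF m u ⟨rfl, rfl⟩ T' h0 hsep t ε hε
  simp only [free_iff three_ne_zero hp₀]
  filter_upwards [h] with X hX
  refine hX.trans (div_le_div_of_nonneg_right (Nat.cast_le.2 ?_) (Nat.cast_nonneg _))
  refine card_le_of ((finite_norm hK X).subset fun d hd => hd.2.2.1) ?_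
  rintro d ⟨h1, h2, h3, h4⟩
  refine ⟨h1, h2, h3, h4.mono fun δ hδ h5 => ?_⟩
  have hd : δ * d ≠ 0 := mul_ne_zero (fun h => h0 (h ▸ hδ)) (ne_zero_of_free three_ne_zero hp₀ h1)
  have h6 := star_three e hF hs hα ht₀ hαt hd h5
  rw [show ((δ * d : 𝓞 K) : K) = (δ : K) * (d : K) from rfl] at h6
  exact h6

open Classical in
/-- **The case `p = 2`.** -/
theorem quad_bin (K : Type) [Field K] [NumberField K] (hK : Module.finrank ℚ K = 2)
    (a b : K) (hE : b * (a ^ 2 - 4 * b) ≠ 0) (j D : ℤ) (hjD : (j, D) ∈ cmList)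
    (hj : 256 * (a ^ 2 - 3 * b) ^ 3 = j * (b ^ 2 * (a ^ 2 - 4 * b))) (hD : ∃ s : K, s ^ 2 = D)
    (l : ℕ) (hl : l = 2 ∨ l = 4 ∧ ∃ i : K, i ^ 2 = -1)
    (F : Type) [Field F] [NumberField F] [Algebra K F]
    (hF : IntermediateField.adjoin K {x : F | ∃ c : K, x ^ l = algebraMap K F c} = ⊤)
    (T' : Finset (𝓞 K)) (h0 : 0 ∉ T')
    (hT : ∀ δ ∈ T', ∀ δ' ∈ T', δ ≠ δ' → ∀ e ∈ ({1, -1, b, -b} : Set K), ∀ x : F, x ≠ 0 →
      x ^ 2 * algebraMap K F (δ' : K) ≠ algebraMap K F (e * (δ : K))) (t : ℕ)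
    (n : ℕ) (m u : 𝓞 K) (hm : m ∣ 2 ^ n) (hu : ∀ p, Prime p → ¬ (p ^ 2 ∣ m ∧ p ^ 2 ∣ u))
    (c : ℝ)
    (hc : c = if Prime (2 : 𝓞 K) then (if ∃ x : F, x ^ 2 = -1 then
        √((∏' i : ℕ, (1 + 1 / (2 : ℝ) ^ (2 * i + 1))⁻¹) / 2) else
        ∏' i : ℕ, (1 + 1 / (2 : ℝ) ^ (2 * i + 1))⁻¹) else
      if Squarefree (2 : 𝓞 K) then ∏' i : ℕ, (1 - 1 / (2 : ℝ) ^ (i + 1)) else
      ∏' i : ℕ, (1 + 1 / (2 : ℝ) ^ (i + 1))⁻¹) (ε : ℝ) (hε : 0 < ε) :
    ∀ᶠ X : ℝ in Filter.atTop, bn T'.card t (c ^ Module.finrank K F) - ε ≤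
      (Nat.card {d : 𝓞 K // Squarefree d ∧ m ∣ d - u ∧ |Algebra.norm ℤ d| ≤ X ∧
        AtF T' t fun δ => TowP K (⟨0, algebraMap K F ((δ : K) * (d : K) * a), 0,
            algebraMap K F (((δ : K) * (d : K)) ^ 2 * b), 0⟩ : WeierstrassCurve F)} : ℝ) /
        (Nat.card {d : 𝓞 K // Squarefree d ∧ m ∣ d - u ∧ |Algebra.norm ℤ d| ≤ X} : ℝ) := by
  have hb : b ≠ 0 := fun h => hE (by rw [h, zero_mul])
  have h := binK hK a b hE j D hjD hj hD l hl F hF T' (fun δ hδ h => h0 (h ▸ hδ))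
    (fun δ hδ δ' hδ' hne e he ⟨x, hx⟩ => by
      have he0 : e ≠ 0 := by
        simp only [Set.mem_insert_iff, Set.mem_singleton_iff] at he
        rcases he with rfl | rfl | rfl | rfl
        · exact one_ne_zero
        · exact neg_ne_zero.2 one_ne_zero
        · exact hb
        · exact neg_ne_zero.2 hb
      have hδ0 : (δ : K) ≠ 0 := by
        intro h
        exact h0 ((by exact_mod_cast h : δ = 0) ▸ hδ)
      have hδ0' : (δ' : K) ≠ 0 := by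
        intro h
        exact h0 ((by exact_mod_cast h : δ' = 0) ▸ hδ')
      have hx0 : x ≠ 0 := by
        rintro rfl
        rw [zero_pow two_ne_zero, eq_comm, map_eq_zero] at hx
        exact mul_ne_zero he0 (mul_ne_zero hδ0 hδ0') hx
      have hδF : algebraMap K F (δ' : K) ≠ 0 := by rwa [map_ne_zero]
      refine hT δ hδ δ' hδ' hne e he (x * (algebraMap K F (δ' : K))⁻¹)
        (mul_ne_zero hx0 (inv_ne_zero hδF)) ?_
      rw [map_mul, map_mul] at hx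
      rw [map_mul, mul_pow, hx]
      field_simp) t n m u hm hu c hc ε hε
  have hW := cmk_crv hE hjD hj hD
  have htc := cmk_tc hW
  filter_upwards [h] with X hX
  refine hX.trans (div_le_div_of_nonneg_right (Nat.cast_le.2 ?_) (Nat.cast_nonneg _))
  refine card_le_of ((finite_norm hK X).subset fun d hd => hd.2.2.1) ?_
  rintro d ⟨h1, h2, h3, h4⟩
  refine ⟨h1, h2, h3, AtF.mono (P := fun δ : 𝓞 K => ∀ W : WeierstrassCurve F,
    W = ⟨0, algebraMap K F ((δ : K) * (d : K) * a), 0,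
      algebraMap K F (((δ : K) * (d : K)) ^ 2 * b), 0⟩ →
      (∃ g : ℂ → ℂ, Differentiable ℂ g ∧ (∀ s : ℂ, 3 / 2 < s.re → g s = W.LSeries s) ∧
        g 1 ≠ 0) ∧ Finite W.toAffine.Point) (fun δ hδ h5 => ?_) h4⟩
  have hd : δ * d ≠ 0 := mul_ne_zero (fun h => h0 (h ▸ hδ)) h1.ne_zero
  have h6 := star_two hK hE hjD hj hD hl hF hd (h5 _ rfl)
  rw [show ((δ * d : 𝓞 K) : K) = (δ : K) * (d : K) from rfl] at h6
  exact h6

open Classical in
/-- **The theorem for every prime number `p`.** -/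
theorem all_bin (K : Type) [Field K] [NumberField K] (hK : Module.finrank ℚ K = 2) (p : ℕ)
    (hp : p.Prime) (E : WeierstrassCurve K)
    (hE : E.a₁ = 0 ∧ E.a₆ = 0 ∧ (¬ p ∣ 2 → E.a₂ = 0) ∧ (¬ p ∣ 3 → E.a₃ = 0) ∧
      (¬ p ∣ 4 → E.a₄ = 0)) (hΔ : E.Δ ≠ 0) (j D : ℤ) (hjD : (j, D) ∈ cmList)
    (hj : E.c₄ ^ 3 = j * E.Δ) (hD : ∃ s : K, s ^ 2 = D)
    (l : ℕ) (hl : l = p ∨ l = 4 ∧ p = 2 ∧ ∃ i : K, i ^ 2 = -1)
    (F : Type) [Field F] [NumberField F] [Algebra K F]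
    (hF : IntermediateField.adjoin K {x : F | ∃ c : K, x ^ l = algebraMap K F c} = ⊤)
    (T : Set (𝓞 K)) (h0 : 0 ∉ T)
    (hT : ∀ δ ∈ T, ∀ δ' ∈ T, δ ≠ δ' → ∀ e ∈ ({1, -1, E.a₄, -E.a₄} : Set K), ∀ x : F, x ≠ 0 →
      x ^ p * algebraMap K F δ' ≠ algebraMap K F (e * δ))
    (n : ℕ) (m u : 𝓞 K) (hm : m ∣ (p : 𝓞 K) ^ n)
    (hu : ∀ q, Prime q → ¬ (q ^ p ∣ m ∧ q ^ p ∣ u)) (c : ℝ)
    (hc : c = if Prime (p : 𝓞 K) then (if ∃ x : F, x ^ 2 = -1 then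
        √((∏' i : ℕ, (1 + 1 / (p : ℝ) ^ (2 * i + 1))⁻¹) / 2) else
        ∏' i : ℕ, (1 + 1 / (p : ℝ) ^ (2 * i + 1))⁻¹) else
      if Squarefree (p : 𝓞 K) then ∏' i : ℕ, (1 - 1 / (p : ℝ) ^ (i + 1)) else
      ∏' i : ℕ, (1 + 1 / (p : ℝ) ^ (i + 1))⁻¹) (t : ℕ) (v : ℝ)
    (hv : v = if T.Infinite then 1 else ∑ j ∈ Finset.Icc t T.ncard, (T.ncard.choose j : ℝ) *
      (c ^ Module.finrank K F) ^ j * (1 - c ^ Module.finrank K F) ^ (T.ncard - j))
    (ε : ℝ) (hε : 0 < ε) :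
    ∀ᶠ X : ℝ in Filter.atTop, v - ε ≤
      (Nat.card {d : 𝓞 K // (∀ x, x ^ p ∣ d → IsUnit x) ∧ m ∣ d - u ∧ |Algebra.norm ℤ d| ≤ X ∧
        t ≤ {δ ∈ T | ∀ V : WeierstrassCurve F,
          V = ⟨0, algebraMap K F (E.a₂ * (δ * d) ^ (2 / p)),
            algebraMap K F (E.a₃ * (δ * d) ^ (3 / p)),
            algebraMap K F (E.a₄ * (δ * d) ^ (4 / p)), 0⟩ → TowP K V}.encard} : ℝ) /
        (Nat.card {d : 𝓞 K // (∀ x, x ^ p ∣ d → IsUnit x) ∧ m ∣ d - u ∧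
          |Algebra.norm ℤ d| ≤ X} : ℝ) := by
  have hv' : (T.Infinite → v = 1) ∧ (T.Finite → v = bn T.ncard t (c ^ Module.finrank K F)) := by
    constructor
    · intro h
      rw [hv, if_pos h]
    · intro h
      rw [hv, if_neg (Set.not_infinite.2 h)]
      rfl
  rcases p_cases hp hE hΔ with rfl | rfl
  · obtain ⟨e1, e6, -, e3, -⟩ := hE
    have e3 := e3 (by decide)
    rw [Nat.cast_ofNat] at hm
    simp only [Nat.cast_ofNat] at hc
    have hl' : l = 2 ∨ l = 4 ∧ ∃ i : K, i ^ 2 = -1 := by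
      rcases hl with h | ⟨h1, -, h2⟩
      · exact Or.inl h
      · exact Or.inr ⟨h1, h2⟩
    have hΔ' : E.Δ = 16 * (E.a₄ ^ 2 * (E.a₂ ^ 2 - 4 * E.a₄)) := by
      unfold WeierstrassCurve.Δ WeierstrassCurve.b₂ WeierstrassCurve.b₄ WeierstrassCurve.b₆
        WeierstrassCurve.b₈
      rw [e1, e6, e3]
      ring
    have hc4 : E.c₄ = 16 * (E.a₂ ^ 2 - 3 * E.a₄) := by
      unfold WeierstrassCurve.c₄ WeierstrassCurve.b₂ WeierstrassCurve.b₄
      rw [e1, e3]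
      ring
    have h1 : E.a₄ * (E.a₂ ^ 2 - 4 * E.a₄) ≠ 0 := by
      intro h0
      apply hΔ
      rw [hΔ']
      linear_combination (16 * E.a₄) * h0
    have h2 : 256 * (E.a₂ ^ 2 - 3 * E.a₄) ^ 3 = j * (E.a₄ ^ 2 * (E.a₂ ^ 2 - 4 * E.a₄)) := by
      rw [hΔ', hc4] at hj
      have h16 : (16 : K) ≠ 0 := by norm_num
      apply mul_left_cancel₀ h16
      linear_combination hj
    have hsq : ∀ d : 𝓞 K, (∀ x, x ^ 2 ∣ d → IsUnit x) ↔ Squarefree d := by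
      intro d
      unfold Squarefree
      simp only [pow_two]
    have hW := cmk_crv h1 hjD h2 hD
    have htc := cmk_tc hW
    have hcb : CB (c ^ Module.finrank K F) := (cb_two hc).pow _
    refine set_form (A := fun d : 𝓞 K => ∀ x, x ^ 2 ∣ d → IsUnit x) (B := fun d => m ∣ d - u)
      (C := fun X d => |Algebra.norm ℤ d| ≤ X) hcb.1 hcb.2 T t (fun X => finite_norm hK X)
      (fun T' hT' η hη => ?_) hv' ε hε
    have h := quad_bin K hK E.a₂ E.a₄ h1 j D hjD h2 hD l hl' F hF T' (fun h => h0 (hT' _ h))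
      (fun δ hδ δ' hδ' => hT δ (hT' δ hδ) δ' (hT' δ' hδ')) t n m u hm hu c hc η hη
    have hV : ∀ δ d : 𝓞 K, (∀ V : WeierstrassCurve F,
        V = ⟨0, algebraMap K F (E.a₂ * (δ * d) ^ (2 / 2)),
          algebraMap K F (E.a₃ * (δ * d) ^ (3 / 2)),
          algebraMap K F (E.a₄ * (δ * d) ^ (4 / 2)), 0⟩ → TowP K V) ↔
        TowP K (⟨0, algebraMap K F ((δ : K) * (d : K) * E.a₂), 0,
            algebraMap K F (((δ : K) * (d : K)) ^ 2 * E.a₄), 0⟩ : WeierstrassCurve F) := by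
      intro δ d
      rw [forall_eq, e3, zero_mul, map_zero, mul_comm E.a₂, mul_comm E.a₄]
      norm_num
    simp only [hsq, hV]
    exact h
  · obtain ⟨e1, e6, e2, -, e4⟩ := hE
    have e2 := e2 (by decide)
    have e4 := e4 (by decide)
    rw [Nat.cast_ofNat] at hm
    simp only [Nat.cast_ofNat] at hc
    have hl' : l = 3 := by
      rcases hl with h | ⟨-, h1, -⟩
      · exact h
      · omega
    subst hl'
    have hΔ' : E.Δ = -27 * E.a₃ ^ 4 := by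
      unfold WeierstrassCurve.Δ WeierstrassCurve.b₂ WeierstrassCurve.b₄ WeierstrassCurve.b₆
        WeierstrassCurve.b₈
      rw [e1, e6, e2, e4]
      ring
    have hc4 : E.c₄ = 0 := by
      unfold WeierstrassCurve.c₄ WeierstrassCurve.b₂ WeierstrassCurve.b₄
      rw [e1, e2, e4]
      ring
    have ha : E.a₃ ≠ 0 := by
      intro h0
      apply hΔ
      rw [hΔ', h0]
      ring
    have hj0 : j = 0 := by
      rw [hc4, zero_pow three_ne_zero] at hj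
      rcases mul_eq_zero.1 hj.symm with h0 | h0
      · exact_mod_cast h0
      · exact absurd h0 hΔ
    subst hj0
    obtain rfl := cm_zero hjD
    obtain ⟨s, hs⟩ := hD
    rw [Int.cast_neg, Int.cast_ofNat] at hs
    obtain ⟨σ, -, hσ, hσu⟩ := int_sqrt hs
    have hnp : ¬ Prime (3 : 𝓞 K) := by
      intro h
      rw [hσ] at h
      have h1 : Prime (σ ^ 2) := by
        have := h.neg
        rwa [neg_neg] at this
      have h2 := h1.irreducible.isUnit_or_isUnit (pow_two σ)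
      exact hσu (h2.elim id id)
    have hns : ¬ Squarefree (3 : 𝓞 K) := by
      intro h
      refine hσu (h σ ?_)
      rw [hσ, ← pow_two]
      exact (dvd_neg.2 dvd_rfl)
    rw [if_neg hnp, if_neg hns] at hc
    subst hc
    have htc : IsTotallyComplex K := tc_of_sq (D := -3) (by norm_num) (s := s) (by
      rw [hs]
      push_cast
      rfl)
    have hcb : CB ((∏' i : ℕ, (1 + 1 / (3 : ℝ) ^ (i + 1))⁻¹) ^ Module.finrank K F) :=
      cb_three.pow _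
    refine set_form (A := fun d : 𝓞 K => ∀ x, x ^ 3 ∣ d → IsUnit x) (B := fun d => m ∣ d - u)
      (C := fun X d => |Algebra.norm ℤ d| ≤ X) hcb.1 hcb.2 T t (fun X => finite_norm hK X)
      (fun T' hT' η hη => ?_) hv' ε hε
    have h := cub_bin K hK ⟨s, hs⟩ ha F hF n m u hm hu T' (fun h => h0 (hT' _ h))
      (fun δ hδ δ' hδ' hne x hx => by
        have h3 := hT δ (hT' δ hδ) δ' (hT' δ' hδ') hne 1 (Set.mem_insert _ _) x hx
        rwa [one_mul] at h3) t η hη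
    have hV : ∀ δ d : 𝓞 K, (∀ V : WeierstrassCurve F,
        V = ⟨0, algebraMap K F (E.a₂ * (δ * d) ^ (2 / 3)),
          algebraMap K F (E.a₃ * (δ * d) ^ (3 / 3)),
          algebraMap K F (E.a₄ * (δ * d) ^ (4 / 3)), 0⟩ → TowP K V) ↔
        TowP K (⟨0, 0, algebraMap K F (E.a₃ * ((δ : K) * (d : K))), 0, 0⟩ :
          WeierstrassCurve F) := by
      intro δ d
      rw [forall_eq, e2, e4, zero_mul, zero_mul, map_zero, Nat.div_self (by norm_num), pow_one]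
    simp only [hV]
    exact h

end Pool.Agent.Lib.MP_1a91b9_ntZ
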