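import Pool.Agent.Lib.MP_1a91b9_ntZ.C3Fin
import Pool.Agent.Lib.MP_1a91b9_ntN.Q.Iso

/-!
# MP_1a91b9_nt (the binomial law), cubic twists: the transport to every field isomorphic to `ℚ(√-3)`
-/

set_option autoImplicit false

namespace Pool.Agent.Lib.MP_1a91b9_ntZ

open NumberField IsDedekindDomain Finset WeierstrassCurve
open Pool.Agent.Lib.MP_1a91b9_ntN (lfree_iff norm_ringEquiv adjoin_top)

/-- The theorem over a field isomorphic to `K`. -/
theorem KB.equiv {K K' : Type} [Field K] [NumberField K] [Field K'] [NumberField K'] (e : K ≃+* K')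
    {α : 𝓞 K} {M : 𝓞 K → 𝓞 K → Prop} {M' : 𝓞 K' → 𝓞 K' → Prop}
    (hM : ∀ m u, M' (RingOfIntegers.mapRingEquiv e m) (RingOfIntegers.mapRingEquiv e u) → M m u)
    (H : KB K α M) : KB K' (RingOfIntegers.mapRingEquiv e α) M' := by
  intro F _ _ _ hF m' u' hmu Δ' h0 hsep t ε hε
  obtain ⟨E, hE⟩ : ∃ E : 𝓞 K ≃+* 𝓞 K', E = RingOfIntegers.mapRingEquiv e := ⟨_, rfl⟩
  have hEe : ∀ d : 𝓞 K, ((E d : 𝓞 K') : K') = e (d : K) := fun d => by
    rw [hE]
    rfl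
  rw [← hE] at hM ⊢
  obtain ⟨m, rfl⟩ := E.surjective m'
  obtain ⟨u, rfl⟩ := E.surjective u'
  obtain ⟨Δ, rfl⟩ : ∃ Δ : Finset (𝓞 K), Δ.map E.toEquiv.toEmbedding = Δ' := by
    refine ⟨Δ'.map E.symm.toEquiv.toEmbedding, ?_⟩
    rw [Finset.map_map]
    ext x
    rw [Finset.mem_map]
    constructor
    · rintro ⟨y, hy, rfl⟩
      have : E (E.symm y) = y := E.apply_symm_apply y
      show E (E.symm y) ∈ Δ'
      rw [this]
      exact hy
    · intro hx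
      exact ⟨x, hx, E.apply_symm_apply x⟩
  let _ : Algebra K F := ((algebraMap K' F).comp (e : K →+* K')).toAlgebra
  have hal : ∀ x : K, algebraMap K F x = algebraMap K' F (e x) := fun _ => rfl
  have hr : Set.range (algebraMap K F) = Set.range (algebraMap K' F) := by
    ext y
    constructor
    · rintro ⟨x, rfl⟩
      exact ⟨e x, (hal x).symm⟩
    · rintro ⟨x, rfl⟩
      exact ⟨e.symm x, by rw [hal, e.apply_symm_apply]⟩
  have hset : {x : F | ∃ c : K, x ^ 3 = algebraMap K F c} =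
      {x : F | ∃ c : K', x ^ 3 = algebraMap K' F c} := by
    ext x
    constructor
    · rintro ⟨c, hc⟩
      exact ⟨e c, hc⟩
    · rintro ⟨c, hc⟩
      exact ⟨e.symm c, by rw [hal, e.apply_symm_apply]; exact hc⟩
  have hmem : ∀ δ : 𝓞 K, δ ∈ Δ → E δ ∈ Δ.map E.toEquiv.toEmbedding := fun δ hδ =>
    Finset.mem_map.2 ⟨δ, hδ, rfl⟩
  have h1 := H F (adjoin_top hr (by rw [hset]; exact hF)) m u (hM m u hmu) Δ
    (fun h => h0 (Finset.mem_map.2 ⟨0, h, map_zero E⟩))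
    (fun δ hδ δ' hδ' hne x hx h => hsep (E δ) (hmem δ hδ) (E δ') (hmem δ' hδ')
      (fun h => hne (E.injective h)) x hx (by rw [hEe, hEe, ← hal, ← hal]; exact h)) t ε hε
  have hfin : Module.finrank K F = Module.finrank K' F :=
    Algebra.finrank_eq_of_equiv_equiv e (RingEquiv.refl F) (by ext x; rfl)
  filter_upwards [h1] with X hX
  rw [← hfin, Finset.card_map]
  have c1 : Nat.card {d : 𝓞 K // (∀ p, Prime p → ¬ p ^ 3 ∣ d) ∧ m ∣ d - u ∧
        |Algebra.norm ℤ d| ≤ X ∧ AtF Δ t fun δ => Rk (⟨0, 0, algebraMap K F (α : K) *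
          algebraMap K F ((δ * d : 𝓞 K) : K), 0, 0⟩ : WeierstrassCurve F)} =
      Nat.card {d : 𝓞 K' // (∀ p, Prime p → ¬ p ^ 3 ∣ d) ∧ E m ∣ d - E u ∧
        |Algebra.norm ℤ d| ≤ X ∧ AtF (Δ.map E.toEquiv.toEmbedding) t fun δ =>
          Rk (⟨0, 0, algebraMap K' F ((E α : 𝓞 K') : K') *
          algebraMap K' F ((δ * d : 𝓞 K') : K'), 0, 0⟩ : WeierstrassCurve F)} := by
    refine Nat.card_congr (E.toEquiv.subtypeEquiv fun d => ?_)
    show _ ↔ (∀ p, Prime p → ¬ p ^ 3 ∣ E d) ∧ E m ∣ E d - E u ∧ |Algebra.norm ℤ (E d)| ≤ X ∧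
      AtF (Δ.map E.toEquiv.toEmbedding) t fun δ =>
          Rk (⟨0, 0, algebraMap K' F ((E α : 𝓞 K') : K') *
          algebraMap K' F ((δ * E d : 𝓞 K') : K'), 0, 0⟩ : WeierstrassCurve F)
    rw [lfree_iff, norm_ringEquiv, ← map_sub, map_dvd_iff E, AtF_map]
    have h2 : ∀ δ : 𝓞 K, (((E.toEquiv δ : 𝓞 K') * E d : 𝓞 K') : K') = e ((δ * d : 𝓞 K) : K) := by
      intro δ
      rw [← hEe, map_mul]
      rfl
    simp only [h2, hEe, hal]
  have c2 : Nat.card {d : 𝓞 K // (∀ p, Prime p → ¬ p ^ 3 ∣ d) ∧ m ∣ d - u ∧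
        |Algebra.norm ℤ d| ≤ X} =
      Nat.card {d : 𝓞 K' // (∀ p, Prime p → ¬ p ^ 3 ∣ d) ∧ E m ∣ d - E u ∧
        |Algebra.norm ℤ d| ≤ X} := by
    refine Nat.card_congr (E.toEquiv.subtypeEquiv fun d => ?_)
    show _ ↔ (∀ p, Prime p → ¬ p ^ 3 ∣ E d) ∧ E m ∣ E d - E u ∧ |Algebra.norm ℤ (E d)| ≤ X
    rw [lfree_iff, norm_ringEquiv, ← map_sub, map_dvd_iff E]
  rw [← c1, ← c2]
  exact hX

end Pool.Agent.Lib.MP_1a91b9_ntZ
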