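import Pool.Agent.Lib.MP_1a91b9_ntP.G.Den
import Pool.Agent.Lib.MP_1a91b9_ntN.G.RPair
import Pool.Agent.Lib.MP_1a91b9_ntZ.Bin

/-!
# MP_1a91b9_nt (the binomial law), `Q(sqrt -3)`: blocks of labels in the classes of a finite group
-/

set_option autoImplicit false
set_option linter.unusedSectionVars false

namespace Pool.Agent.Lib.MP_1a91b9_ntZ.D3

open NumberField Finset Filter Topology Pool.Agent.Lib.MP_1a91b9_ntT Pool.Agent.Lib.MP_1a91b9_ntH
  Pool.Agent.Lib.MP_1a91b9_ntH.Da Pool.Agent.Lib.MP_1a91b9_ntE Pool.Agent.Lib.MP_1a91b9_ntP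
  Pool.Agent.Lib.MP_1a91b9_ntZ

noncomputable section

section

variable {ι : Type} [DecidableEq ι] [PS ι] {D : DatE ι}

open Classical in
/-- The mean values of the products of combinations. -/
theorem mean_comb {A : Type} [Fintype A] [DecidableEq A] {J : Type} [Fintype J] [DecidableEq J]
    {BB : ℕ → Finset (Finset ι)} (Q : A → J → Bs D) (w : A → J → ℝ) {T : A → Finset ι}
    (hM : ∀ g : A → J, MD BB (inJ (fun a => Q a (g a)) T) (cinf ^ Fintype.card A)) :
    MD BB (fun S => ∏ a, ∑ j, w a j * (if (Q a j).kz (S ∪ T a) = 1 then 1 else 0))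
      ((∏ a, ∑ j, w a j) * cinf ^ Fintype.card A) := by
  have hm : MD BB (fun S => ∑ g : A → J, (∏ a, w a (g a)) *
      inJ (fun a => Q a (g a)) T S) (∑ g : A → J, (∏ a, w a (g a)) * cinf ^ Fintype.card A) :=
    MD.sum univ fun g _ => MD.smul (hM g) _
  refine MD.congr hm (fun S => ?_) ?_
  · rw [prod_univ_sum, Fintype.piFinset_univ]
    refine sum_congr rfl fun g _ => ?_
    unfold inJ
    rw [← prod_mul_distrib]
  · rw [prod_univ_sum, Fintype.piFinset_univ, sum_mul]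

/-- The labels in the blocks of `s`. -/
abbrev Ls {k : ℕ} (A : Fin k → Type) (s : Finset (Fin k)) : Type := Σ i : {i // i ∈ s}, A i.1

open Classical in
/-- **At least `t` of the blocks.** -/
theorem comb_B {J : Type} [Fintype J] [DecidableEq J] {BB : ℕ → Finset (Finset ι)} {k : ℕ}
    {A : Fin k → Type} [∀ i, Fintype (A i)] [∀ i, DecidableEq (A i)] (Q : ∀ i, A i → J → Bs D)
    (w : ∀ i, A i → J → ℝ) (T : ∀ i, A i → Finset ι)
    (hM : ∀ s : Finset (Fin k), s.Nonempty → ∀ g : Ls A s → J,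
      MD BB (inJ (fun a : Ls A s => Q a.1.1 a.2 (g a)) fun a => T a.1.1 a.2)
        (cinf ^ Fintype.card (Ls A s)))
    (P : ∀ i, A i → Finset ι → Prop)
    (h0 : ∀ i a S, 0 ≤ ∑ j, w i a j * (if (Q i a j).kz S = 1 then 1 else 0))
    (h1 : ∀ i a S, ∑ j, w i a j * (if (Q i a j).kz S = 1 then 1 else 0) ≤ 1)
    (hP : ∀ i a S, ¬ P i a S →
      ∑ j, w i a j * (if (Q i a j).kz S = 1 then 1 else 0) = 0)
    (hw0 : ∀ i a, 0 ≤ ∑ j, w i a j) (hw1 : ∀ i a, ∑ j, w i a j ≤ 1) {g : ℝ} (hg : 0 ≤ g)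
    (hgv : ∀ i, g ≤ ∏ a, ((∑ j, w i a j) * cinf)) (t : ℕ) {κ₀ : ℝ} (hκ : κ₀ < bn k t g) (ε : ℝ)
    (hε : 0 < ε) : ∃ X₀ : ℕ, ∀ X : ℕ, X₀ ≤ X → κ₀ * ((BB X).card : ℝ) - ε * X ≤
      (((BB X).filter fun S => Atl t fun i => ∀ a, P i a (S ∪ T i a)).card : ℝ) := by
  have hc0 : 0 ≤ cinf := MP_1a91b9_ntN.G.cinf_pos.le
  have hc1 : cinf ≤ 1 := MP_1a91b9_ntN.G.cinf_le.trans (by norm_num)
  set F : Fin k → Finset ι → ℝ := fun i S =>
    ∏ a, ∑ j, w i a j * (if (Q i a j).kz (S ∪ T i a) = 1 then 1 else 0) with hF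
  have hM' : ∀ s : Finset (Fin k), s.Nonempty → Mn BB (fun S => ∏ i ∈ s, F i S)
      (∏ i ∈ s, ∏ a, ((∑ j, w i a j) * cinf)) := by
    intro s hs
    have hm := mean_comb (fun (a : Ls A s) j => Q a.1.1 a.2 j) (fun a j => w a.1.1 a.2 j)
      (T := fun a => T a.1.1 a.2) (hM s hs)
    refine Mn.congr (show Mn BB _ _ from hm) (fun X S _ => ?_) ?_
    · rw [Fintype.prod_sigma]
      exact (prod_coe_sort s fun i => F i S).symm
    · rw [← card_univ, ← prod_const, ← prod_mul_distrib, Fintype.prod_sigma]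
      exact (prod_coe_sort s fun i => ∏ a, ((∑ j, w i a j) * cinf)).symm
  have h := Mn.lower (B := BB) (F := F) (P := fun i S => ∀ a, P i a (S ∪ T i a))
    (fun i S => prod_nonneg fun a _ => h0 i a _)
    (fun i S => prod_le_one (fun a _ => h0 i a _) fun a _ => h1 i a _)
    (fun i S hS => by
      push Not at hS
      obtain ⟨a, ha⟩ := hS
      exact prod_eq_zero (mem_univ a) (hP i a _ ha)) hM' hg hgv
    (fun i => prod_le_one (fun a _ => mul_nonneg (hw0 i a) hc0)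
      fun a _ => mul_le_one₀ (hw1 i a) hc0 hc1) t (κ₀ := κ₀) (by rwa [Fintype.card_fin]) ε hε
  exact h

end

/-! ### The classes of `G` -/

variable {G : Type} [AddCommGroup G]

/-- The binomial law for the blocks of labels, in the classes of `G`. -/
def DSJB (cl : Pq → G) : Prop :=
  ∀ (k : ℕ) (A : Fin k → Type) [∀ i, Fintype (A i)] [∀ i, Nonempty (A i)] (f : ∀ i, A i → Bool)
  (c : ∀ i, A i → F4) (T : ∀ i, A i → Finset Pq) (B : Finset Pq), (∀ i a, T i a ⊆ B) →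
  Function.Injective (fun p : (Σ i, A i) => (f p.1 p.2, F4.tr (c p.1 p.2), T p.1 p.2)) →
  ∀ (x : G) (g : ℝ), 0 ≤ g → (∀ i, g ≤ Da.cinf ^ Fintype.card (A i)) → ∀ (t : ℕ) (κ₀ : ℝ),
  κ₀ < bn k t g → DSG cl B x κ₀ fun S => Atl t fun i => ∀ a, GdE (f i a) (c i a) (S ∪ T i a)

/-- The binomial law for the blocks of pairs of labels, in the classes of `G`. -/
def DSPB (cl : Pq → G) : Prop :=
  ∀ (k : ℕ) (A : Fin k → Type) [∀ i, Fintype (A i)] [∀ i, Nonempty (A i)] (f : ∀ i, A i → Bool)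
  (c : ∀ i, A i → F4) (T : ∀ i, A i → Finset Pq) (B : Finset Pq), (∀ i a, T i a ⊆ B) →
  Function.Injective (fun p : (Σ i, A i) => (f p.1 p.2, F4.tr (c p.1 p.2), T p.1 p.2)) →
  ∀ (x : G) (g : ℝ), 0 ≤ g →
  (∀ i, g ≤ ∏ a, (if f i a = true then Da.cinf / 2 else Da.cinf)) → ∀ (t : ℕ) (κ₀ : ℝ),
  κ₀ < bn k t g → DSG cl B x κ₀ fun S =>
    Atl t fun i => ∀ a, GdE (f i a) (c i a) (S ∪ T i a) ∧ GdE (f i a) (c i a + 1) (S ∪ T i a)

/-- The labels in the blocks of `s` are different. -/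
theorem ls_inj {k : ℕ} {A : Fin k → Type} (s : Finset (Fin k)) {Y : Type}
    {h : (Σ i, A i) → Y} (hi : Function.Injective h) :
    Function.Injective (fun a : Ls A s => h ⟨a.1.1, a.2⟩) := by
  rintro ⟨⟨i, hi1⟩, a⟩ ⟨⟨i', hi2⟩, a'⟩ h1
  have h2 : (⟨i, a⟩ : Σ i, A i) = ⟨i', a'⟩ := hi h1
  cases h2
  rfl

variable [Fintype G]

/-- **The binomial law in the classes of `G`.** -/
theorem dsjB {cl : Pq → G} (hv : ∀ B, VanP (offG qE B))
    (hcl : ∀ (B : Finset Pq) (ψ : AddChar G ℂ),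
      (offG qE B).Qc (fun q : MP_1a91b9_ntQ.Off B => ψ (cl q.1)) ∨
      (offG qE B).Nq fun q : MP_1a91b9_ntQ.Off B => ψ (cl q.1)) : DSJB cl := by
  classical
  intro k A _ _ f c T B hT hi x g hg hgv t κ₀ hκ
  have hM : ∀ s : Finset (Fin k), s.Nonempty → ∀ u : Ls A s → Unit,
      MD (BG B cl x) (inJ (fun a : Ls A s => bsQ (f a.1.1 a.2) (c a.1.1 a.2)) fun a => T a.1.1 a.2)
        (cinf ^ Fintype.card (Ls A s)) := by
    intro s hs u
    have hne : Nonempty (Ls A s) := by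
      obtain ⟨i, hi⟩ := hs
      exact ⟨⟨⟨i, hi⟩, Classical.arbitrary _⟩⟩
    exact MD_inG qE_OK.rec_ (fun a : Ls A s => bsQ (f a.1.1 a.2) (c a.1.1 a.2)) (qG_OK B) (hv B)
      (fun a => hT _ _) (bsQ_inj (ls_inj s hi)) cl (hcl B) x
  have h := comb_B (BB := BG B cl x) (fun i a (_ : Unit) => bsQ (f i a) (c i a)) (fun _ _ _ => 1) T
    hM (fun i a S => GdE (f i a) (c i a) S) (fun i a S => by
      rw [sum_const, card_univ, Fintype.card_unit, one_smul, one_mul]
      split_ifs <;> norm_num) (fun i a S => by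
      rw [sum_const, card_univ, Fintype.card_unit, one_smul, one_mul]
      split_ifs <;> norm_num) (fun i a S hS => by
      rw [sum_const, card_univ, Fintype.card_unit, one_smul, one_mul,
        if_neg fun h => hS ((bsQ_one _ _ _).1 h)]) (fun i a => by simp) (fun i a => by simp) hg
    (fun i => (hgv i).trans (le_of_eq (by simp))) t hκ
  exact dsg_of h

/-- **The binomial law for pairs in the classes of `G`.** -/
theorem dspB {cl : Pq → G} (hv : ∀ B, VanP (offG qE B))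
    (hcl : ∀ (B : Finset Pq) (ψ : AddChar G ℂ),
      (offG qE B).Qc (fun q : MP_1a91b9_ntQ.Off B => ψ (cl q.1)) ∨
      (offG qE B).Nq fun q : MP_1a91b9_ntQ.Off B => ψ (cl q.1)) : DSPB cl := by
  classical
  intro k A _ _ f c T B hT hi x g hg hgv t κ₀ hκ
  have hM : ∀ s : Finset (Fin k), s.Nonempty → ∀ u : Ls A s → Fin 3,
      MD (BG B cl x) (inJ (fun a : Ls A s => trQ (f a.1.1 a.2) (c a.1.1 a.2) (u a))
        fun a => T a.1.1 a.2) (cinf ^ Fintype.card (Ls A s)) := by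
    intro s hs u
    have hne : Nonempty (Ls A s) := by
      obtain ⟨i, hi⟩ := hs
      exact ⟨⟨⟨i, hi⟩, Classical.arbitrary _⟩⟩
    refine MD_inG qE_OK.rec_ (fun a : Ls A s => trQ (f a.1.1 a.2) (c a.1.1 a.2) (u a)) (qG_OK B)
      (hv B) (fun a => hT _ _) ?_ cl (hcl B) x
    have e : (fun a : Ls A s => ((trQ (f a.1.1 a.2) (c a.1.1 a.2) (u a)).ρ,
        (trQ (f a.1.1 a.2) (c a.1.1 a.2) (u a)).τ, T a.1.1 a.2)) =
        fun a => (1 + F4.tr (c a.1.1 a.2), (if f a.1.1 a.2 = true then (1 : ZMod 2) else 0),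
          T a.1.1 a.2) := funext fun a => by rw [trQ_rho, trQ_tau]
    rw [e]
    intro a a' h
    have h1 : 1 + F4.tr (c a.1.1 a.2) = 1 + F4.tr (c a'.1.1 a'.2) := congrArg Prod.fst h
    have h2 : (if f a.1.1 a.2 = true then (1 : ZMod 2) else 0) =
        if f a'.1.1 a'.2 = true then 1 else 0 := congrArg (fun x => x.2.1) h
    have h3 : T a.1.1 a.2 = T a'.1.1 a'.2 := congrArg (fun x => x.2.2) h
    have h4 : ∀ x y : Bool, (if x = true then (1 : ZMod 2) else 0) =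
        (if y = true then 1 else 0) → x = y := by decide
    exact ls_inj s hi (Prod.ext (h4 _ _ h2) (Prod.ext (add_left_cancel h1) h3))
  have h := comb_B (BB := BG B cl x) (fun i a j => trQ (f i a) (c i a) j)
    (fun i a j => trW (f i a) j) T hM
    (fun i a S => GdE (f i a) (c i a) S ∧ GdE (f i a) (c i a + 1) S)
    (fun i a S => (tr_val (f i a) (c i a) S).1) (fun i a S => (tr_val (f i a) (c i a) S).2.1)
    (fun i a S h => (tr_val (f i a) (c i a) S).2.2 h) (fun i a => by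
      rw [trW_sum]
      split_ifs <;> norm_num) (fun i a => by
      rw [trW_sum]
      split_ifs <;> norm_num) hg (fun i => (hgv i).trans (le_of_eq (prod_congr rfl fun a _ => by
        rw [trW_sum]
        split_ifs
        · ring
        · ring))) t hκ
  exact dsg_of h

end

end Pool.Agent.Lib.MP_1a91b9_ntZ.D3
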