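import Pool.Agent.Lib.MP_1a91b9_ntN.G.GTr
import Pool.Agent.Lib.MP_1a91b9_ntZ.D3Cls

/-!
# MP_1a91b9_nt (the binomial law), `Q(sqrt -3)`: from the sets of primes outside `B` to all the sets of
primes
-/

set_option autoImplicit false

namespace Pool.Agent.Lib.MP_1a91b9_ntZ.D3

open NumberField Finset Pool.Agent.Lib.MP_1a91b9_ntT Pool.Agent.Lib.MP_1a91b9_ntH
  Pool.Agent.Lib.MP_1a91b9_ntH2 Pool.Agent.Lib.MP_1a91b9_ntE
open Pool.Agent.Lib.MP_1a91b9_ntP (GdE DSG)
open Pool.Agent.Lib.MP_1a91b9_ntN.G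
open Pool.Agent.Lib.MP_1a91b9_ntZ

noncomputable section

variable {G : Type} [AddCommGroup G] {cl : Pq → G}

open Classical in
/-- The blocks of the twists in one class. -/
theorem fam_JB (hJ : DSJB cl) {k N : ℕ} (hN : 0 < N) (fk : Fin k → Fin N → Bool)
    (ck : Fin k → Fin N → F4) (T : Fin k → Fin N → Finset Pq) (B : Finset Pq)
    (hTB : ∀ i n, T i n ⊆ B)
    (hinj : ∀ i n i' n', fk i n = fk i' n' → F4.tr (ck i n) = F4.tr (ck i' n') →
      T i n = T i' n' → (i, n) = (i', n')) (t : ℕ) {κ₀ : ℝ} (hκ : κ₀ < bn k t (Da.cinf ^ N))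
    (f : Bool) (c : F4) (g : G) (ε : ℝ) (hε : 0 < ε) :
    ∃ X₀ : ℕ, ∀ X : ℕ, X₀ ≤ X →
      κ₀ * (((Sx Pq X).filter fun S => ∑ q ∈ S, cl q = g).card : ℝ) - ε * X ≤
        (((Sx Pq X).filter fun S => ∑ q ∈ S, cl q = g ∧
          Atl t fun i => ∀ n, GdE (xor f (fk i n)) (c + ck i n) (symmDiff S (T i n))).card : ℝ) := by
  have hne : Nonempty (Fin N) := ⟨⟨0, hN⟩⟩
  have hc0 : 0 ≤ Da.cinf ^ N := pow_nonneg cinf_pos.le _
  obtain ⟨X₀, h0⟩ := DS_of_DSG (cl := cl) B g
    (Q := fun S => Atl t fun i => ∀ n, GdE (xor f (fk i n)) (c + ck i n) (symmDiff S (T i n)))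
    (fun B' hB' g' =>
      DSG.mono (hJ k (fun _ => Fin N) (fun i n => xor f (fk i n)) (fun i n => c + ck i n)
        (fun i n => symmDiff B' (T i n)) B (fun i n => by
          intro q hq
          rw [mem_symmDiff] at hq
          rcases hq with hq | hq
          · exact hB' hq.1
          · exact hTB i n hq.1)
        (fun p p' h => by
          obtain ⟨i, n⟩ := p
          obtain ⟨i', n'⟩ := p'
          simp only [Prod.mk.injEq] at h
          have h5 := hinj i n i' n' (xor_cancelE h.1) (tr_cancelE h.2.1) (symmDiff_cancelE h.2.2)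
          simp only [Prod.mk.injEq] at h5
          obtain ⟨rfl, rfl⟩ := h5
          rfl)
        g' (Da.cinf ^ N) hc0 (fun i => by rw [Fintype.card_fin]) t κ₀ hκ) fun S hS h2 =>
          h2.mono fun i h3 n => by
            have e := symm_unionE (hTB i n) hB' hS
            rw [e]
            exact h3 n) ε hε
  exact ⟨X₀, fun X hX => h0 X hX⟩

open Classical in
/-- The blocks of the twists in one class, with the pairs of signs. -/
theorem fam_PB (hP : DSPB cl) {k N : ℕ} (hN : 0 < N) {fk : Fin k → Fin N → Bool}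
    {ck : Fin k → Fin N → F4} {T : Fin k → Fin N → Finset Pq}
    (h : ∀ i, LabS (fk i) (ck i) (T i))
    (hX : ∀ i i' n n', i ≠ i' → ¬ (fk i n = fk i' n' ∧ ck i n = ck i' n' ∧ T i n = T i' n'))
    (B : Finset Pq) (hTB : ∀ i n, T i n ⊆ B) (t : ℕ) {κ₀ : ℝ} (hκ : κ₀ < bn k t (cS3 ^ N))
    (f : Bool) (c : F4) (g : G) (ε : ℝ) (hε : 0 < ε) :
    ∃ X₀ : ℕ, ∀ X : ℕ, X₀ ≤ X →
      κ₀ * (((Sx Pq X).filter fun S => ∑ q ∈ S, cl q = g).card : ℝ) - ε * X ≤
        (((Sx Pq X).filter fun S => ∑ q ∈ S, cl q = g ∧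
          Atl t fun i => ∀ n, GdE (xor f (fk i n)) (c + ck i n) (symmDiff S (T i n))).card : ℝ) := by
  have hc0 : 0 ≤ cS3 ^ N := pow_nonneg (Real.sqrt_nonneg _) _
  have hne : ∀ i, Nonempty (Rp (ck i)) := fun i => by
    have h1 := (h i).card
    exact Fintype.card_pos_iff.1 (by omega)
  choose σ h1 h2 h3 using fun i => (h i).sgn
  obtain ⟨X₀, h0⟩ := DS_of_DSG (cl := cl) B g
    (Q := fun S => Atl t fun i => ∀ n, GdE (xor f (fk i n)) (c + ck i n) (symmDiff S (T i n)))
    (fun B' hB' g' =>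
      DSG.mono (hP k (fun i => Rp (ck i)) (fun i n => xor f (fk i n.1)) (fun i n => c + ck i n.1)
        (fun i n => symmDiff B' (T i n.1)) B (fun i n => by
          intro q hq
          rw [mem_symmDiff] at hq
          rcases hq with hq | hq
          · exact hB' hq.1
          · exact hTB i _ hq.1)
        (fun p p' h4 => by
          obtain ⟨i, n⟩ := p
          obtain ⟨i', n'⟩ := p'
          simp only [Prod.mk.injEq] at h4
          have h5 := tr_cancelE h4.2.1
          have h6 := (f4_a n.2 n'.2).2.2 h5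
          have h7 := xor_cancelE h4.1
          have h8 := symmDiff_cancelE h4.2.2
          by_cases hii : i = i'
          · subst hii
            have h9 : n = n' := Subtype.ext ((h i).inj _ _ h7 h6 h8)
            rw [h9]
          · exact absurd ⟨h7, h6, h8⟩ (hX i i' n.1 n'.1 hii))
        g' (cS3 ^ N) hc0 (fun i => (h i).le_PiP f) t κ₀ hκ) fun S hS h4 =>
          h4.mono fun i h5 n => by
            have e1 := symm_unionE (hTB i n) hB' hS
            rw [e1]
            by_cases hi : (ck i n).a = 0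
            · exact (h5 ⟨n, hi⟩).1
            · have hi' : (ck i (σ i n)).a = 0 := by
                rw [h2]
                exact f4_b hi
              have h6 := (h5 ⟨σ i n, hi'⟩).2
              simp only at h6
              rw [h1, h2, h3, add_assoc, f4_c] at h6
              exact h6) ε hε
  exact ⟨X₀, fun X hX => h0 X hX⟩

end

end Pool.Agent.Lib.MP_1a91b9_ntZ.D3
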