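import Pool.Agent.Lib.MP_1a91b9_ntN.G.GDen
import Pool.Agent.Lib.MP_1a91b9_ntZ.D3Tr

/-!
# MP_1a91b9_nt (the binomial law), `Q(sqrt -3)`: the squarefree `d` in a class for which at least `t`
of the blocks are good
-/

set_option autoImplicit false

namespace Pool.Agent.Lib.MP_1a91b9_ntZ.D3

open NumberField Finset Pool.Agent.Lib.MP_1a91b9_ntT Pool.Agent.Lib.MP_1a91b9_ntH
  Pool.Agent.Lib.MP_1a91b9_ntH2 Pool.Agent.Lib.MP_1a91b9_ntE
open Pool.Agent.Lib.MP_1a91b9_ntP (GdE DSG)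
open Pool.Agent.Lib.MP_1a91b9_ntN.G
open Pool.Agent.Lib.MP_1a91b9_ntS.G (FamI LowI cndI_cls mod3 Q3 Q3_ne aG3 A_of_class mem_SR3)
open Pool.Agent.Lib.MP_1a91b9_ntR (GR cq mem_SP SR SP)
open Pool.Agent.Lib.MP_1a91b9_ntZ

noncomputable section

variable {I : Type} [Fintype I] [DecidableEq I] {μ : I → 𝓞 K} {b : I → Bool} {jj : I → ℕ}
  {cc : I → F4}

open Classical in
theorem den_coreB (H : Fm3 μ b jj cc) {Λ : Type} (a : Λ → 𝓞 K) (fk : Λ → Bool)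
    (ck : Λ → F4) (T : Λ → Finset Pq) (s : Λ → 𝓞 K) (hs : ∀ i, s i ≠ 0)
    (hT : ∀ i, a i = phE (fk i) (ck i) (T i) * s i ^ 2) (R : (Λ → Prop) → Prop)
    (hR : ∀ P Q : Λ → Prop, (∀ i, P i → Q i) → R P → R Q) (κ κ' : ℝ) (hκ : κ' < κ)
    (hfam : ∀ (n : ℕ) (f : Bool) (c : F4) (g : GR (mod3 n)) (ε : ℝ), 0 < ε →
      ∃ X₀ : ℕ, ∀ X : ℕ, X₀ ≤ X →
      κ * (((Sx Pq X).filter fun S => ∑ q ∈ S, cl3 n q = g).card : ℝ) - ε * X ≤
        (((Sx Pq X).filter fun S => ∑ q ∈ S, cl3 n q = g ∧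
          R fun i => GdE (xor f (fk i)) (c + ck i) (symmDiff S (T i))).card : ℝ))
    {m u : 𝓞 K} {n : ℕ} (hm : m ∣ 2 ^ n) (hu : ¬ (4 ∣ m ∧ 4 ∣ u)) (Pr : 𝓞 K → Prop)
    (hPr : ∀ d : 𝓞 K, Squarefree d → (R fun i => ∃ (f : Bool) (c : F4) (S : Finset Pq) (t : 𝓞 K),
      t ≠ 0 ∧ a i * d = phE f c S * t ^ 2 ∧ GdE f c S) → Pr d) :
    ∀ᶠ X : ℝ in Filter.atTop,
      κ' ≤ (Nat.card {x : 𝓞 K // Squarefree x ∧ m ∣ x - u ∧ |Algebra.norm ℤ x| ≤ X ∧ Pr x} : ℝ) /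
        (Nat.card {x : 𝓞 K // Squarefree x ∧ m ∣ x - u ∧ |Algebra.norm ℤ x| ≤ X} : ℝ) := by
  have hm' : m ∣ Q3 n := hm.trans ⟨2 ^ 2 * s3, by unfold Q3; ring⟩
  refine H.fam.low (mod3 n) (Q3_ne n) (cndI_cls hm') ?_ hκ
    (Good := fun i S => R fun k => GdE (xor (b i) (fk k)) (qd.A S + cc i + ck k) (symmDiff S (T k)))
    ?_ Pr ?_
  · obtain ⟨i, y, h1, h2⟩ := H.cls hm hu
    exact ⟨i, y, h1, h2⟩
  · intro i g _ ε hε
    obtain ⟨X₀, h0⟩ := hfam n (b i) (aG3 n g + cc i) g ε hε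
    refine ⟨X₀, fun X hX => ?_⟩
    refine le_trans (le_of_eq ?_) ((h0 X hX).trans (le_of_eq ?_))
    · rw [card_SR3]
    · rw [card_SP3]
      refine congrArg Nat.cast (cnt_congr _ _ _ fun S => and_congr_right fun h3 => ?_)
      have h5 : qd.A S = aG3 n g := A_of_class h3
      simp only [h5]
  · intro i S _ hG
    refine hPr _ (H.fam.sqf i S) (hR _ _ (fun k hk => ?_) hG)
    obtain ⟨t, h3, h4⟩ := phE_mul (b i) (fk k) (qd.A S + cc i) (ck k) S (T k)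
    refine ⟨xor (b i) (fk k), qd.A S + cc i + ck k, symmDiff S (T k), t * s k * wO ^ (2 * jj i),
      mul_ne_zero (mul_ne_zero h3 (hs k)) (wO_pow_ne _), ?_, hk⟩
    have e : μ i * DD S = wO ^ jj i * phE (b i) (qd.A S + cc i) S := H.lab i S
    show a k * (μ i * DD S) = _
    rw [e, hT k, wO_pow_sq (jj i), mul_pow, mul_pow]
    linear_combination (s k) ^ 2 * (wO ^ (2 * jj i)) ^ 2 * h4

/-- The labels of the elements `a`. -/
theorem exists_lab {k N : ℕ} {a : Fin k → Fin N → 𝓞 K} (hne : ∀ i n, a i n ≠ 0) :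
    ∃ (fk : Fin k → Fin N → Bool) (ck : Fin k → Fin N → F4) (T : Fin k → Fin N → Finset Pq)
      (s : Fin k → Fin N → 𝓞 K), (∀ i n, s i n ≠ 0) ∧
      (∀ i n, a i n = phE (fk i n) (ck i n) (T i n) * s i n ^ 2) := by
  have h1 : ∀ i n, ∃ (f : Bool) (c : F4) (T : Finset Pq) (s : 𝓞 K), s ≠ 0 ∧
      a i n = phE f c T * s ^ 2 := fun i n => exists_sfE (a i n) (hne i n)
  choose fk ck T s hs hT using h1
  exact ⟨fk, ck, T, s, hs, hT⟩

/-- **No two of the `a` are equal up to sign modulo squares.** -/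
theorem den_G1B (H : Fm3 μ b jj cc) (hJ : ∀ n, DSJB (cl3 n)) {k N : ℕ} (hN : 0 < N)
    {a : Fin k → Fin N → 𝓞 K} (hne : ∀ i n, a i n ≠ 0)
    (hdis : ∀ i n i' n', (i, n) ≠ (i', n') →
      ¬ ∃ y : K, y ^ 2 = (a i n : K) * a i' n' ∨ y ^ 2 = -((a i n : K) * a i' n'))
    {m u : 𝓞 K} {n : ℕ} (hm : m ∣ 2 ^ n) (hu : ¬ (4 ∣ m ∧ 4 ∣ u)) (t : ℕ) (Pr : 𝓞 K → Prop)
    (hPr : ∀ d : 𝓞 K, Squarefree d → (Atl t fun i => ∀ n, ∃ (f : Bool) (c : F4) (S : Finset Pq)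
      (r : 𝓞 K), r ≠ 0 ∧ a i n * d = phE f c S * r ^ 2 ∧ GdE f c S) → Pr d)
    (ε : ℝ) (hε : 0 < ε) :
    ∀ᶠ X : ℝ in Filter.atTop, bn k t (Da.cinf ^ N) - ε ≤
      (Nat.card {x : 𝓞 K // Squarefree x ∧ m ∣ x - u ∧ |Algebra.norm ℤ x| ≤ X ∧ Pr x} : ℝ) /
        (Nat.card {x : 𝓞 K // Squarefree x ∧ m ∣ x - u ∧ |Algebra.norm ℤ x| ≤ X} : ℝ) := by
  classical
  obtain ⟨fk, ck, T, s, hs, hT⟩ := exists_lab hne
  have hTB : ∀ i n, T i n ⊆ univ.biUnion fun i => univ.biUnion (T i) := fun i n =>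
    (subset_biUnion_of_mem (T i) (mem_univ n)).trans
      (subset_biUnion_of_mem (fun i => univ.biUnion (T i)) (mem_univ i))
  have hinj : ∀ i n i' n', fk i n = fk i' n' → F4.tr (ck i n) = F4.tr (ck i' n') →
      T i n = T i' n' → (i, n) = (i', n') := by
    intro i n i' n' e1 e2 e3
    by_contra hii
    apply hdis i n i' n' hii
    refine ⟨((phE (fk i n) (ck i' n') (T i n) * (s i n * s i' n') : 𝓞 K) : K), ?_⟩
    rcases tr_eq_iffE e2 with e4 | e4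
    · left
      have h2 : (phE (fk i n) (ck i' n') (T i n) * (s i n * s i' n')) ^ 2 = a i n * a i' n' := by
        conv_rhs => rw [hT i n, hT i' n', ← e1, e4, ← e3]
        ring
      exact_mod_cast congrArg (fun z : 𝓞 K => (z : K)) h2
    · right
      have h2 : (phE (fk i n) (ck i' n') (T i n) * (s i n * s i' n')) ^ 2 =
          -(a i n * a i' n') := by
        conv_rhs => rw [hT i n, hT i' n', ← e1, e4, ← e3, phE_add_one]
        ring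
      exact_mod_cast congrArg (fun z : 𝓞 K => (z : K)) h2
  refine den_coreB H (Λ := Fin k × Fin N) (fun p => a p.1 p.2) (fun p => fk p.1 p.2)
    (fun p => ck p.1 p.2) (fun p => T p.1 p.2) (fun p => s p.1 p.2) (fun p => hs _ _)
    (fun p => hT _ _) (fun P => Atl t fun i => ∀ n, P (i, n))
    (fun P Q h hP => Atl.mono (fun i hi n => h _ (hi n)) hP) (bn k t (Da.cinf ^ N) - ε / 2)
    (bn k t (Da.cinf ^ N) - ε) (by linarith) (fun n f c g η hη => ?_) hm hu Pr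
    fun d hd h => hPr d hd h
  obtain ⟨X₀, h0⟩ := fam_JB (hJ n) hN fk ck T _ hTB hinj t
    (κ₀ := bn k t (Da.cinf ^ N) - ε / 2) (by linarith) f c g η hη
  refine ⟨X₀, fun X hX => le_trans (le_of_eq ?_) ((h0 X hX).trans (le_of_eq (congrArg Nat.cast
    (cnt_congr _ _ _ fun _ => Iff.rfl))))⟩
  rw [cnt_congr _ _ _ fun _ => Iff.rfl]

/-- **The blocks of the `a` are closed under the multiplication by `-1` modulo squares.** -/
theorem den_G2B (H : Fm3 μ b jj cc) (hP : ∀ n, DSPB (cl3 n)) {k N : ℕ} (hN : 0 < N)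
    {a : Fin k → Fin N → 𝓞 K} (hne : ∀ i n, a i n ≠ 0)
    (hdis : ∀ i n i' n', (i, n) ≠ (i', n') → ¬ ∃ y : K, y ^ 2 = (a i n : K) * a i' n')
    (hneg : ∀ i n, ∃ (n' : Fin N) (z : K), z ≠ 0 ∧ -(a i n : K) = a i n' * z ^ 2)
    {m u : 𝓞 K} {n : ℕ} (hm : m ∣ 2 ^ n) (hu : ¬ (4 ∣ m ∧ 4 ∣ u)) (t : ℕ) (Pr : 𝓞 K → Prop)
    (hPr : ∀ d : 𝓞 K, Squarefree d → (Atl t fun i => ∀ n, ∃ (f : Bool) (c : F4) (S : Finset Pq)
      (r : 𝓞 K), r ≠ 0 ∧ a i n * d = phE f c S * r ^ 2 ∧ GdE f c S) → Pr d)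
    (ε : ℝ) (hε : 0 < ε) :
    ∀ᶠ X : ℝ in Filter.atTop, bn k t (cS3 ^ N) - ε ≤
      (Nat.card {x : 𝓞 K // Squarefree x ∧ m ∣ x - u ∧ |Algebra.norm ℤ x| ≤ X ∧ Pr x} : ℝ) /
        (Nat.card {x : 𝓞 K // Squarefree x ∧ m ∣ x - u ∧ |Algebra.norm ℤ x| ≤ X} : ℝ) := by
  classical
  obtain ⟨fk, ck, T, s, hs, hT⟩ := exists_lab hne
  have hTB : ∀ i n, T i n ⊆ univ.biUnion fun i => univ.biUnion (T i) := fun i n =>
    (subset_biUnion_of_mem (T i) (mem_univ n)).trans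
      (subset_biUnion_of_mem (fun i => univ.biUnion (T i)) (mem_univ i))
  have hsK : ∀ i n, ((s i n : 𝓞 K) : K) ≠ 0 := fun i n => by exact_mod_cast hs i n
  have hTK : ∀ i n, ((a i n : 𝓞 K) : K) =
      ((phE (fk i n) (ck i n) (T i n) : 𝓞 K) : K) * ((s i n : 𝓞 K) : K) ^ 2 := by
    intro i n
    exact_mod_cast congrArg (fun z : 𝓞 K => (z : K)) (hT i n)
  have hsame : ∀ i n i' n', fk i n = fk i' n' → ck i n = ck i' n' → T i n = T i' n' →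
      (i, n) = (i', n') := by
    intro i n i' n' e1 e2 e3
    by_contra hii
    apply hdis i n i' n' hii
    refine ⟨((phE (fk i n) (ck i n) (T i n) * (s i n * s i' n') : 𝓞 K) : K), ?_⟩
    have h2 : (phE (fk i n) (ck i n) (T i n) * (s i n * s i' n')) ^ 2 = a i n * a i' n' := by
      conv_rhs => rw [hT i n, hT i' n', ← e1, ← e2, ← e3]
      ring
    exact_mod_cast congrArg (fun z : 𝓞 K => (z : K)) h2
  have hlab : ∀ i, LabS (fk i) (ck i) (T i) := by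
    intro i
    refine ⟨fun n n' e1 e2 e3 => congrArg Prod.snd (hsame i n i n' e1 e2 e3), ?_⟩
    intro n
    obtain ⟨l, z, hz, h2⟩ := hneg i n
    have h3 : ((phE (fk i n) (ck i n + 1) (T i n) : 𝓞 K) : K) *
        (((s i n : 𝓞 K) : K) / (((s i l : 𝓞 K) : K) * z)) ^ 2 =
        ((phE (fk i l) (ck i l) (T i l) : 𝓞 K) : K) := by
      have e0 : ((phE (fk i n) (ck i n + 1) (T i n) : 𝓞 K) : K) =
          -((phE (fk i n) (ck i n) (T i n) : 𝓞 K) : K) := by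
        rw [phE_add_one]
        push_cast
        ring
      rw [hTK i n, hTK i l] at h2
      rw [e0, div_pow, ← mul_div_assoc, div_eq_iff (pow_ne_zero 2 (mul_ne_zero (hsK i l) hz))]
      linear_combination h2
    obtain ⟨h4, h5, h6⟩ := phE_uniq h3
    exact ⟨l, h4.symm, h5.symm, h6.symm⟩
  refine den_coreB H (Λ := Fin k × Fin N) (fun p => a p.1 p.2) (fun p => fk p.1 p.2)
    (fun p => ck p.1 p.2) (fun p => T p.1 p.2) (fun p => s p.1 p.2) (fun p => hs _ _)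
    (fun p => hT _ _) (fun P => Atl t fun i => ∀ n, P (i, n))
    (fun P Q h hP => Atl.mono (fun i hi n => h _ (hi n)) hP) (bn k t (cS3 ^ N) - ε / 2)
    (bn k t (cS3 ^ N) - ε) (by linarith) (fun n f c g η hη => ?_) hm hu Pr
    fun d hd h => hPr d hd h
  obtain ⟨X₀, h0⟩ := fam_PB (hP n) hN hlab (fun i i' n n' hii h => hii (congrArg Prod.fst
    (hsame i n i' n' h.1 h.2.1 h.2.2))) _ hTB t (κ₀ := bn k t (cS3 ^ N) - ε / 2) (by linarith)
    f c g η hη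
  refine ⟨X₀, fun X hX => le_trans (le_of_eq ?_) ((h0 X hX).trans (le_of_eq (congrArg Nat.cast
    (cnt_congr _ _ _ fun _ => Iff.rfl))))⟩
  rw [cnt_congr _ _ _ fun _ => Iff.rfl]

end

end Pool.Agent.Lib.MP_1a91b9_ntZ.D3
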