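import Pool.Agent.Lib.MP_1a91b9_ntZ.Bin
import Pool.Agent.Lib.MP_1a91b9_ntR.DenB

/-!
# MP_1a91b9_nt (the binomial law), generic part R: the density of the squarefree `d` for which at least `t`
# of the blocks of twists are good

`DSBinR hQ Good c`: the lower density of the sets of primes for which at least `t` of the `k` blocks of labels
are good, if the labels of different blocks are different and not opposite. `Bad.den_bin`: the conclusion for
the squarefree elements `d` of a class and the twists by `a b n * d`.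
-/

set_option autoImplicit false
set_option linter.unusedSectionVars false

namespace Pool.Agent.Lib.MP_1a91b9_ntZ

open Finset
open Pool.Agent.Lib.MP_1a91b9_ntR

noncomputable section

variable {R : Type} [CommRing R] [IsDomain R] [IsPrincipalIdealRing R] [Qi R] [Pri R] {Q : R}
  {A : Type} [Fintype A] [DecidableEq A] {π : A → R}

/-- At least `t` of the `k` blocks of `N` labels are good (part D). -/
def DSBinR (hQ : (sys R).Mod Q) (Good : ZMod 2 × (A → ZMod 2) → Finset (Pg R) → Prop) (c : ℝ) :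
    Prop := ∀ (k N : ℕ), 0 < N → ∀ (i : Fin k → Fin N → ZMod 2 × (A → ZMod 2))
  (T : Fin k → Fin N → Finset (Pg R)) (B : Finset (Pg R)), (∀ b n, T b n ⊆ B) →
  (∀ b, Function.Injective fun n => (i b n, T b n)) →
  (∀ b b', b ≠ b' → ∀ n n', ((i b n).2, T b n) ≠ ((i b' n').2, T b' n')) →
  ∀ (g : GRB hQ B) (t : ℕ) (κ₀ : ℝ), κ₀ < bn k t (c ^ N) →
    DSBR hQ B g κ₀ fun S => Atl t fun b => ∀ n, Good (i b n) (S ∪ T b n)

/-- The families of all the sets of primes. -/
theorem lowF_bin (hQ : (sys R).Mod Q) (hQ0 : Q ≠ 0)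
    {Good : ZMod 2 × (A → ZMod 2) → Finset (Pg R) → Prop} {c : ℝ} (hJ : DSBinR hQ Good c) {k N : ℕ}
    (hN : 0 < N) (i : Fin k → Fin N → ZMod 2 × (A → ZMod 2)) (T : Fin k → Fin N → Finset (Pg R))
    (hinj : ∀ b, Function.Injective fun n => (i b n, T b n))
    (hdis : ∀ b b', b ≠ b' → ∀ n n', ((i b n).2, T b n) ≠ ((i b' n').2, T b' n'))
    (Rc : R → Prop) (t : ℕ) {κ : ℝ} (hκ : κ < bn k t (c ^ N)) :
    LowF hQ π Rc κ fun e S => Atl t fun b => ∀ n, Good (e + i b n) (symmDiff S (T b n)) := by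
  have := finite_GR hQ hQ0
  let _ : Fintype (GR hQ) := Fintype.ofFinite _
  obtain ⟨B, hB⟩ : ∃ B : Finset (Pg R),
      B = (univ : Finset (Fin k × Fin N)).biUnion fun x => T x.1 x.2 := ⟨_, rfl⟩
  have hTB : ∀ b n, T b n ⊆ B := fun b n => by
    rw [hB]
    exact subset_biUnion_of_mem (fun x : Fin k × Fin N => T x.1 x.2) (mem_univ (b, n))
  intro e g _
  refine dsr_of hQ B g fun B' hB' g' => ?_
  have h1 := hJ k N hN (fun b n => e + i b n) (fun b n => symmDiff B' (T b n)) B
    (fun b n => by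
      intro q hq
      rw [mem_symmDiff] at hq
      rcases hq with hq | hq
      · exact hB' hq.1
      · exact hTB b n hq.1)
    (fun b n n' h => by
      simp only [Prod.mk.injEq] at h
      apply hinj b
      show (i b n, T b n) = (i b n', T b n')
      rw [add_left_cancel h.1, symmDiff_cancel h.2])
    (fun b b' hbb n n' h => by
      simp only [Prod.mk.injEq, Prod.snd_add] at h
      apply hdis b b' hbb n n'
      rw [add_left_cancel h.1, symmDiff_cancel h.2]) g' t κ hκ
  refine h1.mono fun S hS _ h2 => h2.mono fun b h3 n => ?_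
  have e1 := symm_union (hTB b n) hB' hS
  rw [e1]
  exact h3 n

/-- **The density of the squarefree `d` for which at least `t` of the blocks of twists are good.** -/
theorem den_bin (hB : Bad π) (hQ : (sys R).Mod Q) (hQ0 : Q ≠ 0)
    {Good : ZMod 2 × (A → ZMod 2) → Finset (Pg R) → Prop} {c : ℝ} (hJ : DSBinR hQ Good c)
    {k N : ℕ} (hN : 0 < N) {a : Fin k → Fin N → R} (hne : ∀ b n, a b n ≠ 0)
    (hin : ∀ b n n', n ≠ n' → ¬ ∃ y : R, y ^ 2 = a b n * a b n')
    (hcr : ∀ b b', b ≠ b' → ∀ n n', ¬ ∃ y : R, y ^ 2 = a b n * a b' n' ∨ y ^ 2 = -(a b n * a b' n'))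
    {m u : R} (hm : m ∣ Q) (hu : ∀ x, ¬ (π x ^ 2 ∣ m ∧ π x ^ 2 ∣ u)) (P : Fin k → R → Prop)
    (hP : ∀ b (d : R), Squarefree d → (∀ n, ∃ (i : ZMod 2 × (A → ZMod 2)) (S : Finset (Pg R))
      (s : R), s ≠ 0 ∧ a b n * d = mu π i * DD S * s ^ 2 ∧ Good i S) → P b d)
    (t : ℕ) {κ' : ℝ} (hκ : κ' < bn k t (c ^ N)) :
    ∀ᶠ X : ℝ in Filter.atTop,
      κ' ≤ (Nat.card {x : R // Squarefree x ∧ m ∣ x - u ∧ |Algebra.norm ℤ x| ≤ X ∧
          Atl t fun b => P b x} : ℝ) /
        (Nat.card {x : R // Squarefree x ∧ m ∣ x - u ∧ |Algebra.norm ℤ x| ≤ X} : ℝ) := by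
  have h1 : ∀ b n, ∃ (i : ZMod 2 × (A → ZMod 2)) (T : Finset (Pg R)) (s : R), s ≠ 0 ∧
      a b n = mu π i * DD T * s ^ 2 := fun b n => hB.exists_sf (a b n) (hne b n)
  choose i T s hs hT using h1
  have hinj : ∀ b, Function.Injective fun n => (i b n, T b n) := by
    intro b n n' h
    by_contra hnn
    apply hin b n n' hnn
    simp only [Prod.mk.injEq] at h
    refine ⟨mu π (i b n) * DD (T b n) * s b n * s b n', ?_⟩
    rw [hT b n, hT b n', ← h.1, ← h.2]
    ring
  have hdis : ∀ b b', b ≠ b' → ∀ n n', ((i b n).2, T b n) ≠ ((i b' n').2, T b' n') := by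
    intro b b' hbb n n' h
    simp only [Prod.mk.injEq] at h
    apply hcr b b' hbb n n'
    refine ⟨pb π (i b n).2 * DD (T b n) * s b n * s b' n', ?_⟩
    have h2 : ((-1 : R) ^ (i b n).1.val * (-1) ^ (i b' n').1.val) = 1 ∨
        ((-1 : R) ^ (i b n).1.val * (-1) ^ (i b' n').1.val) = -1 := by
      rcases neg_one_pow_eq_or R (i b n).1.val with h3 | h3 <;>
        rcases neg_one_pow_eq_or R (i b' n').1.val with h4 | h4 <;> rw [h3, h4]
      · left; ring
      · right; ring
      · right; ring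
      · left; ring
    have h3 : a b n * a b' n' = ((-1 : R) ^ (i b n).1.val * (-1) ^ (i b' n').1.val) *
        (pb π (i b n).2 * DD (T b n) * s b n * s b' n') ^ 2 := by
      rw [hT b n, hT b' n']
      unfold mu
      rw [← h.1, ← h.2]
      ring
    rcases h2 with h2 | h2
    · left
      rw [h3, h2, one_mul]
    · right
      rw [h3, h2]
      ring
  obtain ⟨κ, h2, h3⟩ := exists_between hκ
  have hc : m ∣ Q := hm
  refine hB.low hQ hQ0 (Rc := fun x => m ∣ x - u) (cnd_cls hc) (hB.exists_cls hu) h2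
    (lowF_bin (π := π) hQ hQ0 hJ hN i T hinj hdis (fun x => m ∣ x - u) t h3)
    (fun x => Atl t fun b => P b x) ?_
  intro e S _ h4
  refine h4.mono fun b h4 => ?_
  refine hP b _ (hB.sqf e S) fun n => ?_
  obtain ⟨r, h5, h6⟩ := hB.mu_mul e (i b n) S (T b n)
  refine ⟨e + i b n, symmDiff S (T b n), r * s b n, mul_ne_zero h5 (hs b n), ?_, h4 n⟩
  rw [hT b n]
  linear_combination (s b n) ^ 2 * h6

end

end Pool.Agent.Lib.MP_1a91b9_ntZ
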