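import Pool.Agent.Lib.MP_1a91b9_ntZ.DenR
import Pool.Agent.Lib.MP_1a91b9_ntW.DJ.Dsj8

/-!
# MP_1a91b9_nt (the binomial law), `ℚ(√-2)`: the class level

`GWJ_bin`: for `n` blocks of `N` labels `(k b i, j b i, T b i)`, pairwise different in each block and with
different `(j, T)` for different blocks, the sets `S` of primes outside `B` for which at least `t` of the blocks
have `GW (k b i) (j b i) (S ∪ T b i) ≠ 0` for all `i` have lower density at least `bn n t (cinf2 ^ N)` in every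
class. `dsbin8 : DSBinR`.
-/

set_option autoImplicit false
set_option linter.unusedSectionVars false

namespace Pool.Agent.Lib.MP_1a91b9_ntZ

open NumberField Finset
open Pool.Agent.Lib.MP_1a91b9_ntH (PS pr mem_pr sg nm Sx mem_Sx)
open Pool.Agent.Lib.MP_1a91b9_ntQ (Dat2 Cl2 Off up Mz e2 sum_up disj_up)
open Pool.Agent.Lib.MP_1a91b9_ntQ.Da
open Pool.Agent.Lib.MP_1a91b9_ntV
open Pool.Agent.Lib.MP_1a91b9_ntR (sys GRB DSBR)
open Pool.Agent.Lib.MP_1a91b9_ntW

noncomputable section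

theorem uuJ_sum_le (p : Prop) [Decidable p] {K : Finset (ZMod 2)} (hK : K.Nonempty) :
    cinf2 * ∑ i, uuJ p K i ≤ 1 := by
  have h0 := cinf2_pos'
  have h1 := cinf2_half
  rw [Fin.sum_univ_three]
  unfold uuJ
  by_cases hp : p
  · rw [if_pos hp]
    change cinf2 * (0 + 0 + 1) ≤ 1
    linarith
  · rw [if_neg hp]
    rcases K_cases K hK with ⟨h2, h3, h4⟩ | ⟨h2, h3, h4⟩ | ⟨h2, h3, h4⟩
    · rw [if_pos h2, if_pos h3]
      change cinf2 * (1 / 2 + 1 / 2 + -1 / 2) ≤ 1
      linarith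
    · rw [if_pos h2, if_neg h3]
      change cinf2 * (1 + 0 + 0) ≤ 1
      linarith
    · rw [if_neg h2]
      change cinf2 * (0 + 1 + 0) ≤ 1
      linarith

section GW

variable {κ : Type} [Fintype κ] [DecidableEq κ] {D : Dat2 Pg κ} {w l : κ → ZMod 2}
  {B : Finset Pg} {G : Type} [AddCommGroup G] [Fintype G]

open Classical in
/-- **The joint density of the blocks.** -/
theorem GWJ_bin (h : Id8 D w l) (hD : OKw D w)
    (hB : ∀ (T : Finset Pg) (c : κ → ZMod 2), T ⊆ B → (T ≠ ∅ ∨ c ≠ 0) →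
      Mz B (fun q => e2 (D.ex1 T c q))) (C : Cl2 (D.off B) G) (h3 : C.H3) {cl : Pg → G}
    (hcl : ∀ q, C.cl q = cl q.1) {n N : ℕ} (hN : 0 < N) (k j : Fin n → Fin N → ZMod 2)
    (T : Fin n → Fin N → Finset Pg) (hT : ∀ b i, T b i ⊆ B)
    (hinj : ∀ b, Function.Injective fun i => (k b i, j b i, T b i))
    (hdis : ∀ b b', b ≠ b' → ∀ i i', (j b i, T b i) ≠ (j b' i', T b' i')) (g : G) (t : ℕ) {κ₀ : ℝ}
    (hκ : κ₀ < bn n t (cinf2 ^ N)) (ε : ℝ) (hε : 0 < ε) : ∃ X₀ : ℕ, ∀ X : ℕ, X₀ ≤ X →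
      κ₀ * ((SB B cl g X).card : ℝ) - ε * X ≤
        ((SB B cl g X).filter fun S => Atl t fun b => ∀ i,
          GW (k b i) (j b i) (S ∪ T b i) ≠ 0).card := by
  set f : Fin n → Fin N → ZMod 2 × Finset Pg := fun b i => (j b i, T b i) with hf
  set K : ZMod 2 × Finset Pg → Finset (ZMod 2) := fun a =>
    (univ.filter fun x : Fin n × Fin N => f x.1 x.2 = a).image fun x => k x.1 x.2 with hKdef
  set I : Fin n → Finset (ZMod 2 × Finset Pg) := fun b => univ.image (f b) with hI
  have hKb : ∀ b, ∀ a ∈ I b, K a = (univ.filter fun i => f b i = a).image (k b) := by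
    intro b a ha
    obtain ⟨i0, -, hi0⟩ := mem_image.1 ha
    ext z
    simp only [hKdef, mem_image, mem_filter, mem_univ, true_and]
    constructor
    · rintro ⟨⟨b', i⟩, h1, rfl⟩
      by_cases hbb : b = b'
      · subst hbb
        exact ⟨i, h1, rfl⟩
      · exact absurd (hi0.trans h1.symm) (hdis b b' hbb i0 i)
    · rintro ⟨i, h1, rfl⟩
      exact ⟨(b, i), h1, rfl⟩
  have hK : ∀ b, ∀ a ∈ I b, (K a).Nonempty := by
    intro b a ha
    rw [hKb b a ha]
    obtain ⟨i, -, hi⟩ := mem_image.1 ha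
    exact ⟨k b i, mem_image_of_mem (k b) (mem_filter.2 ⟨mem_univ i, hi⟩)⟩
  have hcard : ∀ b, ∑ a ∈ I b, (K a).card = N := by
    intro b
    have h1 : ∀ a ∈ I b, (K a).card = (univ.filter fun i => f b i = a).card := by
      intro a ha
      rw [hKb b a ha]
      refine card_image_of_injOn fun i hi i' hi' hii => hinj b ?_
      have e1 : f b i = a := (mem_filter.1 (mem_coe.1 hi)).2
      have e2 : f b i' = a := (mem_filter.1 (mem_coe.1 hi')).2
      have e3 : f b i = f b i' := e1.trans e2.symm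
      exact Prod.ext hii e3
    rw [sum_congr rfl h1, ← card_eq_sum_card_image, card_univ, Fintype.card_fin]
  have hIT : ∀ b, ∀ a ∈ I b, a.2 ⊆ B := by
    intro b a ha
    obtain ⟨i, -, hi⟩ := mem_image.1 ha
    rw [← hi]
    exact hT b i
  have hIdis : ∀ b b', b ≠ b' → Disjoint (I b) (I b') := by
    intro b b' hbb
    rw [disjoint_left]
    intro a ha ha'
    obtain ⟨i, -, hi⟩ := mem_image.1 ha
    obtain ⟨i', -, hi'⟩ := mem_image.1 ha'
    exact hdis b b' hbb i i' (hi.trans hi'.symm)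
  set αw : ZMod 2 := ∑ i, w i * C.A (Sum.inl i) g with hαw
  set αl : ZMod 2 := ∑ i, l i * C.A (Sum.inl i) g with hαl
  set u : ZMod 2 × Finset Pg → Fin 3 → ℝ := fun a => uuJ (a.1 = 0 ∨ αw + AS a.2 = 1) (K a) with hu
  -- the functions and their mean values
  set F : Fin n → Finset (Off B) → ℝ := fun b S =>
    if ∀ i, GW (k b i) (j b i) (up S ∪ T b i) ≠ 0 then 1 else 0 with hF
  set v : Fin n → ℝ := fun b => ∏ a ∈ I b, (cinf2 * ∑ i, u a i) with hv
  have hFS : ∀ X, ∀ S ∈ SG C g X, ∀ b, F b S = ∏ a ∈ I b, ∑ i, u a i *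
      if dt D w l (fun q => rr q.1) a.1 (αl + lS a.2) (up S ∪ a.2) i ≠ 0 then (1 : ℝ) else 0 := by
    intro X S hS b
    have hprod : ∀ a ∈ I b, (∑ i, u a i *
        if dt D w l (fun q => rr q.1) a.1 (αl + lS a.2) (up S ∪ a.2) i ≠ 0
          then (1 : ℝ) else 0) =
        if ∀ kk ∈ K a, GW kk a.1 (up S ∪ a.2) ≠ 0 then 1 else 0 := by
      intro a ha
      have hds : Disjoint (up S) a.2 := disjoint_of_subset_right (hIT b a ha) (disj_up S)
      have hA : AS (up S ∪ a.2) = αw + AS a.2 := by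
        rw [AS_union hds, hαw, ← dg_cls C w hS]
        congr 1
        exact sum_congr rfl fun q _ => (h.ew q).symm
      have hL : lS (up S ∪ a.2) = αl + lS a.2 := by
        rw [lS_union hds, hαl, ← dg_cls C l hS]
        congr 1
        exact sum_congr rfl fun q _ => (h.el q).symm
      refine uuJ_ind _ (hK b a ha) (G := fun kk => GW kk a.1 (up S ∪ a.2)) (fun hp kk => ?_)
        (fun hp => ?_) (dt_add ..)
      · exact GW_two h (by rw [hA]; exact hp)
      · have hp' : ¬ (a.1 = 0 ∨ AS (up S ∪ a.2) = 1) := by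
          rw [hA]
          exact hp
        have h1 := GW_zero h hp'
        have h2 := GW_one h hp'
        rw [hL] at h1 h2
        exact ⟨h1, h2⟩
    rw [prod_congr rfl hprod]
    have hiff : (∀ i, GW (k b i) (j b i) (up S ∪ T b i) ≠ 0) ↔
        ∀ a ∈ I b, ∀ kk ∈ K a, GW kk a.1 (up S ∪ a.2) ≠ 0 := by
      constructor
      · intro h1 a ha kk hkk
        rw [hKb b a ha] at hkk
        obtain ⟨i, hi, rfl⟩ := mem_image.1 hkk
        have h2 : f b i = a := (mem_filter.1 hi).2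
        rw [← h2]
        exact h1 i
      · intro h1 i
        have hm : f b i ∈ I b := mem_image_of_mem (f b) (mem_univ i)
        refine h1 (f b i) hm (k b i) ?_
        rw [hKb b _ hm]
        exact mem_image_of_mem (k b) (mem_filter.2 ⟨mem_univ i, rfl⟩)
    simp only [hF]
    by_cases hall : ∀ i, GW (k b i) (j b i) (up S ∪ T b i) ≠ 0
    · rw [prod_eq_one fun a ha => if_pos (hiff.1 hall a ha)]
      exact if_pos hall
    · have h1 : ∃ a ∈ I b, ¬ ∀ kk ∈ K a, GW kk a.1 (up S ∪ a.2) ≠ 0 := by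
        by_contra hcon
        exact hall (hiff.2 fun a ha => not_not.1 fun h2 => hcon ⟨a, ha, h2⟩)
      obtain ⟨a, ha, ha'⟩ := h1
      rw [prod_eq_zero ha (if_neg ha')]
      exact if_neg hall
  have hM : ∀ J : Finset (Fin n), J.Nonempty →
      Mn (SG C g) (fun S => ∏ b ∈ J, F b S) (∏ b ∈ J, v b) := by
    intro J hJ
    obtain ⟨b0, hb0⟩ := hJ
    obtain ⟨AJ, hAJ⟩ : ∃ AJ : Finset (ZMod 2 × Finset Pg), AJ = J.biUnion I := ⟨_, rfl⟩
    have hmem : ∀ a ∈ AJ, ∃ b ∈ J, a ∈ I b := by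
      intro a ha
      rw [hAJ] at ha
      exact mem_biUnion.1 ha
    have hne : Nonempty AJ := ⟨⟨f b0 ⟨0, hN⟩, by
      rw [hAJ]
      exact mem_biUnion.2 ⟨b0, hb0, mem_image_of_mem (f b0) (mem_univ _)⟩⟩⟩
    have hTA : ∀ a : AJ, a.1.2 ⊆ B := by
      intro a
      obtain ⟨b, -, hb⟩ := hmem a.1 a.2
      exact hIT b _ hb
    have hm := jd hD h.l0 h.lw hB C h3 (fun q => rr q.1) (A := AJ) (fun a => a.1.1)
      (T := fun a => a.1.2) hTA (fun a b h1 h2 => Subtype.ext (Prod.ext h1 h2))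
      (fun a => αl + lS a.1.2) g (fun a => u a.1)
    have hpw : (J : Set (Fin n)).PairwiseDisjoint I := fun b _ b' _ hbb => hIdis b b' hbb
    refine Mn.congr (f := fun S => ∏ a : AJ, ∑ i, u a.1 i *
      if dt D w l (fun q => rr q.1) a.1.1 (αl + lS a.1.2) (up S ∪ a.1.2) i ≠ 0
        then (1 : ℝ) else 0) hm (fun X S hS => ?_) ?_
    · rw [prod_congr rfl fun b _ => hFS X S hS b, ← prod_biUnion hpw, ← hAJ]
      exact (prod_coe_sort AJ fun a => ∑ i, u a i *
        if dt D w l (fun q => rr q.1) a.1 (αl + lS a.2) (up S ∪ a.2) i ≠ 0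
          then (1 : ℝ) else 0).symm
    · simp only [hv]
      rw [← prod_biUnion hpw, ← hAJ, prod_mul_distrib, prod_const, Fintype.card_coe]
      congr 1
      exact (prod_coe_sort AJ fun a => ∑ i, u a i).symm
  have hc0 : 0 ≤ cinf2 := cinf2_pos'.le
  obtain ⟨X0, h0⟩ := Mn.lower (B := SG C g) (F := F) (v := v)
    (P := fun b S => ∀ i, GW (k b i) (j b i) (up S ∪ T b i) ≠ 0)
    (fun b S => by
      simp only [hF]
      split_ifs <;> norm_num)
    (fun b S => by
      simp only [hF]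
      split_ifs <;> norm_num)
    (fun b S hPS => if_neg hPS) hM (g := cinf2 ^ N) (pow_nonneg hc0 N)
    (fun b => by
      have h9 : cinf2 ^ N = ∏ a ∈ I b, cinf2 ^ (K a).card :=
        (congrArg (fun n => cinf2 ^ n) (hcard b)).symm.trans (prod_pow_eq_pow_sum _ _ _).symm
      refine (le_of_eq h9).trans ?_
      exact prod_le_prod (fun a _ => pow_nonneg hc0 _) fun a ha => uuJ_sum _ (hK b a ha))
    (fun b => by
      refine prod_le_one (fun a ha => ?_) fun a ha => uuJ_sum_le _ (hK b a ha)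
      exact (pow_nonneg hc0 _).trans (uuJ_sum _ (hK b a ha)))
    t (κ₀ := κ₀) (by rw [Fintype.card_fin]; exact hκ) ε hε
  refine ⟨X0, fun X hX => ?_⟩
  rw [SB_eq C hcl, filter_map, card_map, card_map]
  exact h0 X hX

end GW

/-- **The class level for `ℚ(√-2)`.** -/
theorem dsbin8 (m : ℕ) : DSBinR (mod8 m) Go8 cinf2 := by
  classical
  intro n N hN i T B hT hinj hdis g t κ₀ hκ
  have hfin : Finite (GRB (mod8 m) B) := inferInstance
  have : Fintype (GRB (mod8 m) B) := Fintype.ofFinite _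
  refine (glue8 (fun ε hε => GWJ_bin id8 okw8 (fun T c h1 h2 => mz8 B T c h1 h2) (C8B m B)
    (h3_8B m B) (cl := cB8 m B) (fun _ => rfl) hN (fun b a => (i b a).1)
    (fun b a => (i b a).2 () + 1) T hT (fun b a a' haa => ?_) (fun b b' hbb a a' haa => ?_) g t hκ
    ε hε) fun S _ _ h => h).dsbr
  · apply hinj b
    have haa' : ((i b a).1, (i b a).2 () + 1, T b a) =
      ((i b a').1, (i b a').2 () + 1, T b a') := haa
    have e1 : (i b a).1 = (i b a').1 := congrArg (fun x => x.1) haa'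
    have e2 : (i b a).2 () + 1 = (i b a').2 () + 1 := congrArg (fun x => x.2.1) haa'
    have e3 : T b a = T b a' := congrArg (fun x => x.2.2) haa'
    refine Prod.ext (Prod.ext e1 ?_) e3
    funext x
    exact add_right_cancel e2
  · apply hdis b b' hbb a a'
    have e2 : (i b a).2 () + 1 = (i b' a').2 () + 1 := congrArg (fun x => x.1) haa
    have e3 : T b a = T b' a' := congrArg (fun x => x.2) haa
    refine Prod.ext ?_ e3
    funext x
    exact add_right_cancel e2

end

end Pool.Agent.Lib.MP_1a91b9_ntZ
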