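import Pool.Agent.Lib.MP_1a91b9_ntM.E.XDen
import Pool.Agent.Lib.MP_1a91b9_ntZ.Bin

/-!
# MP_1a91b9_nt (the binomial law), `ℚ(i)`, part D: at least `t` of the blocks of matrices

The mean values of the products of the events are known (`densX_ml`, the two sided form of `densX`); the
products over the blocks have the products as mean values, and `Mn.lower` gives the law for at least `t` of
the blocks.
-/

set_option autoImplicit false
set_option linter.unusedSectionVars false

namespace Pool.Agent.Lib.MP_1a91b9_ntZ.J4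

open Finset Pool.Agent.Lib.MP_1a91b9_ntH Pool.Agent.Lib.MP_1a91b9_ntQ
  Pool.Agent.Lib.MP_1a91b9_ntQ.Da Pool.Agent.Lib.MP_1a91b9_ntQ.M Pool.Agent.Lib.MP_1a91b9_ntM
  Pool.Agent.Lib.MP_1a91b9_ntM.E Pool.Agent.Lib.MP_1a91b9_ntZ

noncomputable section

variable {ι : Type} [DecidableEq ι] {κ : Type} [Fintype κ] [DecidableEq κ]

open Classical in
/-- The indicator of the event. -/
def indX {A : Type} {E : A → Type} [∀ a, Fintype (E a)] [∀ a, DecidableEq (E a)] (D : Dat2 ι κ)
    (ρ : (κ → ZMod 2) → ι → ZMod 2) (cA σ : A → κ → ZMod 2) (P : ∀ a, κ → E a → ZMod 2)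
    (R : ∀ a, Matrix (E a) (E a) (ZMod 2)) (z : ∀ a, Option (E a)) (b : A → Bool)
    (α : κ → ZMod 2) (a : A) (B : Finset ι) : ℝ :=
  if nX D ρ cA σ P R α a B = 1 ∧ ∀ e, z a = some e → k2X D ρ cA σ P R b a e B = 1
    then 1 else 0

/-- **The joint mean values.** -/
theorem densX_ml [PS ι] {D : Dat2 ι κ} {ρ : (κ → ZMod 2) → ι → ZMod 2} (hM : MVX D ρ)
    {A : Type} [Fintype A] [DecidableEq A] [Nonempty A] {E : A → Type} [∀ a, Fintype (E a)]
    [∀ a, DecidableEq (E a)] (cA σ : A → κ → ZMod 2) (P : ∀ a, κ → E a → ZMod 2)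
    (R : ∀ a, Matrix (E a) (E a) (ZMod 2)) (hF : FamX cA σ P R)
    (z : ∀ a, Option (E a)) (b : A → Bool) (hz : ∀ a, (z a).isSome = true → cA a ≠ 0)
    {G : Type} [AddCommGroup G] [Fintype G] (C : Cl2 D G) (γ : G) :
    Mn (SB ∅ C.cl γ) (fun B => ∏ a, indX D ρ cA σ P R z b (fun j => C.A j γ) a B)
      (∏ a, (if (z a).isSome = true then cinf2 / 2 else cinf2)) := by
  classical
  set α : κ → ZMod 2 := fun j => C.A j γ with hα
  set I : (A → Fin 3) → A → Finset ι → ℝ := fun s a B =>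
    if nX D ρ cA σ (fun a => (sy3 (P a) (R a) (z a) (s a)).P)
      (fun a => (sy3 (P a) (R a) (z a) (s a)).R) α a B = 1 then (1 : ℝ) else 0 with hI
  set J : (a : A) → Fin 3 → Finset ι → ℝ := fun a i B => I (fun _ => i) a B with hJ
  have hIJ : ∀ s a B, I s a B = J a (s a) B := fun s a B => rfl
  have h1 : ∀ s : A → Fin 3, ML (SB ∅ C.cl γ) (fun B => ∏ a, J a (s a) B)
      (cinf2 ^ Fintype.card A) := fun s =>
    ml_sy hM hF.sg (fun a => sy3 (P a) (R a) (z a) (s a))
      (fun a => sy3_OK (hF.bd a) (hF.sym a) (z a) (s a)) C γ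
  have h2 : ML (SB ∅ C.cl γ)
      (fun B => ∑ s : A → Fin 3, (∏ a, wz (z a).isSome (b a) (s a)) * ∏ a, J a (s a) B)
      (∑ s : A → Fin 3, (∏ a, wz (z a).isSome (b a) (s a)) * cinf2 ^ Fintype.card A) :=
    ML.sum univ fun s _ => (h1 s).smul _
  -- the event
  have h3 : ∀ B, ∑ s : A → Fin 3, (∏ a, wz (z a).isSome (b a) (s a)) * ∏ a, J a (s a) B =
      ∏ a, ∑ i, wz (z a).isSome (b a) i * J a i B := by
    intro B
    rw [Finset.prod_univ_sum, Fintype.piFinset_univ]
    exact sum_congr rfl fun s _ => (prod_mul_distrib).symm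
  have h4 : ∑ s : A → Fin 3, (∏ a, wz (z a).isSome (b a) (s a)) * cinf2 ^ Fintype.card A =
      ∏ a, (if (z a).isSome = true then cinf2 / 2 else cinf2) := by
    rw [← sum_mul]
    have h5 : ∑ s : A → Fin 3, ∏ a, wz (z a).isSome (b a) (s a) =
        ∏ a, ∑ i, wz (z a).isSome (b a) i := by
      rw [Finset.prod_univ_sum, Fintype.piFinset_univ]
    rw [h5, ← card_univ, ← prod_const, ← prod_mul_distrib]
    refine prod_congr rfl fun a _ => ?_
    rw [sum_wz]
    split_ifs <;> ring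
  have h5 : ∀ a B, ∑ i, wz (z a).isSome (b a) i * J a i B =
      indX D ρ cA σ P R z b α a B := by
    intro a B
    unfold indX
    rcases hza : z a with _ | e
    · have e0 : J a 0 B = if nX D ρ cA σ P R α a B = 1 then (1 : ℝ) else 0 := by
        show (if nX D ρ cA σ (fun a => (sy3 (P a) (R a) (z a) 0).P)
          (fun a => (sy3 (P a) (R a) (z a) 0).R) α a B = 1 then (1 : ℝ) else 0) = _
        have e1 : nX D ρ cA σ (fun a => (sy3 (P a) (R a) (z a) 0).P)
            (fun a => (sy3 (P a) (R a) (z a) 0).R) α a B = nX D ρ cA σ P R α a B := by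
          unfold MP_1a91b9_ntM.E.nX kX tX
          beta_reduce
          rw [hza]
          rfl
        rw [e1]
      rw [Fin.sum_univ_three, e0]
      simp [wz]
    · have hc : cA a ≠ 0 := hz a (by rw [hza]; rfl)
      have hk : ∀ i, J a i B = if (sy3 (P a) (R a) (some e) i).kw D (cA a)
          (rho D (ρ (cA a)) (σ a)) B = 1 then (1 : ℝ) else 0 := by
        intro i
        show (if nX D ρ cA σ (fun a => (sy3 (P a) (R a) (z a) i).P)
          (fun a => (sy3 (P a) (R a) (z a) i).R) α a B = 1 then (1 : ℝ) else 0) = _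
        rw [nX_eq_kX hc, ← hza]
        rfl
      have e1 := pencil_id D (cA a) (P a) (R a) (rho D (ρ (cA a)) (σ a)) B e (b a)
      have e2 : ∑ i, wz (some e).isSome (b a) i * J a i B =
          (1 / 2) * (if kW D (cA a) (P a) (R a) (rho D (ρ (cA a)) (σ a)) ∅ B = 1
            then (1 : ℝ) else 0) +
          (if b a = true then (1 / 2 : ℝ) else -(1 / 2)) *
            (if kW D (cA a) (P a) (R a + Matrix.single e e 1) (rho D (ρ (cA a)) (σ a)) ∅ B = 1
              then (1 : ℝ) else 0) +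
          (if b a = true then -(1 / 2 : ℝ) else 1 / 2) *
            (if kW D (cA a) (Pz (P a) e) (Rz (R a) e) (rho D (ρ (cA a)) (σ a)) ∅ B = 1
              then (1 : ℝ) else 0) := by
        rw [Fin.sum_univ_three, hk 0, hk 1, hk 2]
        rfl
      rw [e2, ← e1, nX_eq_kX hc]
      have e3 : (∀ e', some e = some e' → k2X D ρ cA σ P R b a e' B = 1) ↔
          k2X D ρ cA σ P R b a e B = 1 :=
        ⟨fun h => h e rfl, fun h e' he' => by
          rw [← Option.some.inj he']
          exact h⟩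
      have e4 : k2X D ρ cA σ P R b a e B =
          if b a = true then kW D (cA a) (P a) (R a + Matrix.single e e 1)
            (rho D (ρ (cA a)) (σ a)) ∅ B
          else kW D (cA a) (Pz (P a) e) (Rz (R a) e) (rho D (ρ (cA a)) (σ a)) ∅ B := rfl
      rw [← e4]
      by_cases g0 : kW D (cA a) (P a) (R a) (rho D (ρ (cA a)) (σ a)) ∅ B = 1 <;>
        by_cases g1 : k2X D ρ cA σ P R b a e B = 1
      · rw [if_pos g0, if_pos g1, if_pos ⟨g0, e3.2 g1⟩, one_mul]
      · rw [if_neg g1, mul_zero, if_neg fun h => g1 (e3.1 h.2)]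
      · rw [if_neg g0, zero_mul, if_neg fun h => g0 h.1]
      · rw [if_neg g0, zero_mul, if_neg fun h => g0 h.1]
  rw [h4] at h2
  refine Mn.congr (f := fun B => ∑ s : A → Fin 3, (∏ a, wz (z a).isSome (b a) (s a)) *
    ∏ a, J a (s a) B) h2 (fun X B _ => ?_) rfl
  rw [h3 B]
  exact prod_congr rfl fun a _ => (h5 a B).symm

theorem indX_nonneg {A : Type} {E : A → Type} [∀ a, Fintype (E a)] [∀ a, DecidableEq (E a)]
    (D : Dat2 ι κ) (ρ : (κ → ZMod 2) → ι → ZMod 2) (cA σ : A → κ → ZMod 2)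
    (P : ∀ a, κ → E a → ZMod 2) (R : ∀ a, Matrix (E a) (E a) (ZMod 2)) (z : ∀ a, Option (E a))
    (b : A → Bool) (α : κ → ZMod 2) (a : A) (B : Finset ι) :
    0 ≤ indX D ρ cA σ P R z b α a B := by
  unfold indX
  split_ifs
  · exact zero_le_one
  · exact le_rfl

theorem indX_le_one {A : Type} {E : A → Type} [∀ a, Fintype (E a)] [∀ a, DecidableEq (E a)]
    (D : Dat2 ι κ) (ρ : (κ → ZMod 2) → ι → ZMod 2) (cA σ : A → κ → ZMod 2)
    (P : ∀ a, κ → E a → ZMod 2) (R : ∀ a, Matrix (E a) (E a) (ZMod 2)) (z : ∀ a, Option (E a))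
    (b : A → Bool) (α : κ → ZMod 2) (a : A) (B : Finset ι) :
    indX D ρ cA σ P R z b α a B ≤ 1 := by
  unfold indX
  split_ifs
  · exact le_rfl
  · exact zero_le_one

open Classical in
/-- **At least `t` of the blocks.** -/
theorem densX_atl [PS ι] {D : Dat2 ι κ} {ρ : (κ → ZMod 2) → ι → ZMod 2} (hM : MVX D ρ)
    {A : Type} [Fintype A] [DecidableEq A] {E : A → Type} [∀ a, Fintype (E a)]
    [∀ a, DecidableEq (E a)] (cA σ : A → κ → ZMod 2) (P : ∀ a, κ → E a → ZMod 2)
    (R : ∀ a, Matrix (E a) (E a) (ZMod 2)) (hF : FamX cA σ P R)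
    (z : ∀ a, Option (E a)) (b : A → Bool) (hz : ∀ a, (z a).isSome = true → cA a ≠ 0)
    {G : Type} [AddCommGroup G] [Fintype G] (C : Cl2 D G) (γ : G)
    (hc0 : 0 ≤ cinf2) (hc1 : cinf2 ≤ 1)
    {I : Type} [Fintype I] [DecidableEq I] (bl : A → I) (t : ℕ) {v κ₀ : ℝ} (hv0 : 0 ≤ v)
    (hv : ∀ i, v ≤ ∏ a ∈ univ.filter (fun a => bl a = i),
      (if (z a).isSome = true then cinf2 / 2 else cinf2))
    (hκ : κ₀ < bn (Fintype.card I) t v) (ε : ℝ) (hε : 0 < ε) :
    ∃ X₀ : ℕ, ∀ X : ℕ, X₀ ≤ X →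
      κ₀ * ((SB ∅ C.cl γ X).card : ℝ) - ε * X ≤
        (((SB ∅ C.cl γ X).filter fun B => Atl t fun i => ∀ a, bl a = i →
          (nX D ρ cA σ P R (fun j => C.A j γ) a B = 1 ∧
          ∀ e, z a = some e → k2X D ρ cA σ P R b a e B = 1)).card : ℝ) := by
  have hw0 : ∀ a, 0 ≤ (if (z a).isSome = true then cinf2 / 2 else cinf2) := fun a => by
    split_ifs <;> linarith
  have hw1 : ∀ a, (if (z a).isSome = true then cinf2 / 2 else cinf2) ≤ 1 := fun a => by
    split_ifs <;> linarith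
  refine Mn.lower (F := fun i B => ∏ a ∈ univ.filter (fun a => bl a = i),
      indX D ρ cA σ P R z b (fun j => C.A j γ) a B)
    (v := fun i => ∏ a ∈ univ.filter (fun a => bl a = i),
      (if (z a).isSome = true then cinf2 / 2 else cinf2))
    (P := fun i B => ∀ a, bl a = i → (nX D ρ cA σ P R (fun j => C.A j γ) a B = 1 ∧
          ∀ e, z a = some e → k2X D ρ cA σ P R b a e B = 1))
    (fun i B => prod_nonneg fun a _ => indX_nonneg _ _ _ _ _ _ _ _ _ _ _)
    (fun i B => prod_le_one (fun a _ => indX_nonneg _ _ _ _ _ _ _ _ _ _ _)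
      fun a _ => indX_le_one _ _ _ _ _ _ _ _ _ _ _)
    (fun i B h => ?_) (fun J _ => ?_) hv0 hv
    (fun i => prod_le_one (fun a _ => hw0 a) fun a _ => hw1 a) t hκ ε hε
  · push Not at h
    obtain ⟨a, ha, h1⟩ := h
    refine prod_eq_zero (mem_filter.2 ⟨mem_univ a, ha⟩) (if_neg fun h2 => ?_)
    obtain ⟨e, he, he2⟩ := h1 h2.1
    exact he2 (h2.2 e he)
  · -- the products over the union of the blocks of `J`
    have hfib : ∀ w : A → ℝ, ∏ i ∈ J, ∏ a ∈ univ.filter (fun a => bl a = i), w a =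
        ∏ a : {a // bl a ∈ J}, w a.1 := by
      intro w
      rw [← Finset.prod_subtype (univ.filter fun a => bl a ∈ J) (p := fun a => bl a ∈ J)
        (fun a => by simp) w]
      rw [← Finset.prod_fiberwise_of_maps_to (s := univ.filter fun a => bl a ∈ J) (t := J)
        (g := bl) (fun a ha => (mem_filter.1 ha).2) w]
      refine prod_congr rfl fun i hi => prod_congr ?_ fun a _ => rfl
      ext a
      simp only [mem_filter, mem_univ, true_and]
      constructor
      · rintro rfl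
        exact ⟨hi, rfl⟩
      · exact fun h => h.2
    rcases isEmpty_or_nonempty {a // bl a ∈ J} with hE | hE
    · refine (Mn.one _).congr (fun X B _ => ?_) ?_
      · rw [hfib fun a => indX D ρ cA σ P R z b (fun j => C.A j γ) a B]
        exact Fintype.prod_empty _
      · rw [hfib]
        exact Fintype.prod_empty _
    · have h1 := densX_ml hM (A := {a // bl a ∈ J}) (E := fun a => E a.1) (fun a => cA a.1)
        (fun a => σ a.1) (fun a => P a.1) (fun a => R a.1)
        ⟨fun a a' h => hF.sg a.1 a'.1 fun h' => h (Subtype.ext h'), fun a => hF.bd a.1,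
          fun a => hF.sym a.1⟩ (fun a => z a.1) (fun a => b a.1) (fun a => hz a.1) C γ
      refine h1.congr (fun X B _ => ?_) ?_
      · rw [hfib fun a => indX D ρ cA σ P R z b (fun j => C.A j γ) a B]
        rfl
      · rw [hfib]

end

end Pool.Agent.Lib.MP_1a91b9_ntZ.J4
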