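import Pool.Agent.Lib.MP_1a91b9_ntM.E.Main8X
import Pool.Agent.Lib.MP_1a91b9_ntM.E.XFin
import Pool.Agent.Lib.MP_1a91b9_ntZ.J4Den

/-!
# MP_1a91b9_nt (the binomial law), `ℚ(i)`: the good sets of primes in a class

`dsjXB`: the elements `x a` are different modulo fourth powers, also up to inversion, and they are
distributed over the blocks `bl a`; in each class the sets of primes for which at least `t` of the blocks
are good have lower density at least `bn n t v`, if the product of the densities over each block is at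
least `v`.
-/

set_option autoImplicit false
set_option linter.unusedSectionVars false

namespace Pool.Agent.Lib.MP_1a91b9_ntZ.J4

open Finset NumberField Pool.Agent.Lib.MP_1a91b9_ntH Pool.Agent.Lib.MP_1a91b9_ntQ
  Pool.Agent.Lib.MP_1a91b9_ntQ.Da Pool.Agent.Lib.MP_1a91b9_ntQ.M Pool.Agent.Lib.MP_1a91b9_ntM
  Pool.Agent.Lib.MP_1a91b9_ntM.E Pool.Agent.Lib.MP_1a91b9_ntZ

noncomputable section

open Classical in
/-- **The joint density of the good sets, at least `t` blocks.** -/
theorem dsjXB {A : Type} [Fintype A] [DecidableEq A] {I : Type} [Fintype I] [DecidableEq I]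
    (bl : A → I) (x : A → DD8) (f : A → Bool) (P : Finset Pg)
    (hdj : ∀ i, Dj (x i).S (x i).T (x i).B) (hP : ∀ i, (x i).S ⊆ P ∧ (x i).T ⊆ P ∧ (x i).B ⊆ P)
    (hf : ∀ i, f i = true → ¬ (x i).Sq)
    (hpw : ∀ i i', i ≠ i' → x i ≠ x i' ∧ x i ≠ (x i').inv)
    (t : ℕ) {v κ₀ : ℝ} (hv0 : 0 ≤ v)
    (hv : ∀ b, v ≤ ∏ a ∈ univ.filter (fun a => bl a = b),
      (if f a = true then cinf2 / 2 else cinf2))
    (hκ : κ₀ < bn (Fintype.card I) t v) (m : ℕ) (g : GB m P) :
    DSB m P g κ₀ fun X => Atl t fun b => ∀ i, bl i = b →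
      GdX (x i) X ∧ (f i = true → GdX (x i).inv X) := by
  obtain ⟨m0, h0⟩ := oneX trX1 trX2 trSq
  refine DSB_of_le (le_max_left m m0) fun g => ?_
  have hm : m0 ≤ max m m0 := le_max_right _ _
  generalize max m m0 = m at hm g
  choose E i1 i2 Pm R z b hb hR hz hzf hX using fun i : A =>
    h0 m hm P (x i) (f i) (hdj i) (hP i) (hf i) g
  have hF : FamX (fun i => cX P (x i)) (fun i => sX P (x i)) Pm R := by
    refine ⟨fun i i' hii hc => ⟨fun hs => ?_, fun hs => ?_⟩, hb, hR⟩
    · refine (hpw i i' hii).1 (sX_inj (hdj i) (hP i) (hdj i') (hP i') hc ?_)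
      funext j
      have h4 := congrFun hs j
      simp only [Pi.add_apply, Pi.zero_apply] at h4
      have h5 := eq_neg_of_add_eq_zero_left h4
      rw [z2_neg] at h5
      exact h5
    · exact (hpw i i' hii).2 (sX_inv (hdj i) (hP i) (hdj i') (hP i') hc hs)
  have hcp := cinf2_posX
  have hv' : ∀ b, v ≤ ∏ a ∈ univ.filter (fun a => bl a = b),
      (if (z a).isSome = true then cinf2 / 2 else cinf2) := by
    intro b
    refine (hv b).trans (prod_le_prod (fun i _ => ?_) fun i _ => ?_)
    · split_ifs <;> linarith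
    · by_cases h5 : (z i).isSome = true
      · rw [if_pos h5, if_pos (hzf i h5)]
      · rw [if_neg h5]
        split_ifs <;> linarith
  have key := densX_atl (mvX4 P) (fun i => cX P (x i)) (fun i => sX P (x i)) Pm R hF z b hz
    (CclB m P) g hcp.le (cinf2_le_half.trans (by norm_num)) bl t hv0 hv' hκ
  refine glueB (P := fun S => ∃ X : Finset (Off P), S = up X ∧ X ≠ ∅ ∧
    ∑ q ∈ X, (CclB m P).cl q = g ∧ Atl t fun c => ∀ i, bl i = c →
      (MP_1a91b9_ntM.E.nX (d4.off P) (ρX P) (fun i => cX P (x i)) (fun i => sX P (x i)) Pm R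
        (fun j => (CclB m P).A j g) i X = 1 ∧
      ∀ e, z i = some e → k2X (d4.off P) (ρX P) (fun i => cX P (x i)) (fun i => sX P (x i))
        Pm R b i e X = 1)) (fun ε hε => ?_) fun S hS hSg hSX => ?_
  · obtain ⟨X0, hX0⟩ := key (ε / 2) (by positivity)
    obtain ⟨X1, hX1⟩ := exists_nat_gt (2 / ε)
    refine ⟨X0 + X1, fun Y hY => ?_⟩
    have h4 := hX0 Y ((Nat.le_add_right _ _).trans hY)
    have h5 : (1 : ℝ) ≤ ε / 2 * Y := by
      have h6 : (X1 : ℝ) ≤ Y := by exact_mod_cast (Nat.le_add_left _ _).trans hY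
      have h7 := hX1.le.trans h6
      rw [div_le_iff₀ hε] at h7
      linarith
    rw [SB_eq (CclB m P) (cl := clB m P) (fun q => rfl), SG_eq, card_map]
    have h6 : ∀ (Q : Finset (Off P) → Prop) (T1 : Finset (Finset (Off P)))
        (T2 : Finset (Finset Pg)),
        (∀ B ∈ T1, B ∈ SB ∅ (CclB m P).cl g Y ∧ Q B) →
        (∀ X : Finset (Off P), X ∈ SB ∅ (CclB m P).cl g Y → X ≠ ∅ → Q X → up X ∈ T2) →
        (T1.card : ℝ) ≤ T2.card + 1 := by
      intro Q T1 T2 hT1 hT2
      rw [← Nat.cast_succ, Nat.cast_le, ← card_map ⟨up, up_injective⟩]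
      refine (card_le_card (t := insert ∅ T2) fun S hS => ?_).trans (card_insert_le _ _)
      obtain ⟨X, hX5, rfl⟩ := mem_map.1 hS
      obtain ⟨hX6, hX7⟩ := hT1 X hX5
      rw [mem_insert]
      by_cases hXe : X = ∅
      · left
        rw [hXe]
        rfl
      · exact Or.inr (hT2 X hX6 hXe hX7)
    refine le_of_add_le_add_right (a := (1 : ℝ)) (le_trans ?_ (h4.trans (h6 (fun X =>
      Atl t fun c => ∀ i, bl i = c →
      (MP_1a91b9_ntM.E.nX (d4.off P) (ρX P) (fun i => cX P (x i)) (fun i => sX P (x i)) Pm R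
        (fun j => (CclB m P).A j g) i X = 1 ∧
      ∀ e, z i = some e → k2X (d4.off P) (ρX P) (fun i => cX P (x i)) (fun i => sX P (x i))
        Pm R b i e X = 1)) _ _
      (fun B hB => (mem_flt _ _ _ _).1 hB) fun X hX6 hXe hX7 => (mem_flt _ _ _ _).2
        ⟨mem_map_of_mem _ hX6, X, rfl, hXe, (mem_SB.1 hX6).2.2, hX7⟩)))
    linarith
  · obtain ⟨X, rfl, hXe, hXg, hXX⟩ := hSX
    refine hXX.mono fun c hc i hi => ?_
    obtain ⟨h4, h5⟩ := hc i hi
    have hα : ∀ j, ∑ q ∈ X, (d4.off P).a q j = (fun j => (CclB m P).A j g) j := by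
      intro j
      show _ = (CclB m P).A j g
      rw [← hXg, map_sum]
      exact sum_congr rfl fun q _ => (CclB m P).ha q j
    have h6 := kX_mul (D := d4.off P) (ρ := ρX P) (by
        funext q
        unfold ρX
        rw [if_pos rfl]
        rfl) (fun i => cX P (x i)) (fun i => sX P (x i)) Pm R (α := fun j => (CclB m P).A j g) i
      hXe hα
    rw [h4, mul_one] at h6
    refine hX i X hXe hXg (tX (fun i => cX P (x i)) (fun i => sX P (x i)) Pm R
      (fun j => (CclB m P).A j g) i) (fun h7 => ?_) (fun h7 => ?_) h6 fun e he => ?_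
    · by_contra h8
      unfold tX at h7
      rw [if_neg h8] at h7
      exact absurd h7 (by decide)
    · have h8 := (tX_cases (fun i => cX P (x i)) (fun i => sX P (x i)) Pm R
        (fun j => (CclB m P).A j g) i).resolve_right h7
      refine ⟨h8, fun h9 => ?_⟩
      unfold tX at h7
      exact h7 (if_pos h9)
    · have h7 := h5 e he
      unfold k2X at h7
      exact h7

end

end Pool.Agent.Lib.MP_1a91b9_ntZ.J4
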